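import Pool.Agent.H83.DS.NumP

/-!
# DS.ArrP : shifts, members, arrivals and places are computable in polynomial time (about 150 lines, given `NumP`)

`sh`, `shI`: `PolyTime.range`, `map`, `sum`, `poly_pow` with the exponent `i < t` (bound: `size` of the pair `(a, i)` is only logarithmic
in `i`, so use the bound through the list `range (t a)`: put the exponent as `min i (t a)`, equal on the range: `List.map_congr_left`).
`mem`: `range`, `map`, `filter`.  `sel`: `zipIdx`, `filter`, `map`.  `arr`: `flatMap` over `range (p * p)`.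
`place`: `PolyTime.idxOf`. -/

set_option autoImplicit false

namespace Pool.Agent.H83.DS

open Pool.Agent.H80.Poly

variable {α : Type} [BEnc α]

private theorem ArrP_lift {γ : Type} [BEnc γ] {n : α → ℕ} (h : ∃ β, PB β ∧ ∀ a, n a ≤ β (size a)) :
    ∃ β, PB β ∧ ∀ z : α × γ, n z.1 ≤ β (size z) := by
  obtain ⟨β, ⟨p, hp⟩, h⟩ := h
  refine ⟨fun m => p.eval m, PB.eval p, fun z => ?_⟩
  refine (h z.1).trans ((hp _).trans (eval_mono p ?_))
  show (enc z.1).length ≤ (enc z).length
  rw [enc_prod, length_pr]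
  omega

private theorem ArrP_min {n t : α → ℕ} (h : ∃ β, PB β ∧ ∀ a, t a ≤ β (size a)) :
    ∃ β, PB β ∧ ∀ a, min (n a) (t a) ≤ β (size a) := by
  obtain ⟨β, hβ, h⟩ := h
  exact ⟨β, hβ, fun a => (min_le_right _ _).trans (h a)⟩

theorem poly_sh {p t x y b : α → ℕ} (hp : PolyTime p) (ht : PolyTime t) (htb : ∃ β, PB β ∧ ∀ a, t a ≤ β (size a))
    (hx : PolyTime x) (hy : PolyTime y) (hb : PolyTime b) :
    PolyTime (fun a => sh (p a) (t a) (x a) (y a) (b a)) ∧ PolyTime (fun a => shI (p a) (t a) (x a) (y a) (b a)) := by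
  have fst : PolyTime (fun z : α × ℕ => z.1) := PolyTime.fst'
  have snd : PolyTime (fun z : α × ℕ => z.2) := PolyTime.snd'
  have hr : PolyTime (fun a => List.range (t a)) := PolyTime.range ht htb
  have hp' : PolyTime (fun z : α × ℕ => p z.1) := hp.comp fst
  have he : PolyTime (fun z : α × ℕ => min z.2 (t z.1)) := snd.min (ht.comp fst)
  have heb : ∃ β, PB β ∧ ∀ z : α × ℕ, min z.2 (t z.1) ≤ β (size z) :=
    ArrP_min (n := fun z : α × ℕ => z.2) (t := fun z : α × ℕ => t z.1) (ArrP_lift htb)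
  have h1 : PolyTime (fun z : α × ℕ => p z.1 ^ min z.2 (t z.1)) := poly_pow hp' he heb
  have h2 : PolyTime (fun z : α × ℕ => x z.1 ^ min z.2 (t z.1)) := poly_pow (hx.comp fst) he heb
  have h3 : PolyTime (fun z : α × ℕ => b z.1 / p z.1 ^ min z.2 (t z.1)) := (hb.comp fst).div h1
  have h4 : PolyTime (fun z : α × ℕ => y z.1 * x z.1 ^ min z.2 (t z.1)) := (hy.comp fst).mul h2
  have key : ∀ (g g' : α → ℕ → ℕ), (∀ a i, i < t a → g a i = g' a i) → ∀ a,
      ((List.range (t a)).map (g a)).sum = ((List.range (t a)).map (g' a)).sum := by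
    intro g g' h a
    rw [List.map_congr_left (fun i hi => h a i (List.mem_range.1 hi))]
  constructor
  · have h5 : PolyTime (fun z : α × ℕ => (b z.1 / p z.1 ^ min z.2 (t z.1) +
        (p z.1 - y z.1 * x z.1 ^ min z.2 (t z.1) % p z.1)) % p z.1 * p z.1 ^ min z.2 (t z.1)) :=
      ((h3.add (hp'.sub (h4.mod hp'))).mod hp').mul h1
    refine (PolyTime.sum (hr.map h5)).congr fun a => ?_
    refine key (fun a i => (b a / p a ^ min i (t a) + (p a - y a * x a ^ min i (t a) % p a)) %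
      p a * p a ^ min i (t a)) (fun a i => (b a / p a ^ i + (p a - y a * x a ^ i % p a)) %
      p a * p a ^ i) ?_ a
    intro a i hi
    rw [min_eq_left hi.le]
  · have h5 : PolyTime (fun z : α × ℕ => (b z.1 / p z.1 ^ min z.2 (t z.1) +
        y z.1 * x z.1 ^ min z.2 (t z.1)) % p z.1 * p z.1 ^ min z.2 (t z.1)) :=
      ((h3.add h4).mod hp').mul h1
    refine (PolyTime.sum (hr.map h5)).congr fun a => ?_
    refine key (fun a i => (b a / p a ^ min i (t a) + y a * x a ^ min i (t a)) %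
      p a * p a ^ min i (t a)) (fun a i => (b a / p a ^ i + y a * x a ^ i) %
      p a * p a ^ i) ?_ a
    intro a i hi
    rw [min_eq_left hi.le]

theorem poly_mem {f : α × ℕ → Bool} (hf : PolyTime f) {M B c : α → ℕ} (hM : PolyTime M) (hB : PolyTime B)
    (hBb : ∃ β, PB β ∧ ∀ a, B a ≤ β (size a)) (hc : PolyTime c) :
    PolyTime (fun a => mem (fun i => f (a, i)) (M a) (B a) (c a)) := by
  have fst : PolyTime (fun z : α × ℕ => z.1) := PolyTime.fst'
  have snd : PolyTime (fun z : α × ℕ => z.2) := PolyTime.snd'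
  have hr : PolyTime (fun a => List.range (B a)) := PolyTime.range hB hBb
  exact PolyTime.filter (g := f) (PolyTime.map (g := fun z : α × ℕ => c z.1 + M z.1 * z.2) hr
    ((hc.comp fst).add ((hM.comp fst).mul snd))) hf

theorem poly_sel {D j : α → ℕ} {l : α → List ℕ} (hD : PolyTime D) (hj : PolyTime j) (hl : PolyTime l) :
    PolyTime (fun a => sel (D a) (j a) (l a)) := by
  have hw : PolyTime (fun w : α × (ℕ × ℕ) => w) := PolyTime.id
  refine ((PolyTime.filter (g := fun w : α × (ℕ × ℕ) => decide (w.2.2 % D w.1 = j w.1)) hl.zipIdx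
    (PolyTime.eq (hw.snd.snd.mod (hD.comp hw.fst)) (hj.comp hw.fst))).map
    (g := fun w : α × (ℕ × ℕ) => w.2.1) hw.snd.fst).congr fun a => ?_
  unfold sel
  have e : (fun z : ℕ × ℕ => z.2 % D a == j a) = fun z : ℕ × ℕ => decide (z.2 % D a = j a) := by
    funext z
    rw [Bool.eq_iff_iff]
    simp
  rw [e]

theorem poly_arr {f : α × ℕ → Bool} (hf : PolyTime f) {p t M B b : α → ℕ} (hp : PolyTime p)
    (hpb : ∃ β, PB β ∧ ∀ a, p a ≤ β (size a)) (ht : PolyTime t) (htb : ∃ β, PB β ∧ ∀ a, t a ≤ β (size a))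
    (hM : PolyTime M) (hB : PolyTime B) (hBb : ∃ β, PB β ∧ ∀ a, B a ≤ β (size a)) (hb : PolyTime b) :
    PolyTime (fun a => arr (fun i => f (a, i)) (p a) (t a) (M a) (B a) (b a)) := by
  have fst : PolyTime (fun z : α × ℕ => z.1) := PolyTime.fst'
  have snd : PolyTime (fun z : α × ℕ => z.2) := PolyTime.snd'
  have hp' : PolyTime (fun z : α × ℕ => p z.1) := hp.comp fst
  have hppb : ∃ β, PB β ∧ ∀ a, p a * p a ≤ β (size a) := by
    obtain ⟨β, hβ, h⟩ := hpb
    exact ⟨fun m => β m * β m, hβ.mul hβ, fun a => Nat.mul_le_mul (h a) (h a)⟩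
  have hr : PolyTime (fun a => List.range (p a * p a)) := PolyTime.range (hp.mul hp) hppb
  have hs : PolyTime (fun z : α × ℕ => sh (p z.1) (t z.1) (z.2 / p z.1) (z.2 % p z.1) (b z.1)) :=
    (poly_sh hp' (ht.comp fst) (ArrP_lift htb) (snd.div hp') (snd.mod hp') (hb.comp fst)).1
  have hf' : PolyTime (fun w : (α × ℕ) × ℕ => f (w.1.1, w.2)) := by
    have hw : PolyTime (fun w : (α × ℕ) × ℕ => w) := PolyTime.id
    exact hf.comp (hw.fst.fst.pair hw.snd)
  have hm := poly_mem (f := fun w : (α × ℕ) × ℕ => f (w.1.1, w.2)) hf' (hM.comp fst) (hB.comp fst)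
    (ArrP_lift hBb) hs
  exact PolyTime.flatMap (g := fun z : α × ℕ => sel (p z.1 * p z.1) z.2
    (mem (fun i => f (z.1, i)) (M z.1) (B z.1)
      (sh (p z.1) (t z.1) (z.2 / p z.1) (z.2 % p z.1) (b z.1)))) hr
    (poly_sel (hp'.mul hp') snd hm)

private theorem ArrP_idxOf {l : α → List ℕ} {i : α → ℕ} (hl : PolyTime l) (hi : PolyTime i) :
    PolyTime (fun a => (l a).idxOf (i a)) := by
  refine (PolyTime.idxOf hl hi).congr fun a => ?_
  unfold List.idxOf
  have e : (fun x : ℕ => decide (x = i a)) = fun x : ℕ => x == i a := by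
    funext x
    rw [Bool.eq_iff_iff]
    simp
  rw [e]

theorem poly_place {f : α × ℕ → Bool} (hf : PolyTime f) {p t M B i : α → ℕ} (hp : PolyTime p)
    (hpb : ∃ β, PB β ∧ ∀ a, p a ≤ β (size a)) (ht : PolyTime t) (htb : ∃ β, PB β ∧ ∀ a, t a ≤ β (size a))
    (hM : PolyTime M) (hB : PolyTime B) (hBb : ∃ β, PB β ∧ ∀ a, B a ≤ β (size a)) (hi : PolyTime i) :
    PolyTime (fun a => place (fun i => f (a, i)) (p a) (t a) (M a) (B a) (i a)) := by
  have hm : PolyTime (fun a => mem (fun i => f (a, i)) (M a) (B a) (i a % M a)) :=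
    poly_mem hf hM hB hBb (hi.mod hM)
  have hk : PolyTime (fun a => (mem (fun i => f (a, i)) (M a) (B a) (i a % M a)).idxOf (i a) %
      (p a * p a)) := (ArrP_idxOf hm hi).mod (hp.mul hp)
  have hd : PolyTime (fun a => dst (fun i => f (a, i)) (p a) (t a) (M a) (B a) (i a)) :=
    (poly_sh hp ht htb (hk.div hp) (hk.mod hp) (hi.mod hM)).2
  have ha := poly_arr hf hp hpb ht htb hM hB hBb hd
  exact ((ArrP_idxOf ha hi).mul hM).add hd

end Pool.Agent.H83.DS
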