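import Pool.Agent.H83.DS.NumP

/-!
# DS.Bkt : the strings with a given hash value (about 100 lines)

`mem_bkt`: `z = s1 ++ s2`, `|s1| = m`; `hs z = s1 ^^ R s2 = v` iff `s1 = v ^^ R s2` (`zipWith` of xor twice is the identity; lengths: `hsh (rows ..)` has
length `m`).  `s2 = bitsOf (L - m) w` with `w = val s2 < 2^(L-m)` (`bitsOf_val`, `val_lt`).
`poly_hs`, `poly_bkt`: `range`, `map`, `zipWith`, `poly_hsh` (TK/Pt.lean), `take`, `drop`, `append`, `poly_bitsOf`, `poly_pow`. -/

set_option autoImplicit false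

namespace Pool.Agent.H83.DS

open Pool.Agent.H80.Poly

private theorem Bkt_length_rows (L m j : ℕ) (a : List Bool) : (rows L m j a).length = m := by
  simp [rows]

private theorem Bkt_length_hsh (L m j : ℕ) (a s : List Bool) :
    (Pool.Agent.H83.TK.hsh (rows L m j a) s).length = m := by
  rw [Pool.Agent.H83.TK.length_hsh, Bkt_length_rows]

private theorem Bkt_zw : ∀ x y : List Bool, x.length = y.length →
    List.zipWith (fun x y => x ^^ y) (List.zipWith (fun x y => x ^^ y) x y) y = x
  | [], [], _ => rfl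
  | b :: x, c :: y, h => by
    have h' : x.length = y.length := by simpa using h
    simp only [List.zipWith_cons_cons, Bkt_zw x y h', List.cons.injEq, and_true]
    cases b <;> cases c <;> rfl
  | [], _ :: _, h => by simp at h
  | _ :: _, [], h => by simp at h

theorem length_hs {L m j : ℕ} {a z : List Bool} (hz : z.length = L) (hm : m ≤ L) : (hs L m j a z).length = m := by
  unfold hs
  rw [List.length_zipWith, Bkt_length_hsh, List.length_take, hz]
  omega

theorem mem_bkt {R L m j : ℕ} {a v z : List Bool} (hm : m ≤ L) (hR : 2 ^ (L - m) ≤ R) (hv : v.length = m) :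
    z ∈ bkt R L m j a v ↔ z.length = L ∧ hs L m j a z = v := by
  unfold bkt
  rw [min_eq_right hR, List.mem_map]
  constructor
  · rintro ⟨w, _, rfl⟩
    have hl : (List.zipWith (fun x y => x ^^ y) v
        (Pool.Agent.H83.TK.hsh (rows L m j a) (bitsOf (L - m) w))).length = m := by
      rw [List.length_zipWith, Bkt_length_hsh, hv, min_self]
    refine ⟨?_, ?_⟩
    · rw [List.length_append, hl, length_bitsOf]
      omega
    · unfold hs
      rw [List.take_left' hl, List.drop_left' hl]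
      exact Bkt_zw _ _ (by rw [Bkt_length_hsh, hv])
  · rintro ⟨hz, h⟩
    have hs : (z.drop m).length = L - m := by rw [List.length_drop, hz]
    refine ⟨val (z.drop m), ?_, ?_⟩
    · rw [List.mem_range, ← hs]
      exact val_lt _
    · have h1 : bitsOf (L - m) (val (z.drop m)) = z.drop m := by
        rw [← hs]
        exact bitsOf_val _
      rw [h1]
      have h2 : List.zipWith (fun x y => x ^^ y) v
          (Pool.Agent.H83.TK.hsh (rows L m j a) (z.drop m)) = z.take m := by
        rw [← h]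
        unfold DS.hs
        exact Bkt_zw _ _ (by rw [Bkt_length_hsh, List.length_take, hz]; omega)
      rw [h2, List.take_append_drop]

variable {α : Type} [BEnc α]

private theorem Bkt_bd {γ : Type} [BEnc γ] {n : α → ℕ} (h : ∃ β, PB β ∧ ∀ a, n a ≤ β (size a)) :
    ∃ β, PB β ∧ ∀ z : α × γ, n z.1 ≤ β (size z) := by
  obtain ⟨β, ⟨p, hp⟩, h⟩ := h
  refine ⟨fun m => p.eval m, PB.eval p, fun z => ?_⟩
  refine (h z.1).trans ((hp _).trans (eval_mono p ?_))
  rw [size_prod]
  omega

private theorem Bkt_rows {L m j : α → ℕ} {a : α → List Bool} (hL : PolyTime L)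
    (hm : PolyTime m) (hmb : ∃ β, PB β ∧ ∀ c, m c ≤ β (size c)) (hj : PolyTime j) (ha : PolyTime a) :
    PolyTime (fun c => rows (L c) (m c) (j c) (a c)) := by
  have fst : PolyTime (fun z : α × ℕ => z.1) := PolyTime.fst'
  have snd : PolyTime (fun z : α × ℕ => z.2) := PolyTime.snd'
  exact PolyTime.map
    (g := fun z : α × ℕ => ((a z.1).drop ((j z.1 * L z.1 + z.2) * L z.1)).take (L z.1))
    (PolyTime.range hm hmb)
    (((ha.comp fst).drop ((((hj.comp fst).mul (hL.comp fst)).add snd).mul (hL.comp fst))).take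
      (hL.comp fst))

private theorem Bkt_zip {x y : α → List Bool} (hx : PolyTime x) (hy : PolyTime y) :
    PolyTime (fun c => List.zipWith (fun b d => b ^^ d) (x c) (y c)) :=
  PolyTime.zipWith (g := fun z : α × Bool × Bool => z.2.1 ^^ z.2.2) hx hy
    ((PolyTime.snd'.fst).xor (PolyTime.snd'.snd))

theorem poly_hs {L m j : α → ℕ} {a z : α → List Bool} (hL : PolyTime L) (hLb : ∃ β, PB β ∧ ∀ c, L c ≤ β (size c))
    (hm : PolyTime m) (hmb : ∃ β, PB β ∧ ∀ c, m c ≤ β (size c)) (hj : PolyTime j) (ha : PolyTime a) (hz : PolyTime z) :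
    PolyTime (fun c => hs (L c) (m c) (j c) (a c) (z c)) :=
  Bkt_zip (hz.take hm) (Pool.Agent.H83.TK.poly_hsh (Bkt_rows hL hm hmb hj ha) (hz.drop hm))

theorem poly_bkt {R L m j : α → ℕ} {a v : α → List Bool} (hR : PolyTime R) (hRb : ∃ β, PB β ∧ ∀ c, R c ≤ β (size c))
    (hL : PolyTime L) (hLb : ∃ β, PB β ∧ ∀ c, L c ≤ β (size c)) (hm : PolyTime m)
    (hmb : ∃ β, PB β ∧ ∀ c, m c ≤ β (size c)) (hj : PolyTime j) (ha : PolyTime a) (hv : PolyTime v) :
    PolyTime (fun c => bkt (R c) (L c) (m c) (j c) (a c) (v c)) := by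
  have hsb : ∃ β, PB β ∧ ∀ c, L c - m c ≤ β (size c) := by
    obtain ⟨β, hβ, h⟩ := hLb
    exact ⟨β, hβ, fun c => (Nat.sub_le _ _).trans (h c)⟩
  have hr : PolyTime (fun c => List.range (min (R c) (2 ^ (L c - m c)))) := by
    refine PolyTime.range (hR.min (Pool.Agent.H83.TK.poly_two_pow (hL.sub hm) hsb)) ?_
    obtain ⟨β, hβ, h⟩ := hRb
    exact ⟨β, hβ, fun c => (min_le_left _ _).trans (h c)⟩
  have fst : PolyTime (fun z : α × ℕ => z.1) := PolyTime.fst'
  have snd : PolyTime (fun z : α × ℕ => z.2) := PolyTime.snd'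
  have hbits : PolyTime (fun z : α × ℕ => bitsOf (L z.1 - m z.1) z.2) :=
    poly_bitsOf ((hL.sub hm).comp fst) (Bkt_bd (n := fun c => L c - m c) hsb) snd
  have hrows : PolyTime (fun z : α × ℕ => rows (L z.1) (m z.1) (j z.1) (a z.1)) :=
    (Bkt_rows hL hm hmb hj ha).comp fst
  exact PolyTime.map
    (g := fun z : α × ℕ => List.zipWith (fun x y => x ^^ y) (v z.1)
      (Pool.Agent.H83.TK.hsh (rows (L z.1) (m z.1) (j z.1) (a z.1)) (bitsOf (L z.1 - m z.1) z.2)) ++
        bitsOf (L z.1 - m z.1) z.2) hr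
    ((Bkt_zip (hv.comp fst) (Pool.Agent.H83.TK.poly_hsh hrows hbits)).append hbits)

end Pool.Agent.H83.DS
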