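import Pool.Agent.H83.DS.Def

/-!
# DS.Num : the parameters (about 120 lines)

`prm_spec`: `isPr m` iff `m` is prime; Bertrand (`Nat.exists_prime_lt_and_le_two_mul`).
`tt_spec`: the predicate `p^(i+1) ≤ x`, `x = 2^(l-2) / (2 p²)`, is decreasing in `i` and false for `i + 1 ≥ l` (`x < 2^l ≤ p^l`), so
`t = tt p l` is the number with `p^i ≤ x` for `1 ≤ i ≤ t` and `x < p^(t+1)`.  `Nat.div_lt_iff_lt_mul`, `Nat.le_div_iff_mul_le`.
-/

set_option autoImplicit false

namespace Pool.Agent.H83.DS

private theorem num_isPr_iff (m : ℕ) : isPr m = true ↔ m.Prime := by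
  unfold isPr
  simp only [Bool.and_eq_true, decide_eq_true_eq, List.all_eq_true, List.mem_range,
    Bool.or_eq_true, Bool.not_eq_true', beq_eq_false_iff_ne, ne_eq]
  constructor
  · rintro ⟨h2, h⟩
    rw [Nat.prime_def_lt]
    refine ⟨h2, fun d hd hdm => ?_⟩
    rcases h d hd with h1 | h1
    · have : d ≠ 0 := by
        rintro rfl
        have := Nat.eq_zero_of_zero_dvd hdm
        omega
      omega
    · exact absurd (Nat.mod_eq_zero_of_dvd hdm) h1
  · intro hp
    refine ⟨hp.two_le, fun d hd => ?_⟩
    by_cases h : d < 2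
    · exact Or.inl h
    · right
      intro h0
      have h1 : d ∣ m := Nat.dvd_of_mod_eq_zero h0
      rcases (Nat.dvd_prime hp).1 h1 with h2 | h2 <;> omega

private theorem num_headD {l : List ℕ} (h : l ≠ []) : l.headD 2 ∈ l := by
  cases l with
  | nil => exact absurd rfl h
  | cons a l => simp

theorem prm_spec {K : ℕ} (h : 1 ≤ K) : (prm K).Prime ∧ K < prm K ∧ prm K ≤ 2 * K := by
  have hne : ((List.range (2 * K + 1)).filter fun m => decide (K < m) && isPr m) ≠ [] := by
    obtain ⟨p, hp, h1, h2⟩ := Nat.exists_prime_lt_and_le_two_mul K (by omega)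
    apply List.ne_nil_of_mem (a := p)
    rw [List.mem_filter, List.mem_range, Bool.and_eq_true, decide_eq_true_eq, num_isPr_iff]
    exact ⟨by omega, h1, hp⟩
  have h1 := num_headD hne
  rw [List.mem_filter, List.mem_range, Bool.and_eq_true, decide_eq_true_eq, num_isPr_iff] at h1
  have h2 := h1.1
  refine ⟨h1.2.2, h1.2.1, ?_⟩
  show List.headD _ 2 ≤ 2 * K
  omega

theorem prm_le (K : ℕ) : prm K ≤ 2 * K + 2 := by
  by_cases hne : ((List.range (2 * K + 1)).filter fun m => decide (K < m) && isPr m) = []
  · unfold prm
    rw [hne]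
    simp
  · have h1 := num_headD hne
    rw [List.mem_filter, List.mem_range] at h1
    have h2 := h1.1
    show List.headD _ 2 ≤ 2 * K + 2
    omega

theorem tt_le (p l : ℕ) : tt p l ≤ l := by
  unfold tt
  exact le_trans (List.length_filter_le _ _) (by simp)

private theorem num_count (P : ℕ → Bool) (hP : ∀ i, P (i + 1) = true → P i = true) (l : ℕ) :
    (∀ i < ((List.range l).filter P).length, P i = true) ∧
      (((List.range l).filter P).length < l → P ((List.range l).filter P).length = false) := by
  have hP' : ∀ i j, i ≤ j → P j = true → P i = true := by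
    intro i j hij
    induction j, hij using Nat.le_induction with
    | base => exact id
    | succ j _ ih => exact fun h => ih (hP j h)
  induction l with
  | zero => simp
  | succ l ih =>
    obtain ⟨ih1, ih2⟩ := ih
    have hle : ((List.range l).filter P).length ≤ l :=
      le_trans (List.length_filter_le _ _) (by simp)
    rw [List.range_succ, List.filter_append, List.length_append]
    by_cases hl : P l = true
    · have h0 : ((List.range l).filter P).length = l := by
        by_contra hne
        have h1 := ih2 (by omega)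
        rw [hP' _ l hle hl] at h1
        exact absurd h1 (by simp)
      rw [h0]
      have h1 : ([l].filter P).length = 1 := by simp [hl]
      rw [h1]
      refine ⟨fun i hi => hP' i l (by omega) hl, fun h => ?_⟩
      exact absurd h (by omega)
    · have h1 : ([l].filter P).length = 0 := by simp [hl]
      rw [h1, Nat.add_zero]
      refine ⟨ih1, fun h => ?_⟩
      by_cases h2 : ((List.range l).filter P).length < l
      · exact ih2 h2
      · have h3 : ((List.range l).filter P).length = l := by omega
        rw [h3]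
        simpa using hl

theorem tt_spec {p l : ℕ} (hp : 2 ≤ p) :
    (tt p l ≠ 0 → 2 * p ^ 2 * p ^ tt p l ≤ 2 ^ (l - 2)) ∧ 2 ^ (l - 2) < 2 * p ^ 3 * p ^ tt p l := by
  have hpos : 0 < 2 * p ^ 2 := by positivity
  obtain ⟨h1, h2⟩ := num_count (fun i => decide (p ^ (i + 1) ≤ 2 ^ (l - 2) / (2 * p ^ 2)))
    (by
      intro i hi
      simp only [decide_eq_true_eq] at hi ⊢
      exact le_trans (Nat.pow_le_pow_right (by omega) (by omega)) hi) l
  have ht : ((List.range l).filter fun i =>
      decide (p ^ (i + 1) ≤ 2 ^ (l - 2) / (2 * p ^ 2))).length = tt p l := rfl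
  rw [ht] at h1 h2
  constructor
  · intro h0
    have h3 := h1 (tt p l - 1) (by omega)
    rw [decide_eq_true_eq, Nat.le_div_iff_mul_le hpos] at h3
    rw [show tt p l - 1 + 1 = tt p l by omega] at h3
    rw [mul_comm]
    exact h3
  · rcases lt_or_ge (tt p l) l with h3 | h3
    · have h4 := h2 h3
      rw [decide_eq_false_iff_not, not_le, Nat.div_lt_iff_lt_mul hpos] at h4
      calc 2 ^ (l - 2) < p ^ (tt p l + 1) * (2 * p ^ 2) := h4
        _ = 2 * p ^ 3 * p ^ tt p l := by ring
    · have h4 : tt p l = l := le_antisymm (tt_le p l) h3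
      rw [h4]
      have h5 : 2 ^ (l - 2) ≤ p ^ l :=
        le_trans (Nat.pow_le_pow_right (by omega) (by omega)) (Nat.pow_le_pow_left hp l)
      have h6 : 1 < 2 * p ^ 3 := by
        have : 0 < p ^ 3 := by positivity
        omega
      have h7 : 0 < p ^ l := by positivity
      calc 2 ^ (l - 2) ≤ p ^ l := h5
        _ = 1 * p ^ l := (one_mul _).symm
        _ < 2 * p ^ 3 * p ^ l := Nat.mul_lt_mul_of_pos_right h6 h7

theorem length_bitsOf (L i : ℕ) : (bitsOf L i).length = L := by
  simp [bitsOf]

private theorem num_bitsOf_succ (L i : ℕ) : bitsOf (L + 1) i = (i % 2 == 1) :: bitsOf L (i / 2) := by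
  unfold bitsOf
  rw [List.range_succ_eq_map, List.map_cons, List.map_map]
  congr 1
  · simp
  · apply List.map_congr_left
    intro j _
    simp only [Function.comp]
    rw [pow_succ, mul_comm, Nat.div_div_eq_div_mul]

theorem val_bitsOf {L i : ℕ} (h : i < 2 ^ L) : Pool.Agent.H80.Poly.val (bitsOf L i) = i := by
  induction L generalizing i with
  | zero =>
    have : i = 0 := by simpa using h
    subst this
    simp [bitsOf, Pool.Agent.H80.Poly.val]
  | succ L ih =>
    rw [num_bitsOf_succ]
    have h1 : i / 2 < 2 ^ L := by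
      rw [pow_succ] at h
      omega
    have h2 := ih h1
    rcases Nat.mod_two_eq_zero_or_one i with h3 | h3
    · simp [h3, Pool.Agent.H80.Poly.val, h2]
      omega
    · simp [h3, Pool.Agent.H80.Poly.val, h2]
      omega

theorem bitsOf_val (z : List Bool) : bitsOf z.length (Pool.Agent.H80.Poly.val z) = z := by
  induction z with
  | nil => simp [bitsOf]
  | cons b z ih =>
    rw [List.length_cons, num_bitsOf_succ]
    have h1 : Pool.Agent.H80.Poly.val (b :: z) % 2 = b.toNat := by
      cases b <;> simp [Pool.Agent.H80.Poly.val]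
    have h2 : Pool.Agent.H80.Poly.val (b :: z) / 2 = Pool.Agent.H80.Poly.val z := by
      cases b <;> simp [Pool.Agent.H80.Poly.val] <;> omega
    rw [h1, h2, ih]
    cases b <;> simp

end Pool.Agent.H83.DS
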