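import Pool.Agent.H83.DS.Few
import Pool.Agent.H83.DS.Num

/-!
# DS.Core : the scheme with its parameters (about 150 lines, given `Few`, `Num`)

`T = 2^L`, `K = kpar n L W ≥ 3`, `p = pp C n L W` prime, `K^(C+3) < p ≤ 2 K^(C+3)`, `t = tt p l`, `M = p^t`, `B = bb p t L W`.
`W = 2^(L+3-l)`; `2^(l-2) < 2 S ≤ 2 T` gives `l ≤ L + 2`, `2^(l-2) * W = 2 T`, so `2 T < 2 S W` (`T < S W`) and
`T / M + 1 ≤ 2 W p³ + 1` (`tt_spec`), so `bb = 2^L / M + 1` is the first argument of the `min`; `M ≤ T` (`2 p² M ≤ 2^(l-2) ≤ 2 T` or `M = 1`), so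
`T ≤ M B ≤ T + M ≤ 2 T`.  `p² M ≤ S` for `t ≠ 0` (`2 p² M ≤ 2^(l-2) < 2 S`).  `t ≤ L`: `p^t ≤ T`.
Exceptions: `4 S ≤ 2^l` (`S ≤ 2^(l-2)`, `2 ≤ l`).  `few`: `#exc p² ≤ 6 t² T < 6 t² S W` if `t ≠ 0` (none if `t = 0`, `few_zero`), and
`6 t² W K^C ≤ K^(C+5) ≤ p²`, so `#exc K^C ≤ S`.
-/

set_option autoImplicit false

namespace Pool.Agent.H83.DS

theorem core {b : ℕ → Bool} {C n L W l S : ℕ}
    (hS : ((Finset.range (2 ^ L)).filter fun i => b i = true).card = S) (h1 : 1 ≤ S) (hl : 2 ≤ l)
    (hSl : S ≤ 2 ^ (l - 2)) (hlS : 2 ^ (l - 2) < 2 * S) (hW : W = 2 ^ (L + 3 - l)) :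
    (∀ i < 2 ^ L, b i = true → ∀ q : List Bool, q.length = l → Pool.Agent.H80.Poly.val q = plc b C n L W l i →
      dec1 b C n L W q = i) ∧
    ((Finset.range (2 ^ L)).filter fun i => b i = true ∧ 2 ^ l ≤ plc b C n L W l i).card * kpar n L W ^ C ≤ S := by
  have hK3 : 3 ≤ kpar n L W := by unfold kpar; omega
  have hKC : 1 ≤ kpar n L W ^ (C + 3) := Nat.one_le_pow _ _ (by omega)
  obtain ⟨hp0, hKp0, _⟩ := prm_spec hKC
  have hp : (pp C n L W).Prime := hp0
  have hKp : kpar n L W ^ (C + 3) < pp C n L W := hKp0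
  have hST : S ≤ 2 ^ L := by
    rw [← hS]
    exact (Finset.card_filter_le _ _).trans (Finset.card_range _).le
  have hlL : l ≤ L + 2 := by
    have h : 2 ^ (l - 2) < 2 ^ (L + 1) := by rw [pow_succ]; omega
    have := (Nat.pow_lt_pow_iff_right (by norm_num : 1 < 2)).1 h
    omega
  have hWpos : 0 < W := by rw [hW]; positivity
  have hWT : 2 ^ (l - 2) * W = 2 * 2 ^ L := by
    rw [hW, ← pow_add, ← pow_succ']
    congr 1
    omega
  have hspec := tt_spec (p := pp C n L W) (l := l) hp.two_le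
  have ht0 : pp C n L W ^ tt (pp C n L W) l ≤ 2 ^ L := by
    by_cases ht : tt (pp C n L W) l = 0
    · rw [ht, pow_zero]
      exact Nat.one_le_two_pow
    · have h2 := hspec.1 ht
      have h3 : 1 ≤ pp C n L W ^ 2 := Nat.one_le_pow _ _ hp.pos
      have h4 : pp C n L W ^ tt (pp C n L W) l ≤
          pp C n L W ^ 2 * pp C n L W ^ tt (pp C n L W) l := Nat.le_mul_of_pos_left _ h3
      rw [mul_assoc] at h2
      omega
  have hMpos : 0 < pp C n L W ^ tt (pp C n L W) l := pow_pos hp.pos _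
  have htL : tt (pp C n L W) l ≤ L := by
    have h2 : 2 ^ tt (pp C n L W) l ≤ 2 ^ L := (Nat.pow_le_pow_left hp.two_le _).trans ht0
    exact (Nat.pow_le_pow_iff_right (by norm_num : 1 < 2)).1 h2
  have hbb : bb (pp C n L W) (tt (pp C n L W) l) L W =
      2 ^ L / pp C n L W ^ tt (pp C n L W) l + 1 := by
    unfold bb
    apply min_eq_left
    have h2 := Nat.mul_lt_mul_of_pos_right hspec.2 hWpos
    rw [hWT] at h2
    have h3 : 2 ^ L / pp C n L W ^ tt (pp C n L W) l ≤ W * pp C n L W ^ 3 := by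
      apply Nat.div_le_of_le_mul
      have e : 2 * pp C n L W ^ 3 * pp C n L W ^ tt (pp C n L W) l * W =
          2 * (pp C n L W ^ tt (pp C n L W) l * (W * pp C n L W ^ 3)) := by ring
      omega
    have e2 : 2 * W * pp C n L W ^ 3 = W * pp C n L W ^ 3 + W * pp C n L W ^ 3 := by ring
    omega
  have hB1 : 2 ^ L ≤ pp C n L W ^ tt (pp C n L W) l * bb (pp C n L W) (tt (pp C n L W) l) L W := by
    rw [hbb]
    exact (Nat.lt_mul_div_succ _ hMpos).le
  have hB2 : pp C n L W ^ tt (pp C n L W) l * bb (pp C n L W) (tt (pp C n L W) l) L W ≤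
      2 * 2 ^ L := by
    rw [hbb, mul_add, mul_one]
    have := Nat.mul_div_le (2 ^ L) (pp C n L W ^ tt (pp C n L W) l)
    omega
  have ha : ∀ i, cut b L i = true → i < 2 ^ L := by
    intro i hi
    unfold cut at hi
    rw [Bool.and_eq_true] at hi
    exact of_decide_eq_true hi.1
  have hcut : ∀ i < 2 ^ L, b i = true → cut b L i = true := by
    intro i hi hb
    unfold cut
    rw [hb, decide_eq_true hi]
    rfl
  have hcut2 : ∀ i < 2 ^ L, (cut b L i = true ↔ b i = true) := by
    intro i hi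
    refine ⟨fun h => ?_, hcut i hi⟩
    unfold cut at h
    rw [Bool.and_eq_true] at h
    exact h.2
  have hSa : ((Finset.range (2 ^ L)).filter fun i => cut b L i = true).card = S := by
    rw [← hS]
    congr 1
    apply Finset.filter_congr
    intro i hi
    exact hcut2 i (Finset.mem_range.1 hi)
  refine ⟨?_, ?_⟩
  · intro i hi hbi q hq hv
    have h2 := (place_spec (B := bb (pp C n L W) (tt (pp C n L W) l) L W) hp ha hB1
      (hcut i hi hbi)).2
    unfold dec1
    simp only
    rw [hq, hv]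
    unfold plc
    simp only
    rw [h2]
    rfl
  · have hsub : ((Finset.range (2 ^ L)).filter fun i => b i = true ∧
        2 ^ l ≤ plc b C n L W l i).card ≤
        ((Finset.range (2 ^ L)).filter fun i => cut b L i = true ∧
          4 * S ≤ place (cut b L) (pp C n L W) (tt (pp C n L W) l)
            (pp C n L W ^ tt (pp C n L W) l) (bb (pp C n L W) (tt (pp C n L W) l) L W) i).card := by
      apply Finset.card_le_card
      intro i hi
      rw [Finset.mem_filter] at hi ⊢
      obtain ⟨h2, h3, h4⟩ := hi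
      refine ⟨h2, hcut i (Finset.mem_range.1 h2) h3, le_trans ?_ h4⟩
      have e : 2 ^ l = 4 * 2 ^ (l - 2) := by
        obtain ⟨k, rfl⟩ : ∃ k, l = k + 2 := ⟨l - 2, by omega⟩
        rw [Nat.add_sub_cancel, pow_add]
        ring
      omega
    by_cases ht : tt (pp C n L W) l = 0
    · have h0 : ((Finset.range (2 ^ L)).filter fun i => cut b L i = true ∧
          4 * S ≤ place (cut b L) (pp C n L W) (tt (pp C n L W) l)
            (pp C n L W ^ tt (pp C n L W) l)
            (bb (pp C n L W) (tt (pp C n L W) l) L W) i).card = 0 := by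
        rw [Finset.card_eq_zero, Finset.filter_eq_empty_iff]
        intro i _ h2
        have hB1' := hB1
        rw [ht] at h2 hB1'
        rw [pow_zero, one_mul] at hB1'
        have h3 := few_zero (p := pp C n L W) hp ha hSa hB1' h2.1
        omega
      have h00 : ((Finset.range (2 ^ L)).filter fun i => b i = true ∧
          2 ^ l ≤ plc b C n L W l i).card = 0 := by omega
      rw [h00, zero_mul]
      exact Nat.zero_le _
    · have hM : tt (pp C n L W) l ≠ 0 →
          pp C n L W ^ 2 * pp C n L W ^ tt (pp C n L W) l ≤ S := by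
        intro _
        have h2 := hspec.1 ht
        rw [mul_assoc] at h2
        omega
      have hfew := few hp ha hSa hB1 hB2 hM
      generalize hE : ((Finset.range (2 ^ L)).filter fun i => cut b L i = true ∧
          4 * S ≤ place (cut b L) (pp C n L W) (tt (pp C n L W) l)
            (pp C n L W ^ tt (pp C n L W) l)
            (bb (pp C n L W) (tt (pp C n L W) l) L W) i).card = E at hsub hfew
      have hfew2 : E * pp C n L W ^ 2 ≤ 6 * tt (pp C n L W) l ^ 2 * 2 ^ L := hfew
      -- `T < S W`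
      have hTSW : 2 ^ L ≤ S * W := by
        have h2 := Nat.mul_lt_mul_of_pos_right hlS hWpos
        rw [hWT, mul_assoc] at h2
        omega
      have hK : 6 * tt (pp C n L W) l ^ 2 * W * kpar n L W ^ C ≤ pp C n L W ^ 2 := by
        have e1 : tt (pp C n L W) l ≤ kpar n L W := by unfold kpar; omega
        have e2 : W ≤ kpar n L W := by unfold kpar; omega
        have e3 : 6 ≤ kpar n L W ^ 2 := by nlinarith
        have e4 : tt (pp C n L W) l ^ 2 ≤ kpar n L W ^ 2 := Nat.pow_le_pow_left e1 2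
        calc 6 * tt (pp C n L W) l ^ 2 * W * kpar n L W ^ C
            ≤ kpar n L W ^ 2 * kpar n L W ^ 2 * kpar n L W * kpar n L W ^ C :=
              Nat.mul_le_mul_right _ (Nat.mul_le_mul (Nat.mul_le_mul e3 e4) e2)
          _ = kpar n L W ^ (C + 5) := by ring
          _ ≤ kpar n L W ^ ((C + 3) * 2) := Nat.pow_le_pow_right (by omega) (by omega)
          _ = (kpar n L W ^ (C + 3)) ^ 2 := by rw [pow_mul]
          _ ≤ pp C n L W ^ 2 := Nat.pow_le_pow_left hKp.le 2
      have hfin : E * kpar n L W ^ C * pp C n L W ^ 2 ≤ S * pp C n L W ^ 2 := by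
        calc E * kpar n L W ^ C * pp C n L W ^ 2
            = E * pp C n L W ^ 2 * kpar n L W ^ C := by ring
          _ ≤ 6 * tt (pp C n L W) l ^ 2 * 2 ^ L * kpar n L W ^ C :=
              Nat.mul_le_mul_right _ hfew2
          _ ≤ 6 * tt (pp C n L W) l ^ 2 * (S * W) * kpar n L W ^ C :=
              Nat.mul_le_mul_right _ (Nat.mul_le_mul_left _ hTSW)
          _ = S * (6 * tt (pp C n L W) l ^ 2 * W * kpar n L W ^ C) := by ring
          _ ≤ S * pp C n L W ^ 2 := Nat.mul_le_mul_left _ hK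
      have hEK : E * kpar n L W ^ C ≤ S :=
        Nat.le_of_mul_le_mul_right hfin (pow_pos hp.pos 2)
      exact (Nat.mul_le_mul_right _ hsub).trans hEK

end Pool.Agent.H83.DS
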