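import Pool.Agent.H83.DS.ArrP

/-!
# DS.DecP : the decoder and the place function are computable in polynomial time (about 80 lines, given `NumP`, `ArrP`)

`cut` costs `poly_two_pow`-like: `decide (i < 2 ^ L)`, `L` unary (`PolyTime.unatToNat`, `unat_bd`, `poly_pow` with base 2).
`t = tt p |q|` is bounded by `|q| ≤ size q`; `M = p^t` by `poly_pow`; `(arr ..)[v / M]?` by `PolyTime.getElem?`, `getD`.
-/

set_option autoImplicit false

namespace Pool.Agent.H83.DS

open Pool.Agent.H80.Poly

variable {α : Type} [BEnc α]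

private theorem decp_tt_le (p l : ℕ) : tt p l ≤ l := by
  unfold tt
  refine (List.length_filter_le _ _).trans ?_
  rw [List.length_range]

private theorem decp_cut {f : α × ℕ → Bool} (hf : PolyTime f) {L : α → UNat} (hL : PolyTime L) :
    PolyTime (fun w : α × ℕ => cut (fun i => f (w.1, i)) (L w.1).toNat w.2) := by
  have hw : PolyTime (fun w : α × ℕ => w) := PolyTime.id
  have h1 : PolyTime (fun a => 2 ^ (L a).toNat) :=
    Pool.Agent.H83.TK.poly_two_pow hL.unatToNat hL.unat_bd
  exact (PolyTime.lt hw.snd (h1.comp hw.fst)).and hf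

private theorem decp_ttb {p l : α → ℕ} (hb : ∃ β, PB β ∧ ∀ a, l a ≤ β (size a)) :
    ∃ β, PB β ∧ ∀ a, tt (p a) (l a) ≤ β (size a) := by
  obtain ⟨β, hβ, h⟩ := hb
  exact ⟨β, hβ, fun a => (decp_tt_le _ _).trans (h a)⟩

theorem poly_dec1 {f : α × ℕ → Bool} (hf : PolyTime f) (C : ℕ) {n L W : α → UNat} {q : α → List Bool} (hn : PolyTime n)
    (hL : PolyTime L) (hW : PolyTime W) (hq : PolyTime q) :
    PolyTime (fun a => dec1 (fun i => f (a, i)) C (n a).toNat (L a).toNat (W a).toNat (q a)) := by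
  have hqb : ∃ β, PB β ∧ ∀ a, (q a).length ≤ β (size a) := by
    obtain ⟨b, hb, h⟩ := hq.size_le
    exact ⟨b, hb, fun a => (length_le_size _).trans (h a)⟩
  have hp := (poly_pp C hn hL hW).1
  have hpb := (poly_pp C hn hL hW).2
  have ht : PolyTime (fun a => tt (pp C (n a).toNat (L a).toNat (W a).toNat) (q a).length) :=
    poly_tt hp (PolyTime.length hq) hqb
  have htb : ∃ β, PB β ∧ ∀ a, tt (pp C (n a).toNat (L a).toNat (W a).toNat) (q a).length ≤ β (size a) :=
    decp_ttb hqb
  have hM := poly_pow hp ht htb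
  have hB := poly_bb hp ht hpb htb hL hW
  have hv : PolyTime (fun a => Pool.Agent.H80.Poly.val (q a)) := PolyTime.val hq
  have ha := poly_arr (decp_cut hf hL) hp hpb ht htb hM hB.1 hB.2 (hv.mod hM)
  exact PolyTime.getD (PolyTime.getElem? ha (hv.div hM)) (PolyTime.const 0)

theorem poly_plc {f : α × ℕ → Bool} (hf : PolyTime f) (C : ℕ) {n L W : α → UNat} {l i : α → ℕ} (hn : PolyTime n)
    (hL : PolyTime L) (hW : PolyTime W) (hl : PolyTime l) (hlb : ∃ β, PB β ∧ ∀ a, l a ≤ β (size a)) (hi : PolyTime i) :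
    PolyTime (fun a => plc (fun i => f (a, i)) C (n a).toNat (L a).toNat (W a).toNat (l a) (i a)) := by
  have hp := (poly_pp C hn hL hW).1
  have hpb := (poly_pp C hn hL hW).2
  have ht : PolyTime (fun a => tt (pp C (n a).toNat (L a).toNat (W a).toNat) (l a)) := poly_tt hp hl hlb
  have htb : ∃ β, PB β ∧ ∀ a, tt (pp C (n a).toNat (L a).toNat (W a).toNat) (l a) ≤ β (size a) :=
    decp_ttb hlb
  have hM := poly_pow hp ht htb
  have hB := poly_bb hp ht hpb htb hL hW
  exact poly_place (decp_cut hf hL) hp hpb ht htb hM hB.1 hB.2 hi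

end Pool.Agent.H83.DS
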