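import Pool.Agent.H83.DS.Def
import Pool.Agent.H83.TK.Cnt

/-!
# DS.Rnd2 : random hash functions isolate the elements of a small set, with small error (after DS.Rnd of helper11)

`a` = random string of length `r`; the matrices `j ≤ L` are disjoint parts of it (matrix `j`, row `x < m ≤ L`: bits `(jL+x)L .. (jL+x)L + L - 1`).
For `z ≠ z'` of length `L`: if `z.drop m = z'.drop m` the hash values differ (the first `m` bits differ).  Otherwise each row satisfies
`ip row (z.drop m) ^^ ip row (z'.drop m) = z_x ^^ z'_x` for exactly half of the rows (flip one bit of the row where `z.drop m`, `z'.drop m` differ), the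
rows are independent: exactly the fraction `2^(-m)` of the matrices `j` has `hs z = hs z'`.  So for fixed `z ∈ E` the fraction of the matrices for which
some `z' ∈ E`, `z' ≠ z`, has the same hash value is at most `|E| 2^(-m) ≤ 1/2`, for all `L + 1` matrices at once `≤ 2^(-(L+1))` (independence), and
the union over `|E| ≤ 2^L` strings is at most `1/2`.  It may help to view `a` as a function of `(j, x, y)` and the rest
(`Fintype.card_pi`, `Fintype.card_fun`), compare TK/Hash.lean (`exists_row`, `exists_matrix`) and TK/Cnt.lean (`Cnt_fail`: product counting of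
lists of length `n * B`). -/

set_option autoImplicit false

namespace Pool.Agent.H83.DS

open Pool.Agent.H83.TK

private theorem rnx_foldl (l : List Bool) (a b : Bool) :
    l.foldl (fun a b => a ^^ b) (a ^^ b) = (a ^^ l.foldl (fun a b => a ^^ b) b) := by
  induction l generalizing a b with
  | nil => rfl
  | cons c l ih => rw [List.foldl_cons, List.foldl_cons, Bool.xor_assoc, ih]

private theorem rnx_ip_cons (a b : Bool) (r s : List Bool) :
    ip (a :: r) (b :: s) = ((a && b) ^^ ip r s) := by
  unfold ip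
  rw [List.zipWith_cons_cons, List.foldl_cons]
  have h := rnx_foldl (List.zipWith (fun a b => a && b) r s) (a && b) false
  rw [Bool.xor_false] at h
  rw [Bool.false_xor]
  exact h

private theorem rnx_union (N : ℕ) (P Q : Set (List Bool)) : cnt N (P ∪ Q) ≤ cnt N P + cnt N Q := by
  rw [cnt, cnt, cnt]
  refine le_trans (Set.ncard_le_ncard ?_ ((finite_len N P).union (finite_len N Q)))
    (Set.ncard_union_le _ _)
  rintro r ⟨h1, h2 | h2⟩
  · exact Or.inl ⟨h1, h2⟩
  · exact Or.inr ⟨h1, h2⟩

private theorem rnx_bunion (N : ℕ) (S : Finset (List Bool)) (P : List Bool → Set (List Bool)) :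
    cnt N {c | ∃ z ∈ S, c ∈ P z} ≤ ∑ z ∈ S, cnt N (P z) := by
  classical
  induction S using Finset.induction_on with
  | empty =>
    have h : {c : List Bool | ∃ z ∈ (∅ : Finset (List Bool)), c ∈ P z} = ∅ := by
      ext c; simp
    rw [h, cnt]
    simp
  | insert z S hz ih =>
    rw [Finset.sum_insert hz]
    have h : {c : List Bool | ∃ y ∈ insert z S, c ∈ P y} = P z ∪ {c | ∃ y ∈ S, c ∈ P y} := by
      ext c; simp
    rw [h]
    exact (rnx_union N _ _).trans (Nat.add_le_add_left ih _)

private theorem rnx_succ (N : ℕ) (P : Set (List Bool)) :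
    cnt (N + 1) P = cnt N {t | false :: t ∈ P} + cnt N {t | true :: t ∈ P} := by
  have hi : ∀ b : Bool, Function.Injective (fun t : List Bool => b :: t) := by
    intro b x y h
    simpa using h
  rw [cnt, cnt, cnt,
    ← Set.ncard_image_of_injective {r | r.length = N ∧ r ∈ {t | false :: t ∈ P}} (hi false),
    ← Set.ncard_image_of_injective {r | r.length = N ∧ r ∈ {t | true :: t ∈ P}} (hi true),
    ← Set.ncard_union_eq ?_ ((finite_len N _).image _) ((finite_len N _).image _)]
  · congr 1
    ext r
    constructor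
    · rintro ⟨h1, h2⟩
      cases r with
      | nil => simp at h1
      | cons b t =>
        rw [List.length_cons, Nat.add_right_cancel_iff] at h1
        cases b
        · exact Or.inl ⟨t, ⟨h1, h2⟩, rfl⟩
        · exact Or.inr ⟨t, ⟨h1, h2⟩, rfl⟩
    · rintro (⟨t, ⟨h1, h2⟩, rfl⟩ | ⟨t, ⟨h1, h2⟩, rfl⟩)
      · exact ⟨by rw [List.length_cons, h1], h2⟩
      · exact ⟨by rw [List.length_cons, h1], h2⟩
  · rw [Set.disjoint_left]
    rintro r ⟨t, _, rfl⟩ ⟨t', _, h⟩
    simp at h

/-- half of the rows satisfy one linear condition -/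
private theorem rnx_half : ∀ (k : ℕ) (L : ℕ) (s s' : List Bool) (b : Bool), k ≤ L → s.length = k →
    s'.length = k → s ≠ s' → 2 * cnt L {t | (ip t s ^^ ip t s') = b} = 2 ^ L := by
  intro k
  induction k with
  | zero =>
    intro L s s' b _ h h' hne
    rw [List.length_eq_zero_iff] at h h'
    exact absurd (h.trans h'.symm) hne
  | succ k ih =>
    intro L s s' b hL h h' hne
    obtain ⟨L, rfl⟩ : ∃ L', L = L' + 1 := ⟨L - 1, by omega⟩
    obtain ⟨a, t, rfl⟩ := List.exists_cons_of_length_eq_add_one h
    obtain ⟨a', t', rfl⟩ := List.exists_cons_of_length_eq_add_one h'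
    rw [List.length_cons, Nat.add_right_cancel_iff] at h h'
    rw [rnx_succ]
    have h1 : {u : List Bool | false :: u ∈ {t_1 | (ip t_1 (a :: t) ^^ ip t_1 (a' :: t')) = b}} =
        {u | (ip u t ^^ ip u t') = b} := by
      ext u
      simp [rnx_ip_cons]
    rw [h1]
    by_cases haa : a = a'
    · subst haa
      have htt : t ≠ t' := fun hh => hne (by rw [hh])
      have h2 : {u : List Bool | true :: u ∈ {t_1 | (ip t_1 (a :: t) ^^ ip t_1 (a :: t')) = b}} =
          {u | (ip u t ^^ ip u t') = b} := by
        ext u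
        simp only [Set.mem_ofPred_eq, rnx_ip_cons]
        cases a <;> cases ip u t <;> cases ip u t' <;> rfl
      rw [h2]
      have := ih L t t' b (by omega) h h' htt
      rw [pow_succ]
      omega
    · have h2 : {u : List Bool | true :: u ∈ {t_1 | (ip t_1 (a :: t) ^^ ip t_1 (a' :: t')) = b}} =
          {u | (ip u t ^^ ip u t') = b}ᶜ := by
        ext u
        simp only [Set.mem_ofPred_eq, rnx_ip_cons, Set.mem_compl_iff]
        cases a <;> cases a' <;> cases ip u t <;> cases ip u t' <;> cases b <;> simp_all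
      rw [h2, cnt_compl, pow_succ]
      ring

/-- independent blocks -/
private theorem rnx_prod (B R : ℕ) : ∀ (J : ℕ) (P : ℕ → Set (List Bool)),
    cnt (J * B + R) {r | ∀ i < J, (r.drop (i * B)).take B ∈ P i} =
      (∏ i ∈ Finset.range J, cnt B (P i)) * 2 ^ R := by
  intro J
  induction J with
  | zero =>
    intro P
    have h : {r : List Bool | ∀ i < 0, (r.drop (i * B)).take B ∈ P i} = Set.univ := by
      ext r; simp
    rw [h, Nat.zero_mul, Nat.zero_add, cnt_univ, Finset.range_zero, Finset.prod_empty, one_mul]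
  | succ J ih =>
    intro P
    have h : {r : List Bool | ∀ i < J + 1, (r.drop (i * B)).take B ∈ P i} =
        {r | r.take B ∈ P 0 ∧ r.drop B ∈
          {r : List Bool | ∀ i < J, (r.drop (i * B)).take B ∈ P (i + 1)}} := by
      ext r
      simp only [Set.mem_ofPred_eq]
      have hb : ∀ i, (r.drop ((i + 1) * B)).take B = ((r.drop B).drop (i * B)).take B := by
        intro i
        rw [List.drop_drop]
        congr 2
        ring
      constructor
      · intro h
        refine ⟨?_, fun i hi => ?_⟩
        · have := h 0 (by omega)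
          simpa using this
        · rw [← hb]; exact h (i + 1) (by omega)
      · rintro ⟨h0, h1⟩ i hi
        cases i with
        | zero => simpa using h0
        | succ i => rw [hb]; exact h1 i (by omega)
    rw [h, show (J + 1) * B + R = B + (J * B + R) by ring, cnt_split, ih,
      Finset.prod_range_succ' (fun i => cnt B (P i)) J]
    ring

private theorem rnx_rows {L m j : ℕ} (hm : m ≤ L) (a : List Bool) :
    rows L m j a = rows L m 0 ((a.drop (j * (L * L))).take (L * L)) := by
  unfold rows
  refine List.map_congr_left fun x hx => ?_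
  rw [List.mem_range] at hx
  rw [List.drop_take, List.take_take, List.drop_drop]
  have h1 : (x + 1) * L ≤ L * L := Nat.mul_le_mul_right _ (by omega)
  have h2 : (x + 1) * L = x * L + L := by ring
  congr 1
  · rw [Nat.zero_mul, Nat.zero_add]
    omega
  · congr 1
    ring

private theorem rnx_hs {L m j : ℕ} (hm : m ≤ L) (a z : List Bool) :
    hs L m j a z = hs L m 0 ((a.drop (j * (L * L))).take (L * L)) z := by
  unfold hs
  rw [rnx_rows hm]

private theorem rnx_get {L m : ℕ} (hm : m ≤ L) (c z : List Bool) (hz : z.length = L) (x : ℕ)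
    (hx : x < m) : (hs L m 0 c z)[x]? =
      some (z[x]'(by omega) ^^ ip ((c.drop (x * L)).take L) (z.drop m)) := by
  unfold hs hsh rows
  rw [List.getElem?_zipWith, List.getElem?_take_of_lt hx, List.getElem?_map, List.getElem?_map,
    List.getElem?_range hx, List.getElem?_eq_getElem (by omega)]
  simp

/-- two different strings collide with probability at most `2 ^ (-m)` -/
private theorem rnx_pair {L m : ℕ} (hm : m ≤ L) (z z' : List Bool) (hz : z.length = L)
    (hz' : z'.length = L) (hne : z' ≠ z) :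
    2 ^ m * cnt (L * L) {c | hs L m 0 c z' = hs L m 0 c z} ≤ 2 ^ (L * L) := by
  by_cases hd : z.drop m = z'.drop m
  · have h : {c : List Bool | hs L m 0 c z' = hs L m 0 c z} = ∅ := by
      ext c
      simp only [Set.mem_ofPred_eq, Set.mem_empty_iff_false, iff_false]
      intro hc
      apply hne
      rw [← List.take_append_drop m z, ← List.take_append_drop m z', hd]
      congr 1
      apply List.ext_getElem
      · rw [List.length_take, List.length_take, hz, hz']
      · intro x h1 h2
        rw [List.length_take] at h1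
        have hx : x < m := by omega
        have e1 := rnx_get hm c z hz x hx
        have e2 := rnx_get hm c z' hz' x hx
        rw [hc, e1, hd, Option.some.injEq] at e2
        rw [List.getElem_take, List.getElem_take]
        revert e2
        generalize ip ((c.drop (x * L)).take L) (z'.drop m) = w
        generalize z[x]'(by omega) = u
        generalize z'[x]'(by omega) = u'
        cases u <;> cases u' <;> cases w <;> simp
    rw [h, cnt]
    simp
  · obtain ⟨P, hP⟩ : ∃ P : ℕ → Set (List Bool), P = fun x => {t | (ip t (z.drop m) ^^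
        ip t (z'.drop m)) = (z.getD x false ^^ z'.getD x false)} := ⟨_, rfl⟩
    have h1 : cnt (L * L) {c | hs L m 0 c z' = hs L m 0 c z} ≤
        cnt (m * L + (L * L - m * L)) {r | ∀ i < m, (r.drop (i * L)).take L ∈ P i} := by
      rw [Nat.add_sub_cancel' (Nat.mul_le_mul_right L hm)]
      refine cnt_mono fun c hc _ => ?_
      intro x hx
      have e1 := rnx_get hm c z hz x hx
      have e2 := rnx_get hm c z' hz' x hx
      rw [Set.mem_ofPred_eq] at hc
      rw [hc, e1, Option.some.injEq] at e2
      rw [hP, Set.mem_ofPred_eq, List.getD_eq_getElem _ _ (by omega),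
        List.getD_eq_getElem _ _ (by omega)]
      revert e2
      generalize ip ((c.drop (x * L)).take L) (z'.drop m) = w'
      generalize ip ((c.drop (x * L)).take L) (z.drop m) = w
      generalize z[x]'(by omega) = u
      generalize z'[x]'(by omega) = u'
      cases u <;> cases u' <;> cases w <;> cases w' <;> simp
    rw [rnx_prod] at h1
    have h2 : ∀ i, 2 * cnt L (P i) = 2 ^ L := by
      intro i
      rw [hP]
      exact rnx_half (L - m) L (z.drop m) (z'.drop m) _ (by omega) (by simp [hz])
        (by simp [hz']) hd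
    have h3 : 2 ^ m * ∏ i ∈ Finset.range m, cnt L (P i) = 2 ^ (m * L) := by
      have e : (2 : ℕ) ^ m = ∏ i ∈ Finset.range m, 2 := by simp
      rw [e, ← Finset.prod_mul_distrib, Finset.prod_congr rfl (fun i _ => h2 i)]
      rw [Finset.prod_const, Finset.card_range, ← pow_mul, mul_comm]
    calc 2 ^ m * cnt (L * L) {c | hs L m 0 c z' = hs L m 0 c z}
        ≤ 2 ^ m * ((∏ i ∈ Finset.range m, cnt L (P i)) * 2 ^ (L * L - m * L)) :=
          Nat.mul_le_mul_left _ h1
      _ = 2 ^ (m * L) * 2 ^ (L * L - m * L) := by rw [← mul_assoc, h3]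
      _ = 2 ^ (L * L) := by
          rw [← pow_add, Nat.add_sub_cancel' (Nat.mul_le_mul_right L hm)]

theorem rnd2 {L m r J e : ℕ} (E : Finset (List Bool)) (hE : ∀ z ∈ E, z.length = L) (hm : m ≤ L)
    (hc : 2 * E.card ≤ 2 ^ m) (hJ : J = L + e) (hr : J * L * L ≤ r) :
    2 ^ e * {a : List Bool | a.length = r ∧
      ¬ ∀ z ∈ E, ∃ j < J, ∀ z' ∈ E, hs L m j a z' = hs L m j a z → z' = z}.ncard ≤ 2 ^ r := by
  classical
  obtain ⟨Bad, hBad⟩ : ∃ Bad : List Bool → Set (List Bool), Bad = fun z => {c | ∃ z' ∈ E.erase z,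
      c ∈ {c | hs L m 0 c z' = hs L m 0 c z}} := ⟨_, rfl⟩
  have h1 : ∀ z ∈ E, 2 * cnt (L * L) (Bad z) ≤ 2 ^ (L * L) := by
    intro z hz
    have h2 : cnt (L * L) (Bad z) ≤
        ∑ z' ∈ E.erase z, cnt (L * L) {c | hs L m 0 c z' = hs L m 0 c z} := by
      rw [hBad]
      exact rnx_bunion (L * L) (E.erase z) fun z' => {c | hs L m 0 c z' = hs L m 0 c z}
    have h3 : 2 ^ m * ∑ z' ∈ E.erase z, cnt (L * L) {c | hs L m 0 c z' = hs L m 0 c z} ≤
        E.card * 2 ^ (L * L) := by
      rw [Finset.mul_sum]
      calc ∑ z' ∈ E.erase z, 2 ^ m * cnt (L * L) {c | hs L m 0 c z' = hs L m 0 c z}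
          ≤ ∑ z' ∈ E.erase z, 2 ^ (L * L) := by
            refine Finset.sum_le_sum fun z' hz' => ?_
            rw [Finset.mem_erase] at hz'
            exact rnx_pair hm z z' (hE z hz) (hE z' hz'.2) hz'.1
        _ = (E.erase z).card * 2 ^ (L * L) := by rw [Finset.sum_const, smul_eq_mul]
        _ ≤ E.card * 2 ^ (L * L) := Nat.mul_le_mul_right _ (Finset.card_le_card
            (Finset.erase_subset _ _))
    have h4 : 2 ^ m * (2 * cnt (L * L) (Bad z)) ≤ 2 ^ m * 2 ^ (L * L) := by
      have h5 := Nat.mul_le_mul_left (2 ^ m) h2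
      have h6 := Nat.mul_le_mul_right (2 ^ (L * L)) hc
      nlinarith
    exact Nat.le_of_mul_le_mul_left h4 (by positivity)
  obtain ⟨R, hR⟩ : ∃ R, r = J * (L * L) + R := ⟨r - J * (L * L), by
    rw [← mul_assoc]; omega⟩
  have h2 : ∀ z ∈ E, 2 ^ J * cnt r {a | ∀ j < J,
      (a.drop (j * (L * L))).take (L * L) ∈ Bad z} ≤ 2 ^ r := by
    intro z hz
    rw [hR, rnx_prod (L * L) R J (fun _ => Bad z), Finset.prod_const, Finset.card_range,
      ← mul_assoc, ← mul_pow, pow_add 2 (J * (L * L)) R]
    refine Nat.mul_le_mul_right _ ?_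
    rw [mul_comm J (L * L), pow_mul]
    exact Nat.pow_le_pow_left (h1 z hz) _
  have h3 : 2 ^ e * cnt r {a | ∃ z ∈ E, a ∈ {a | ∀ j < J,
      (a.drop (j * (L * L))).take (L * L) ∈ Bad z}} ≤ 2 ^ r := by
    have h4 := rnx_bunion r E (fun z => {a | ∀ j < J,
      (a.drop (j * (L * L))).take (L * L) ∈ Bad z})
    have h5 : 2 ^ J * ∑ z ∈ E, cnt r {a | ∀ j < J,
        (a.drop (j * (L * L))).take (L * L) ∈ Bad z} ≤ 2 ^ L * 2 ^ r := by
      rw [Finset.mul_sum]
      calc ∑ z ∈ E, 2 ^ J * cnt r {a | ∀ j < J,
            (a.drop (j * (L * L))).take (L * L) ∈ Bad z}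
          ≤ ∑ z ∈ E, 2 ^ r := Finset.sum_le_sum h2
        _ = E.card * 2 ^ r := by rw [Finset.sum_const, smul_eq_mul]
        _ ≤ 2 ^ L * 2 ^ r := by
          refine Nat.mul_le_mul_right _ ?_
          have : 2 ^ m ≤ 2 ^ L := Nat.pow_le_pow_right (by norm_num) hm
          omega
    have h6 := (Nat.mul_le_mul_left (2 ^ J) h4).trans h5
    have h7 : 2 ^ L * (2 ^ e * cnt r {a | ∃ z ∈ E, a ∈ {a | ∀ j < J,
      (a.drop (j * (L * L))).take (L * L) ∈ Bad z}}) ≤ 2 ^ L * 2 ^ r := by
      rw [← mul_assoc, ← pow_add, ← hJ]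
      exact h6
    exact Nat.le_of_mul_le_mul_left h7 (by positivity)
  have h4 : {a : List Bool | a.length = r ∧
      ¬ ∀ z ∈ E, ∃ j < J, ∀ z' ∈ E, hs L m j a z' = hs L m j a z → z' = z}.ncard ≤
      cnt r {a | ∃ z ∈ E, a ∈ {a | ∀ j < J, (a.drop (j * (L * L))).take (L * L) ∈ Bad z}} := by
    refine Set.ncard_le_ncard ?_ (finite_len r _)
    rintro a ⟨har, ha⟩
    refine ⟨har, ?_⟩
    push Not at ha
    obtain ⟨z, hz, hj⟩ := ha
    refine ⟨z, hz, fun j hjL => ?_⟩
    obtain ⟨z', hz', h5, h6⟩ := hj j hjL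
    rw [hBad]
    refine ⟨z', Finset.mem_erase.2 ⟨h6, hz'⟩, ?_⟩
    rw [Set.mem_ofPred_eq, ← rnx_hs hm, ← rnx_hs hm]
    exact h5
  exact (Nat.mul_le_mul_left _ h4).trans h3

end Pool.Agent.H83.DS
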