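import Pool.Agent.H83.DS.Core
import Pool.Agent.H83.DS.DecP
import Pool.Agent.H83.DS.Bkt
import Pool.Agent.H83.DS.Rnd2

/-!
# DS.Dec3 : the codes of the exceptional members, with `J` random hash functions
-/

set_option autoImplicit false

namespace Pool.Agent.H83.DS

open Pool.Agent.H80.Poly

/-- the number of bits of `J` -/
def rho (J : ℕ) : ℕ := (Computability.encodeNat J).length

/-- the number of bits of a hash value, for codes of length `l` -/
def mm (J L l : ℕ) : ℕ := min (l - rho J) L

/-- exceptional members, as bit strings of length `L` -/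
def exL (b : ℕ → Bool) (C n L W l : ℕ) (z : List Bool) : Bool :=
  b (Pool.Agent.H80.Poly.val z) && decide (2 ^ l ≤ plc b C n L W l (Pool.Agent.H80.Poly.val z))

/-- the exceptional member with the code `q`: number of the hash function and hash value -/
def dec2 (b : ℕ → Bool) (C n L W J : ℕ) (a q : List Bool) : List Bool :=
  ((bkt ((2 * J + 1) * W) L (mm J L q.length) (Pool.Agent.H80.Poly.val (q.take (rho J))) a
    ((q.drop (rho J)).take (mm J L q.length))).filter (exL b C n L W q.length)).headD []

theorem lt_two_pow_rho (J : ℕ) : J < 2 ^ rho J := by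
  unfold rho
  rw [show (Computability.encodeNat J).length = J.size from size_nat J]
  exact Nat.lt_size_self J

theorem two_pow_rho_le (J : ℕ) : 2 ^ rho J ≤ 2 * J + 1 := by
  unfold rho
  rw [show (Computability.encodeNat J).length = J.size from size_nat J]
  rcases Nat.eq_zero_or_pos J with h | h
  · rw [h]
    norm_num
  · obtain ⟨k, hk⟩ : ∃ k, J.size = k + 1 := ⟨J.size - 1, by have := Nat.size_pos.2 h; omega⟩
    have h1 : 2 ^ k ≤ J := Nat.lt_size.1 (by omega)
    rw [hk, pow_succ]
    omega

section poly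

variable {α : Type} [BEnc α]

theorem poly_rho {J : α → ℕ} (hJ : PolyTime J) : PolyTime (fun c => rho (J c)) :=
  PolyTime.length (PolyTime.bits hJ)

theorem poly_mm {J L l : α → ℕ} (hJ : PolyTime J) (hL : PolyTime L) (hl : PolyTime l) :
    PolyTime (fun c => mm (J c) (L c) (l c)) :=
  (PolyTime.sub hl (poly_rho hJ)).min hL

theorem poly_dec2 {f : α × ℕ → Bool} (hf : PolyTime f) (C : ℕ) {n L W J : α → UNat} {a q : α → List Bool}
    (hn : PolyTime n) (hL : PolyTime L) (hW : PolyTime W) (hJ : PolyTime J) (ha : PolyTime a) (hq : PolyTime q) :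
    PolyTime (fun c => dec2 (fun i => f (c, i)) C (n c).toNat (L c).toNat (W c).toNat (J c).toNat (a c) (q c)) := by
  have hLn := PolyTime.unatToNat hL
  have hLb := PolyTime.unat_bd hL
  have hWn := PolyTime.unatToNat hW
  have hWb := PolyTime.unat_bd hW
  have hJn := PolyTime.unatToNat hJ
  have hJb := PolyTime.unat_bd hJ
  have hl : PolyTime (fun c => (q c).length) := PolyTime.length hq
  have hm : PolyTime (fun c => mm (J c).toNat (L c).toNat (q c).length) := poly_mm hJn hLn hl
  have hmb : ∃ β, PB β ∧ ∀ c, mm (J c).toNat (L c).toNat (q c).length ≤ β (size c) := by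
    obtain ⟨β, hβ, h⟩ := hLb
    exact ⟨β, hβ, fun c => (min_le_right _ _).trans (h c)⟩
  have hR : PolyTime (fun c => (2 * (J c).toNat + 1) * (W c).toNat) :=
    PolyTime.mul (PolyTime.succ (PolyTime.mul (PolyTime.const 2) hJn)) hWn
  have hRb : ∃ β, PB β ∧ ∀ c, (2 * (J c).toNat + 1) * (W c).toNat ≤ β (size c) := by
    obtain ⟨β, hβ, h⟩ := hJb
    obtain ⟨β', hβ', h'⟩ := hWb
    refine ⟨fun k => (2 * β k + 1) * β' k, (((PB.const 2).mul hβ).add (PB.const 1)).mul hβ', fun c => ?_⟩
    have h1 := h c
    exact Nat.mul_le_mul (by omega) (h' c)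
  have hbk := poly_bkt hR hRb hLn hLb hm hmb
    (PolyTime.val (PolyTime.take hq (poly_rho hJn))) ha (PolyTime.take (PolyTime.drop hq (poly_rho hJn)) hm)
  -- the filter
  have hz : PolyTime (fun d : α × List Bool => Pool.Agent.H80.Poly.val d.2) := PolyTime.val PolyTime.snd'
  have hfst : PolyTime (fun d : α × List Bool => d.1) := PolyTime.fst'
  have hlb : ∃ β, PB β ∧ ∀ d : α × List Bool, (q d.1).length ≤ β (size d) := by
    obtain ⟨β, ⟨b, hb⟩, h⟩ := hq.size_le
    refine ⟨fun k => b.eval k, PB.eval b, fun d => ?_⟩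
    refine (length_le_size _).trans ((h d.1).trans ((hb _).trans (eval_mono b ?_)))
    rw [size_prod]
    omega
  have hf' : PolyTime (fun x : (α × List Bool) × ℕ => f (x.1.1, x.2)) :=
    hf.comp ((PolyTime.fst'.comp PolyTime.fst').pair PolyTime.snd')
  have hplc := poly_plc hf' C (hn.comp hfst) (hL.comp hfst) (hW.comp hfst) (hl.comp hfst) hlb hz
  have h2l : PolyTime (fun d : α × List Bool => 2 ^ (q d.1).length) :=
    poly_pow (PolyTime.const 2) (hl.comp hfst) hlb
  have hex : PolyTime (fun d : α × List Bool => exL (fun i => f (d.1, i)) C (n d.1).toNat (L d.1).toNat (W d.1).toNat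
      (q d.1).length d.2) :=
    (hf.comp (hfst.pair hz)).and (PolyTime.le h2l hplc)
  exact PolyTime.headD [] (PolyTime.filter (g := fun d : α × List Bool =>
    exL (fun i => f (d.1, i)) C (n d.1).toNat (L d.1).toNat (W d.1).toNat (q d.1).length d.2) hbk hex)

end poly

/-- the arithmetic of the second part -/
theorem dec2_arith {e L W l S K J : ℕ} (he : e * K ≤ S) (hK : J + 1 ≤ K) (hK2 : 2 ≤ K) (hS : 4 * S ≤ 2 ^ l)
    (hSL : S ≤ 2 ^ L) (hW : W = 2 ^ (L + 3 - l)) :
    2 * e ≤ 2 ^ mm J L l ∧ (1 ≤ e → rho J + mm J L l ≤ l) ∧ 2 ^ (L - mm J L l) ≤ (2 * J + 1) * W := by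
  have h1 := two_pow_rho_le J
  have h2 : l < rho J → e = 0 := by
    intro h
    have h3 : 2 * 2 ^ l ≤ 2 ^ rho J := by
      rw [← pow_succ']
      exact Nat.pow_le_pow_right (by norm_num) h
    by_contra h0
    have h4 : K ≤ e * K := Nat.le_mul_of_pos_left K (Nat.pos_of_ne_zero h0)
    omega
  refine ⟨?_, ?_, ?_⟩
  · unfold mm
    rcases Nat.lt_or_ge l (rho J) with h | h
    · rw [h2 h, Nat.mul_zero]
      exact Nat.zero_le _
    · rcases Nat.le_total (l - rho J) L with h3 | h3
      · rw [min_eq_left h3]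
        have h4 : 2 ^ (l - rho J) * 2 ^ rho J = 2 ^ l := by
          rw [← pow_add]
          congr 1
          omega
        have h5 : 2 ^ (l - rho J) * 2 ^ rho J ≤ 2 ^ (l - rho J) * (2 * K) := Nat.mul_le_mul_left _ (by omega)
        have h6 : (2 * e) * (2 * K) ≤ 2 ^ (l - rho J) * (2 * K) := by
          calc (2 * e) * (2 * K) = 4 * (e * K) := by ring
            _ ≤ 4 * S := Nat.mul_le_mul_left 4 he
            _ ≤ 2 ^ l := hS
            _ = 2 ^ (l - rho J) * 2 ^ rho J := h4.symm
            _ ≤ _ := h5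
        exact Nat.le_of_mul_le_mul_right h6 (by omega)
      · rw [min_eq_right h3]
        refine le_trans ?_ (he.trans hSL)
        rw [Nat.mul_comm]
        exact Nat.mul_le_mul_left e hK2
  · intro h3
    have h4 : rho J ≤ l := by
      by_contra h5
      rw [not_le] at h5
      have := h2 h5
      omega
    have h5 : mm J L l ≤ l - rho J := min_le_left _ _
    omega
  · have h3 : L - mm J L l ≤ rho J + (L + 3 - l) := by
      unfold mm
      omega
    calc 2 ^ (L - mm J L l) ≤ 2 ^ (rho J + (L + 3 - l)) := Nat.pow_le_pow_right (by norm_num) h3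
      _ = 2 ^ rho J * W := by rw [pow_add, hW]
      _ ≤ (2 * J + 1) * W := Nat.mul_le_mul_right _ h1

/-- decoding of an isolated exceptional member -/
theorem dec2_spec {b : ℕ → Bool} {C n L W l j J : ℕ} {a z : List Bool} (hz : z.length = L)
    (hex : exL b C n L W l z = true) (hj : j < J) (hl : rho J + mm J L l ≤ l)
    (hR : 2 ^ (L - mm J L l) ≤ (2 * J + 1) * W)
    (hiso : ∀ z' : List Bool, z'.length = L → exL b C n L W l z' = true → hs L (mm J L l) j a z' = hs L (mm J L l) j a z →
      z' = z) :
    dec2 b C n L W J a (bitsOf (rho J) j ++ (hs L (mm J L l) j a z ++ List.replicate (l - rho J - mm J L l) false)) =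
      z := by
  have hm : mm J L l ≤ L := min_le_right _ _
  have hlen : (hs L (mm J L l) j a z).length = mm J L l := length_hs hz hm
  set q := bitsOf (rho J) j ++ (hs L (mm J L l) j a z ++ List.replicate (l - rho J - mm J L l) false) with hq
  have hql : q.length = l := by
    rw [hq, List.length_append, List.length_append, length_bitsOf, hlen, List.length_replicate]
    omega
  have h1 : q.take (rho J) = bitsOf (rho J) j := by
    rw [hq, List.take_append_of_le_length (by rw [length_bitsOf]), List.take_of_length_le (by rw [length_bitsOf])]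
  have h2 : q.drop (rho J) = hs L (mm J L l) j a z ++ List.replicate (l - rho J - mm J L l) false := by
    rw [hq]
    exact List.drop_left' (length_bitsOf _ _)
  have h4 : (q.drop (rho J)).take (mm J L l) = hs L (mm J L l) j a z := by
    rw [h2, List.take_append_of_le_length (by rw [hlen]), List.take_of_length_le (by rw [hlen])]
  have h5 : Pool.Agent.H80.Poly.val (bitsOf (rho J) j) = j := val_bitsOf (hj.trans (lt_two_pow_rho J))
  unfold dec2
  rw [hql, h1, h4, h5]
  have hmem : ∀ z' ∈ (bkt ((2 * J + 1) * W) L (mm J L l) j a (hs L (mm J L l) j a z)).filter (exL b C n L W l), z' = z := by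
    intro z' hz'
    rw [List.mem_filter, mem_bkt hm hR hlen] at hz'
    exact hiso z' hz'.1.1 hz'.2 hz'.1.2
  have hin : z ∈ (bkt ((2 * J + 1) * W) L (mm J L l) j a (hs L (mm J L l) j a z)).filter (exL b C n L W l) := by
    rw [List.mem_filter, mem_bkt hm hR hlen]
    exact ⟨⟨hz, rfl⟩, hex⟩
  cases hL : (bkt ((2 * J + 1) * W) L (mm J L l) j a (hs L (mm J L l) j a z)).filter (exL b C n L W l) with
  | nil =>
    rw [hL] at hin
    simp at hin
  | cons x xs =>
    rw [hL] at hmem
    exact hmem x List.mem_cons_self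

end Pool.Agent.H83.DS
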