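import Mathlib
import Pool.Agent.H83.TK.Hash
import Pool.Agent.H83.TK.Pk

/-!
# DS.Def : the coding scheme for the members of a set of indices (definitions only, no sorry)

A set `a` of indices `i < T` is given by its characteristic function. The indices are divided into `M = p ^ t` blocks
(`i` lies in block `i % M`), `p` prime; a block number is a vector over `ZMod p` (its digits in base `p`). The member
number `r` of block `c` is sent to the block `c + σ_(r mod p²)`, where `σ_j = (y, y x, ..., y x^(t-1))` for
`j = x p + y`. So block `b` receives the members `arr .. b`; the member `i` is number `pos` in the list of its block `b`,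
and `place .. i = pos * M + b`.
-/

set_option autoImplicit false

namespace Pool.Agent.H83.DS

/-- block `b` moved by `- σ`, `σ = (y, y x, .., y x^(t-1))`, digit by digit in base `p` -/
def sh (p t x y b : ℕ) : ℕ :=
  ((List.range t).map fun i => (b / p ^ i + (p - y * x ^ i % p)) % p * p ^ i).sum

/-- block `c` moved by `σ` -/
def shI (p t x y c : ℕ) : ℕ :=
  ((List.range t).map fun i => (c / p ^ i + y * x ^ i) % p * p ^ i).sum

/-- the members of block `c`, at most `B` candidates -/
def mem (a : ℕ → Bool) (M B c : ℕ) : List ℕ := ((List.range B).map fun m => c + M * m).filter a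

/-- the elements of `l` whose number is `j` modulo `D` -/
def sel (D j : ℕ) (l : List ℕ) : List ℕ := (l.zipIdx.filter fun z => z.2 % D == j).map Prod.fst

/-- the members that block `b` receives -/
def arr (a : ℕ → Bool) (p t M B b : ℕ) : List ℕ :=
  (List.range (p * p)).flatMap fun j => sel (p * p) j (mem a M B (sh p t (j / p) (j % p) b))

/-- the block that receives the member `i` -/
def dst (a : ℕ → Bool) (p t M B i : ℕ) : ℕ :=
  shI p t ((mem a M B (i % M)).idxOf i % (p * p) / p) ((mem a M B (i % M)).idxOf i % (p * p) % p) (i % M)

/-- the place of the member `i` -/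
def place (a : ℕ → Bool) (p t M B i : ℕ) : ℕ :=
  (arr a p t M B (dst a p t M B i)).idxOf i * M + dst a p t M B i

/-- the bit string of length `L` with value `i` (mod `2 ^ L`), least significant bit first -/
def bitsOf (L i : ℕ) : List Bool := (List.range L).map fun j => i / 2 ^ j % 2 == 1

/-- primality test by trial division -/
def isPr (m : ℕ) : Bool := decide (2 ≤ m) && (List.range m).all fun d => decide (d < 2) || !(m % d == 0)

/-- the least prime `> K` (`K ≥ 1`) -/
def prm (K : ℕ) : ℕ := ((List.range (2 * K + 1)).filter fun m => decide (K < m) && isPr m).headD 2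

/-- the parameter `n + L + W + 3` -/
def kpar (n L W : ℕ) : ℕ := n + L + W + 3

/-- the prime of the scheme -/
def pp (C n L W : ℕ) : ℕ := prm (kpar n L W ^ (C + 3))

/-- the dimension of the scheme: the number of `i < l` with `p ^ (i+1) ≤ 2 ^ (l - 2) / (2 * p ^ 2)` -/
def tt (p l : ℕ) : ℕ := ((List.range l).filter fun i => decide (p ^ (i + 1) ≤ 2 ^ (l - 2) / (2 * p ^ 2))).length

/-- the number of candidates of a block -/
def bb (p t L W : ℕ) : ℕ := min (2 ^ L / p ^ t + 1) (2 * W * p ^ 3 + 1)

/-- the predicate with the cut at `2 ^ L` -/
def cut (b : ℕ → Bool) (L i : ℕ) : Bool := decide (i < 2 ^ L) && b i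

/-- the index with the code `q` (codes of length `l = |q|`; `W` is the unary parameter) -/
def dec1 (b : ℕ → Bool) (C n L W : ℕ) (q : List Bool) : ℕ :=
  let p := pp C n L W
  let t := tt p q.length
  let M := p ^ t
  let v := Pool.Agent.H80.Poly.val q
  ((arr (cut b L) p t M (bb p t L W) (v % M))[v / M]?).getD 0

/-- the place of the index `i` for codes of length `l` -/
def plc (b : ℕ → Bool) (C n L W l i : ℕ) : ℕ :=
  let p := pp C n L W
  let t := tt p l
  place (cut b L) p t (p ^ t) (bb p t L W) i

/-- the rows of the random matrix number `j` (an `m × L` matrix, read from the random string `a`) -/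
def rows (L m j : ℕ) (a : List Bool) : List (List Bool) :=
  (List.range m).map fun x => (a.drop ((j * L + x) * L)).take L

/-- the hash value (`m` bits) of `z`: the first `m` bits of `z` plus the matrix `j` times the other bits -/
def hs (L m j : ℕ) (a z : List Bool) : List Bool :=
  List.zipWith (fun x y => x ^^ y) (z.take m) (Pool.Agent.H83.TK.hsh (rows L m j a) (z.drop m))

/-- the strings `z` of length `L` with hash value `v`, at most `R` of them -/
def bkt (R L m j : ℕ) (a v : List Bool) : List (List Bool) :=
  (List.range (min R (2 ^ (L - m)))).map fun w =>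
    List.zipWith (fun x y => x ^^ y) v (Pool.Agent.H83.TK.hsh (rows L m j a) (bitsOf (L - m) w)) ++ bitsOf (L - m) w

end Pool.Agent.H83.DS
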