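import Mathlib

/-!
# DS.Mix : the mixing inequality for the directions `(y, y x, ..., y x^(t-1))` (Mathlib only, about 150 lines)

Fourier transform on `G = Fin t → ZMod p`: `χ_a(v) = ψ(∑ a_i v_i)`, `ψ` the standard additive character of `ZMod p`
(`ZMod.stdAddChar`, primitive: `ZMod.isPrimitive_stdAddChar`; `AddChar.sum_mulShift : ∑ y, ψ (y * b) = if b = 0 then card else 0`).
Put `h = f - m`, `m = (∑ f) / p^t`, `g b = ∑ x, ∑ y, h (b - dir x y)`, so the left side is `∑ g b ^ 2`.
`hat g a = hat h a * S a`, `S a = ∑ x, ∑ y, ψ(y * P_a(x)) = p * #{x | P_a(x) = 0}`, `P_a = ∑ a_i X^i` a polynomial of degree `< t`,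
so `|S a| ≤ p t` for `a ≠ 0` (`Polynomial.card_roots'`), and `hat h 0 = 0`.
Parseval: `∑_a ‖hat h a‖^2 = p^t ∑_v h v ^ 2` (orthogonality `∑_a χ_a(v) = if v = 0 then p^t else 0`, by `Finset.prod_univ_sum` /
`Fintype.sum_pow`-like product formula over the coordinates). Finally `∑ (f - m)^2 ≤ ∑ f^2`.
-/

set_option autoImplicit false

namespace Pool.Agent.H83.DS

/-- the direction `(y, y x, ..., y x^(t-1))` -/
def dir (p t : ℕ) (x y : ZMod p) : Fin t → ZMod p := fun i => y * x ^ (i : ℕ)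

/-- the scalar product as a homomorphism -/
private def dotHom {p : ℕ} (t : ℕ) (v : Fin t → ZMod p) : (Fin t → ZMod p) →+ ZMod p :=
  AddMonoidHom.mk' (fun a => ∑ i, a i * v i) (fun a b => by
    simp only [Pi.add_apply, add_mul, Finset.sum_add_distrib])

private theorem orth {p : ℕ} [Fact p.Prime] (t : ℕ) (v : Fin t → ZMod p) :
    ∑ a : Fin t → ZMod p, (ZMod.stdAddChar (∑ i, a i * v i) : ℂ) =
      if v = 0 then ((p : ℂ) ^ t) else 0 := by
  classical
  split_ifs with hv
  · subst hv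
    have h1 : ∀ a : Fin t → ZMod p,
        (ZMod.stdAddChar (∑ i, a i * (0 : Fin t → ZMod p) i) : ℂ) = 1 := by
      intro a
      have : ∑ i, a i * (0 : Fin t → ZMod p) i = 0 := by simp
      rw [this, AddChar.map_zero_eq_one]
    rw [Finset.sum_congr rfl fun a _ => h1 a, Finset.sum_const, Finset.card_univ, Fintype.card_fun,
      ZMod.card, Fintype.card_fin]
    simp
  · obtain ⟨j, hj⟩ : ∃ j, v j ≠ 0 := by
      by_contra hcon
      push Not at hcon
      exact hv (funext hcon)
    have key := AddChar.sum_eq_zero_of_ne_one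
      (ψ := (ZMod.stdAddChar (N := p)).compAddMonoidHom (dotHom t v)) (by
        intro hcon
        have hprim := ZMod.isPrimitive_stdAddChar p hj
        apply hprim
        ext c
        have h1 := DFunLike.congr_fun hcon (Pi.single j c)
        have h2 : dotHom t v (Pi.single j c) = v j * c := by
          change ∑ i, (Pi.single j c : Fin t → ZMod p) i * v i = _
          rw [Finset.sum_eq_single j]
          · rw [Pi.single_eq_same, mul_comm]
          · intro b _ hb
            rw [Pi.single_eq_of_ne hb, zero_mul]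
          · intro hj'
            exact absurd (Finset.mem_univ j) hj'
        rw [AddChar.compAddMonoidHom_apply, h2] at h1
        rw [AddChar.mulShift_apply, h1]
        rfl)
    exact key

/-- the Fourier transform -/
private noncomputable def hatf {p : ℕ} [Fact p.Prime] (t : ℕ) (h : (Fin t → ZMod p) → ℝ)
    (a : Fin t → ZMod p) : ℂ :=
  ∑ v, (h v : ℂ) * ZMod.stdAddChar (∑ i, a i * v i)

private theorem parseval {p : ℕ} [Fact p.Prime] (t : ℕ) (h : (Fin t → ZMod p) → ℝ) :
    ∑ a, ‖hatf t h a‖ ^ 2 = (p : ℝ) ^ t * ∑ v, h v ^ 2 := by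
  classical
  have h1 : ∀ a, ((‖hatf t h a‖ : ℂ)) ^ 2 = ∑ v, ∑ w, (h v : ℂ) * (h w : ℂ) *
      ZMod.stdAddChar (∑ i, a i * (v - w) i) := by
    intro a
    rw [← Complex.mul_conj', hatf, map_sum, Finset.sum_mul_sum]
    refine Finset.sum_congr rfl fun v _ => Finset.sum_congr rfl fun w _ => ?_
    have e1 : ∑ i, a i * (v - w) i = ∑ i, a i * v i + -(∑ i, a i * w i) := by
      rw [← sub_eq_add_neg, ← Finset.sum_sub_distrib]
      refine Finset.sum_congr rfl fun i _ => ?_
      rw [Pi.sub_apply, mul_sub]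
    rw [e1, AddChar.map_add_eq_mul, AddChar.map_neg_eq_conj, map_mul, Complex.conj_ofReal]
    ring
  have h2 : ((∑ a, ‖hatf t h a‖ ^ 2 : ℝ) : ℂ) = (((p : ℝ) ^ t * ∑ v, h v ^ 2 : ℝ) : ℂ) := by
    push_cast
    rw [Finset.sum_congr rfl fun a _ => h1 a, Finset.sum_comm, Finset.mul_sum]
    refine Finset.sum_congr rfl fun v _ => ?_
    rw [Finset.sum_comm]
    have h3 : ∀ w, ∑ a : Fin t → ZMod p, (h v : ℂ) * (h w : ℂ) *
        ZMod.stdAddChar (∑ i, a i * (v - w) i) = if w = v then (p : ℂ) ^ t * (h v : ℂ) ^ 2 else 0 := by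
      intro w
      rw [← Finset.mul_sum, orth]
      by_cases hw : w = v
      · subst hw
        rw [if_pos (sub_self w), if_pos rfl]
        ring
      · rw [if_neg (fun hh => hw (sub_eq_zero.mp hh).symm), if_neg hw, mul_zero]
    rw [Finset.sum_congr rfl fun w _ => h3 w, Finset.sum_ite_eq' Finset.univ v]
    simp
  exact_mod_cast h2

private theorem roots_le {p : ℕ} [Fact p.Prime] (t : ℕ) (a : Fin t → ZMod p) (ha : a ≠ 0) :
    (Finset.univ.filter fun x : ZMod p => ∑ i : Fin t, a i * x ^ (i : ℕ) = 0).card ≤ t := by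
  classical
  obtain ⟨P, hP⟩ : ∃ P : Polynomial (ZMod p), P = ∑ i : Fin t, Polynomial.C (a i) *
    Polynomial.X ^ (i : ℕ) := ⟨_, rfl⟩
  have hdeg : P.degree < t := by
    rw [hP]
    exact Polynomial.degree_sum_fin_lt a
  have hco : ∀ j : Fin t, P.coeff j = a j := by
    intro j
    rw [hP, Polynomial.finsetSum_coeff, Finset.sum_eq_single j]
    · rw [Polynomial.coeff_C_mul, Polynomial.coeff_X_pow_self, mul_one]
    · intro b _ hb
      rw [Polynomial.coeff_C_mul, Polynomial.coeff_X_pow, if_neg, mul_zero]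
      intro hh
      exact hb (Fin.ext hh.symm)
    · intro hj
      exact absurd (Finset.mem_univ j) hj
  have hne : P ≠ 0 := by
    intro h0
    apply ha
    funext j
    rw [← hco j, h0, Polynomial.coeff_zero, Pi.zero_apply]
  have hnd : P.natDegree < t := (Polynomial.natDegree_lt_iff_degree_lt hne).mpr hdeg
  calc (Finset.univ.filter fun x : ZMod p => ∑ i : Fin t, a i * x ^ (i : ℕ) = 0).card
      ≤ P.roots.toFinset.card := by
        apply Finset.card_le_card
        intro x hx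
        rw [Finset.mem_filter] at hx
        rw [Multiset.mem_toFinset, Polynomial.mem_roots hne, Polynomial.IsRoot.def, hP,
          Polynomial.eval_finsetSum]
        rw [← hx.2]
        refine Finset.sum_congr rfl fun i _ => ?_
        rw [Polynomial.eval_mul, Polynomial.eval_C, Polynomial.eval_pow, Polynomial.eval_X]
    _ ≤ P.roots.card := Multiset.toFinset_card_le _
    _ ≤ P.natDegree := Polynomial.card_roots' _
    _ ≤ t := hnd.le

/-- the multiplier -/
private noncomputable def mulS {p : ℕ} [Fact p.Prime] (t : ℕ) (a : Fin t → ZMod p) : ℂ :=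
  ∑ x : ZMod p, ∑ y : ZMod p, ZMod.stdAddChar (∑ i, a i * dir p t x y i)

private theorem mulS_le {p : ℕ} [Fact p.Prime] (t : ℕ) (a : Fin t → ZMod p) (ha : a ≠ 0) :
    ‖mulS t a‖ ≤ p * t := by
  classical
  have h1 : ∀ x : ZMod p, ∑ y : ZMod p, (ZMod.stdAddChar (∑ i, a i * dir p t x y i) : ℂ) =
      if ∑ i : Fin t, a i * x ^ (i : ℕ) = 0 then (p : ℂ) else 0 := by
    intro x
    have h2 : ∀ y : ZMod p, ∑ i, a i * dir p t x y i = y * ∑ i : Fin t, a i * x ^ (i : ℕ) := by
      intro y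
      rw [Finset.mul_sum]
      refine Finset.sum_congr rfl fun i _ => ?_
      unfold dir
      ring
    rw [Finset.sum_congr rfl fun y _ => by rw [h2 y],
      AddChar.sum_mulShift _ (ZMod.isPrimitive_stdAddChar p), ZMod.card]
    split_ifs <;> simp
  unfold mulS
  rw [Finset.sum_congr rfl fun x _ => h1 x, ← Finset.sum_filter, Finset.sum_const, nsmul_eq_mul,
    norm_mul, Complex.norm_natCast, Complex.norm_natCast, mul_comm]
  have := roots_le t a ha
  have h3 : ((Finset.univ.filter fun x : ZMod p => ∑ i : Fin t, a i * x ^ (i : ℕ) = 0).card : ℝ) ≤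
      t := by exact_mod_cast this
  exact mul_le_mul_of_nonneg_left h3 (Nat.cast_nonneg _)

private theorem hatf_conv {p : ℕ} [Fact p.Prime] (t : ℕ) (h : (Fin t → ZMod p) → ℝ)
    (a : Fin t → ZMod p) :
    hatf t (fun b => ∑ x : ZMod p, ∑ y : ZMod p, h (b - dir p t x y)) a =
      mulS t a * hatf t h a := by
  have h1 : ∀ x y : ZMod p, ∑ b : Fin t → ZMod p, (h (b - dir p t x y) : ℂ) *
      ZMod.stdAddChar (∑ i, a i * b i) =
      ZMod.stdAddChar (∑ i, a i * dir p t x y i) * hatf t h a := by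
    intro x y
    rw [hatf, Finset.mul_sum]
    rw [← Equiv.sum_comp (Equiv.addRight (dir p t x y))]
    refine Finset.sum_congr rfl fun b _ => ?_
    have e1 : (Equiv.addRight (dir p t x y)) b - dir p t x y = b := by
      rw [Equiv.coe_addRight, add_sub_cancel_right]
    have e2 : ∑ i, a i * (Equiv.addRight (dir p t x y)) b i =
        ∑ i, a i * dir p t x y i + ∑ i, a i * b i := by
      rw [← Finset.sum_add_distrib]
      refine Finset.sum_congr rfl fun i _ => ?_
      rw [Equiv.coe_addRight]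
      change a i * (b i + dir p t x y i) = _
      ring
    rw [e1, e2, AddChar.map_add_eq_mul]
    ring
  unfold mulS
  rw [Finset.sum_mul]
  calc hatf t (fun b => ∑ x : ZMod p, ∑ y : ZMod p, h (b - dir p t x y)) a
      = ∑ b, ∑ x : ZMod p, ∑ y : ZMod p, (h (b - dir p t x y) : ℂ) *
          ZMod.stdAddChar (∑ i, a i * b i) := by
        unfold hatf
        refine Finset.sum_congr rfl fun b _ => ?_
        push_cast
        rw [Finset.sum_mul]
        refine Finset.sum_congr rfl fun x _ => ?_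
        rw [Finset.sum_mul]
    _ = ∑ x : ZMod p, ∑ y : ZMod p, ∑ b, (h (b - dir p t x y) : ℂ) *
          ZMod.stdAddChar (∑ i, a i * b i) := by
        rw [Finset.sum_comm]
        refine Finset.sum_congr rfl fun x _ => ?_
        rw [Finset.sum_comm]
    _ = _ := by
        refine Finset.sum_congr rfl fun x _ => ?_
        rw [Finset.sum_mul]
        refine Finset.sum_congr rfl fun y _ => ?_
        exact h1 x y

theorem mix {p : ℕ} [Fact p.Prime] (t : ℕ) (f : (Fin t → ZMod p) → ℝ) :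
    ∑ b, (∑ x : ZMod p, ∑ y : ZMod p, f (b - dir p t x y) - (∑ v, f v) / (p : ℝ) ^ t * (p : ℝ) ^ 2) ^ 2 ≤
      ((p : ℝ) * t) ^ 2 * ∑ b, f b ^ 2 := by
  have hp : (0 : ℝ) < p := by exact_mod_cast (Fact.out : p.Prime).pos
  have hpt : (0 : ℝ) < (p : ℝ) ^ t := pow_pos hp t
  obtain ⟨m, hm⟩ : ∃ m : ℝ, m = (∑ v, f v) / (p : ℝ) ^ t := ⟨_, rfl⟩
  obtain ⟨h, hh⟩ : ∃ h : (Fin t → ZMod p) → ℝ, h = fun v => f v - m := ⟨_, rfl⟩
  have hcard : ((Finset.univ : Finset (Fin t → ZMod p)).card : ℝ) = (p : ℝ) ^ t := by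
    rw [Finset.card_univ, Fintype.card_fun, ZMod.card, Fintype.card_fin]
    push_cast
    rfl
  have hsum : ∑ v, h v = 0 := by
    rw [hh]
    simp only [Finset.sum_sub_distrib, Finset.sum_const, nsmul_eq_mul]
    rw [hcard, hm]
    field_simp
    ring
  have hsq : ∑ v, h v ^ 2 ≤ ∑ v, f v ^ 2 := by
    have e : ∑ v, f v ^ 2 = ∑ v, h v ^ 2 + (2 * m * ∑ v, h v + (p : ℝ) ^ t * m ^ 2) := by
      rw [← hcard, ← nsmul_eq_mul, ← Finset.sum_const, Finset.mul_sum, ← Finset.sum_add_distrib,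
        ← Finset.sum_add_distrib]
      refine Finset.sum_congr rfl fun v _ => ?_
      rw [hh]
      ring
    rw [e, hsum]
    nlinarith [mul_nonneg hpt.le (sq_nonneg m)]
  obtain ⟨g, hg⟩ : ∃ g : (Fin t → ZMod p) → ℝ, g = fun b => ∑ x : ZMod p, ∑ y : ZMod p,
    h (b - dir p t x y) := ⟨_, rfl⟩
  have hgf : ∀ b, ∑ x : ZMod p, ∑ y : ZMod p, f (b - dir p t x y) -
      (∑ v, f v) / (p : ℝ) ^ t * (p : ℝ) ^ 2 = g b := by
    intro b
    rw [hg, hh, ← hm]
    simp only [Finset.sum_sub_distrib, Finset.sum_const, nsmul_eq_mul, Finset.card_univ, ZMod.card]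
    ring
  rw [Finset.sum_congr rfl fun b _ => by rw [hgf b]]
  have hz : hatf t h 0 = 0 := by
    unfold hatf
    have e : ∀ v : Fin t → ZMod p, (h v : ℂ) *
        ZMod.stdAddChar (∑ i, (0 : Fin t → ZMod p) i * v i) = (h v : ℂ) := by
      intro v
      have : ∑ i, (0 : Fin t → ZMod p) i * v i = 0 := by simp
      rw [this, AddChar.map_zero_eq_one, mul_one]
    rw [Finset.sum_congr rfl fun v _ => e v, ← Complex.ofReal_sum, hsum, Complex.ofReal_zero]
  have hle : ∑ a, ‖hatf t g a‖ ^ 2 ≤ ((p : ℝ) * t) ^ 2 * ∑ a, ‖hatf t h a‖ ^ 2 := by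
    rw [Finset.mul_sum]
    refine Finset.sum_le_sum fun a _ => ?_
    rw [hg, hatf_conv, norm_mul, mul_pow]
    by_cases ha : a = 0
    · subst ha
      rw [hz]
      simp
    · exact mul_le_mul_of_nonneg_right (pow_le_pow_left₀ (norm_nonneg _) (mulS_le t a ha) 2)
        (sq_nonneg _)
  rw [parseval, parseval] at hle
  have h3 : ∑ b, g b ^ 2 ≤ ((p : ℝ) * t) ^ 2 * ∑ b, h b ^ 2 := by
    have : (p : ℝ) ^ t * ∑ b, g b ^ 2 ≤ (p : ℝ) ^ t * (((p : ℝ) * t) ^ 2 * ∑ b, h b ^ 2) := by
      linarith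
    exact le_of_mul_le_mul_left this hpt
  exact h3.trans (mul_le_mul_of_nonneg_left hsq (sq_nonneg _))

end Pool.Agent.H83.DS
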