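import Pool.Agent.H83.DS.Def
import Pool.Agent.H83.DS.Mix

/-!
# DS.Sh : the shifts of block numbers are the translations of `(ZMod p)^t` (about 150 lines)

`vec p t b` = the digits of `b` in base `p` as elements of `ZMod p`.  A sum `∑_(i<t) d_i p^i` with digits `d_i < p` is `< p^t`,
its digit `i` is `d_i` (`(∑ ..) / p^i % p = d_i`; induct on `t`, or `Nat.ofDigits`).  Digit of `sh`:
`(b / p^i + (p - y x^i % p)) % p`, cast to `ZMod p` this is `b / p^i - y x^i` (`ZMod.natCast_mod`, `Nat.cast_sub`, `ZMod.natCast_self`).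
Bijection: `vec` is injective on `b < p^t` (digits determine `b`) and both sides have `p^t` elements.
-/

set_option autoImplicit false

namespace Pool.Agent.H83.DS

/-- the digits of `b` in base `p` -/
def vec (p t b : ℕ) : Fin t → ZMod p := fun i => ((b / p ^ (i : ℕ) : ℕ) : ZMod p)

private theorem shaux_lt (p : ℕ) (d : ℕ → ℕ) (hd : ∀ i, d i < p) (t : ℕ) :
    ((List.range t).map fun i => d i * p ^ i).sum < p ^ t := by
  induction t with
  | zero => simp
  | succ t ih =>
    rw [List.range_succ, List.map_append, List.sum_append, List.map_cons, List.map_nil,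
      List.sum_cons, List.sum_nil, Nat.add_zero, pow_succ]
    have h1 : (d t + 1) * p ^ t ≤ p ^ t * p := by
      rw [Nat.mul_comm (p ^ t) p]
      exact Nat.mul_le_mul_right _ (hd t)
    have h2 : (d t + 1) * p ^ t = d t * p ^ t + p ^ t := by ring
    omega

private theorem shaux_digit (p : ℕ) (d : ℕ → ℕ) (hd : ∀ i, d i < p) (t : ℕ) : ∀ i < t,
    ((List.range t).map fun i => d i * p ^ i).sum / p ^ i % p = d i := by
  have hp : 0 < p := lt_of_le_of_lt (Nat.zero_le _) (hd 0)
  induction t with
  | zero =>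
    intro i hi
    omega
  | succ t ih =>
    intro i hi
    rw [List.range_succ, List.map_append, List.sum_append, List.map_cons, List.map_nil,
      List.sum_cons, List.sum_nil, Nat.add_zero]
    rcases Nat.lt_or_ge i t with h | h
    · have e : d t * p ^ t = p ^ i * (p * (d t * p ^ (t - i - 1))) := by
        have : p ^ t = p ^ i * (p * p ^ (t - i - 1)) := by
          rw [← pow_succ', ← pow_add]
          congr 1
          omega
        rw [this]
        ring
      rw [e, Nat.add_mul_div_left _ _ (pow_pos hp i), Nat.add_mul_mod_self_left]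
      exact ih i h
    · have e : i = t := by omega
      subst e
      rw [Nat.add_mul_div_right _ _ (pow_pos hp i), Nat.div_eq_of_lt (shaux_lt p d hd i),
        Nat.zero_add, Nat.mod_eq_of_lt (hd i)]

private theorem shaux_vec (p : ℕ) (d : ℕ → ℕ) (hd : ∀ i, d i < p) (t : ℕ) (i : Fin t) :
    vec p t (((List.range t).map fun i => d i * p ^ i).sum) i = (d i : ZMod p) := by
  have h := shaux_digit p d hd t i i.isLt
  unfold vec
  rw [← ZMod.natCast_mod, h]

theorem sh_lt {p : ℕ} (hp : 0 < p) (t x y b : ℕ) : sh p t x y b < p ^ t :=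
  shaux_lt p (fun i => (b / p ^ i + (p - y * x ^ i % p)) % p) (fun _ => Nat.mod_lt _ hp) t

theorem shI_lt {p : ℕ} (hp : 0 < p) (t x y c : ℕ) : shI p t x y c < p ^ t :=
  shaux_lt p (fun i => (c / p ^ i + y * x ^ i) % p) (fun _ => Nat.mod_lt _ hp) t

theorem vec_sh {p : ℕ} (hp : 0 < p) (t x y b : ℕ) :
    vec p t (sh p t x y b) = vec p t b - dir p t (x : ZMod p) (y : ZMod p) := by
  funext i
  have h := shaux_vec p (fun i => (b / p ^ i + (p - y * x ^ i % p)) % p)
    (fun _ => Nat.mod_lt _ hp) t i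
  unfold sh
  rw [h, ZMod.natCast_mod, Nat.cast_add, Nat.cast_sub (Nat.mod_lt _ hp).le, ZMod.natCast_self,
    ZMod.natCast_mod, Pi.sub_apply]
  simp only [vec, dir]
  push_cast
  ring

theorem vec_shI {p : ℕ} (hp : 0 < p) (t x y c : ℕ) :
    vec p t (shI p t x y c) = vec p t c + dir p t (x : ZMod p) (y : ZMod p) := by
  funext i
  have h := shaux_vec p (fun i => (c / p ^ i + y * x ^ i) % p) (fun _ => Nat.mod_lt _ hp) t i
  unfold shI
  rw [h, ZMod.natCast_mod, Nat.cast_add, Pi.add_apply]
  simp only [vec, dir]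
  push_cast
  ring

private theorem shaux_inj {p : ℕ} (t : ℕ) : ∀ b c : ℕ, b < p ^ t → c < p ^ t →
    (∀ i < t, b / p ^ i % p = c / p ^ i % p) → b = c := by
  induction t with
  | zero =>
    intro b c hb hc _
    rw [pow_zero] at hb hc
    omega
  | succ t ih =>
    intro b c hb hc h
    rw [pow_succ] at hb hc
    have h0 := h 0 (Nat.succ_pos t)
    rw [pow_zero, Nat.div_one, Nat.div_one] at h0
    have h1 : b / p = c / p := by
      refine ih _ _ (Nat.div_lt_of_lt_mul (by rwa [Nat.mul_comm]))
        (Nat.div_lt_of_lt_mul (by rwa [Nat.mul_comm])) (fun i hi => ?_)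
      have := h (i + 1) (by omega)
      rwa [pow_succ', ← Nat.div_div_eq_div_mul, ← Nat.div_div_eq_div_mul] at this
    rw [← Nat.div_add_mod b p, ← Nat.div_add_mod c p, h0, h1]

theorem vec_inj {p t b c : ℕ} (hp : 0 < p) (hb : b < p ^ t) (hc : c < p ^ t) (h : vec p t b = vec p t c) : b = c := by
  refine shaux_inj t b c hb hc (fun i hi => ?_)
  have := congrFun h ⟨i, hi⟩
  simp only [vec] at this
  exact (ZMod.natCast_eq_natCast_iff' _ _ _).1 this

theorem sh_shI {p : ℕ} (hp : 0 < p) {t c : ℕ} (x y : ℕ) (hc : c < p ^ t) : sh p t x y (shI p t x y c) = c := by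
  refine vec_inj hp (sh_lt hp _ _ _ _) hc ?_
  rw [vec_sh hp, vec_shI hp, add_sub_cancel_right]

private theorem shaux_image {p : ℕ} [NeZero p] (t : ℕ) :
    (Finset.range (p ^ t)).image (vec p t) = Finset.univ := by
  have hp : 0 < p := Nat.pos_of_ne_zero (NeZero.ne p)
  apply Finset.eq_univ_of_card
  rw [Finset.card_image_of_injOn, Finset.card_range, Fintype.card_fun, ZMod.card, Fintype.card_fin]
  intro b hb c hc h
  rw [Finset.mem_coe, Finset.mem_range] at hb hc
  exact vec_inj hp hb hc h

theorem sum_vec {p : ℕ} [NeZero p] (t : ℕ) (F : (Fin t → ZMod p) → ℝ) :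
    ∑ b ∈ Finset.range (p ^ t), F (vec p t b) = ∑ v, F v := by
  have hp : 0 < p := Nat.pos_of_ne_zero (NeZero.ne p)
  rw [← shaux_image t, Finset.sum_image]
  intro b hb c hc h
  rw [Finset.mem_coe, Finset.mem_range] at hb hc
  exact vec_inj hp hb hc h

theorem exists_vec {p : ℕ} [NeZero p] (t : ℕ) (v : Fin t → ZMod p) : ∃ b < p ^ t, vec p t b = v := by
  have h : v ∈ (Finset.range (p ^ t)).image (vec p t) := by
    rw [shaux_image t]
    exact Finset.mem_univ v
  obtain ⟨b, hb, hv⟩ := Finset.mem_image.1 h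
  exact ⟨b, Finset.mem_range.1 hb, hv⟩

end Pool.Agent.H83.DS
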