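import Pool.Agent.H83.DS.Sel
import Pool.Agent.H83.DS.Sh

/-!
# DS.Few : every member has a place, and few members have a large place (about 250 lines, given `Sel`, `Sh`, `Mix`)

`place_spec`: `c = i % M`, `r` the position of `i` in `mem c` (`mem_self`), `j = r % p²`; `dst = shI .. c < M`, `sh .. dst = c`
(`sh_shI`), so `i ∈ arr dst` (`mem_sel`, `List.mem_flatMap`, `List.mem_range`), `idxOf` gives its position
(`List.getElem?_idxOf`), and `(pos * M + b) % M = b`, `/ M = pos`.

`few`: `load c = (mem a M B c).length`, `∑ load = S` (`sum_length_mem`), `μ = S / M`, `D = p²`,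
`g b = ∑_(j<D) load (sh p t (j/p) (j%p) b) = ∑_x ∑_y f (vec b - dir x y)`, `f v = load (the b with vec b = v)` (reindex `j = x p + y`).
`(arr b).length ≤ g b / D + D` (`length_sel_le`).
Case `t = 0`: `M = 1`, all shifts are `0`, `(arr 0).length = load 0 = S` (`sum_length_sel`), so `place < S`: no exception.
Case `t ≥ 1`: `D M ≤ S`, i.e. `D ≤ μ`.  If `4 S ≤ place i` then `4 S ≤ pos M + b < (pos + 1) M ≤ (arr b).length M`: so
`(arr b).length > 3 μ` (b overloaded), hence `z = g b / D - μ > μ` and `(arr b).length ≤ z + 2 μ ≤ 3 z ≤ 3 z² / μ`.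
The exceptional `i` all lie in the lists `arr b` of overloaded `b`: their number is at most
`∑_(b overloaded) (arr b).length ≤ 3/μ ∑ z² ≤ 3/(μ D²) (p t)² ∑ load² ≤ 3/(μ D²) (p t)² B S = 3 t² B M / p² ≤ 6 t² T / p²`
(`mix`, `sum_vec`, `load ≤ B`). -/

set_option autoImplicit false

namespace Pool.Agent.H83.DS

private theorem few_mem_arr {a : ℕ → Bool} {p t B T i : ℕ} (hp : p.Prime) (ha : ∀ i, a i = true → i < T)
    (hB : T ≤ p ^ t * B) (hi : a i = true) :
    dst a p t (p ^ t) B i < p ^ t ∧ i ∈ arr a p t (p ^ t) B (dst a p t (p ^ t) B i) := by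
  have hM : 0 < p ^ t := pow_pos hp.pos t
  have hD : 0 < p * p := Nat.mul_pos hp.pos hp.pos
  refine ⟨shI_lt hp.pos _ _ _ _, ?_⟩
  have h1 : i ∈ mem a (p ^ t) B (i % p ^ t) := mem_self hM ha hB hi
  have h2 : (mem a (p ^ t) B (i % p ^ t))[(mem a (p ^ t) B (i % p ^ t)).idxOf i]? = some i :=
    List.getElem?_idxOf h1
  have h3 := mem_sel (D := p * p) h2
  unfold arr
  rw [List.mem_flatMap]
  refine ⟨(mem a (p ^ t) B (i % p ^ t)).idxOf i % (p * p), List.mem_range.2 (Nat.mod_lt _ hD), ?_⟩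
  have h4 : sh p t ((mem a (p ^ t) B (i % p ^ t)).idxOf i % (p * p) / p)
      ((mem a (p ^ t) B (i % p ^ t)).idxOf i % (p * p) % p) (dst a p t (p ^ t) B i) = i % p ^ t := by
    unfold dst
    exact sh_shI hp.pos _ _ (Nat.mod_lt _ hM)
  rw [h4]
  exact h3

theorem place_spec {a : ℕ → Bool} {p t B T i : ℕ} (hp : p.Prime) (ha : ∀ i, a i = true → i < T)
    (hB : T ≤ p ^ t * B) (hi : a i = true) :
    dst a p t (p ^ t) B i < p ^ t ∧
    (arr a p t (p ^ t) B (place a p t (p ^ t) B i % p ^ t))[place a p t (p ^ t) B i / p ^ t]? = some i := by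
  have hM : 0 < p ^ t := pow_pos hp.pos t
  obtain ⟨h1, h2⟩ := few_mem_arr hp ha hB hi
  refine ⟨h1, ?_⟩
  have h3 : place a p t (p ^ t) B i % p ^ t = dst a p t (p ^ t) B i := by
    unfold place
    rw [Nat.add_comm, Nat.add_mul_mod_self_right, Nat.mod_eq_of_lt h1]
  have h4 : place a p t (p ^ t) B i / p ^ t =
      (arr a p t (p ^ t) B (dst a p t (p ^ t) B i)).idxOf i := by
    unfold place
    rw [Nat.add_comm, Nat.add_mul_div_right _ _ hM, Nat.div_eq_of_lt h1, Nat.zero_add]
  rw [h3, h4]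
  exact List.getElem?_idxOf h2

/-- `place` is smaller than `(arr b).length * M` for the block `b` of `i`. -/
private theorem few_place_lt {a : ℕ → Bool} {p t B T i : ℕ} (hp : p.Prime)
    (ha : ∀ i, a i = true → i < T) (hB : T ≤ p ^ t * B) (hi : a i = true) :
    place a p t (p ^ t) B i <
      (arr a p t (p ^ t) B (dst a p t (p ^ t) B i)).length * p ^ t := by
  obtain ⟨h1, h2⟩ := few_mem_arr hp ha hB hi
  have h3 := List.idxOf_lt_length_of_mem h2
  unfold place
  calc _ < (arr a p t (p ^ t) B (dst a p t (p ^ t) B i)).idxOf i * p ^ t + p ^ t := by omega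
    _ = ((arr a p t (p ^ t) B (dst a p t (p ^ t) B i)).idxOf i + 1) * p ^ t := by ring
    _ ≤ _ := Nat.mul_le_mul_right _ h3

private theorem few_arr_len (a : ℕ → Bool) {p : ℕ} (hp : p.Prime) (t M B b : ℕ) :
    ((arr a p t M B b).length : ℝ) ≤
      (∑ j ∈ Finset.range (p * p), ((mem a M B (sh p t (j / p) (j % p) b)).length : ℝ)) / (p : ℝ) ^ 2
        + (p : ℝ) ^ 2 := by
  have hD : 0 < p * p := Nat.mul_pos hp.pos hp.pos
  have h1 : (arr a p t M B b).length =
      ∑ j ∈ Finset.range (p * p), (sel (p * p) j (mem a M B (sh p t (j / p) (j % p) b))).length := by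
    unfold arr
    rw [List.length_flatMap]
    rfl
  rw [h1]
  push_cast
  have h2 : ∀ j ∈ Finset.range (p * p),
      ((sel (p * p) j (mem a M B (sh p t (j / p) (j % p) b))).length : ℝ) ≤
        ((mem a M B (sh p t (j / p) (j % p) b)).length : ℝ) / (p : ℝ) ^ 2 + 1 := by
    intro j _
    have h3 := length_sel_le hD j (mem a M B (sh p t (j / p) (j % p) b))
    have h4 : ((sel (p * p) j (mem a M B (sh p t (j / p) (j % p) b))).length : ℝ) ≤
        (((mem a M B (sh p t (j / p) (j % p) b)).length / (p * p) : ℕ) : ℝ) + 1 := by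
      exact_mod_cast h3
    have h5 : (((mem a M B (sh p t (j / p) (j % p) b)).length / (p * p) : ℕ) : ℝ) ≤
        ((mem a M B (sh p t (j / p) (j % p) b)).length : ℝ) / (p : ℝ) ^ 2 := by
      have h6 := Nat.cast_div_le (α := ℝ) (m := (mem a M B (sh p t (j / p) (j % p) b)).length)
        (n := p * p)
      have h7 : ((p * p : ℕ) : ℝ) = (p : ℝ) ^ 2 := by push_cast; ring
      rwa [h7] at h6
    linarith
  refine (Finset.sum_le_sum h2).trans ?_
  rw [Finset.sum_add_distrib, ← Finset.sum_div]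
  have h8 : ∑ _j ∈ Finset.range (p * p), (1 : ℝ) = (p : ℝ) ^ 2 := by
    rw [Finset.sum_const, Finset.card_range, nsmul_eq_mul, mul_one]
    push_cast
    ring
  rw [h8]

/-- `j = x p + y` -/
private theorem few_reindex {p : ℕ} [Fact p.Prime] (F : ZMod p → ZMod p → ℝ) :
    ∑ j ∈ Finset.range (p * p), F ((j / p : ℕ) : ZMod p) ((j % p : ℕ) : ZMod p) =
      ∑ x : ZMod p, ∑ y : ZMod p, F x y := by
  have hp : 0 < p := (Fact.out : p.Prime).pos
  rw [← Finset.sum_product' (f := F)]
  refine Finset.sum_nbij' (fun j => (((j / p : ℕ) : ZMod p), ((j % p : ℕ) : ZMod p)))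
    (fun z => z.1.val * p + z.2.val) ?_ ?_ ?_ ?_ ?_
  · intro j _
    simp
  · intro z _
    rw [Finset.mem_range]
    have h1 := ZMod.val_lt z.1
    have h2 := ZMod.val_lt z.2
    calc z.1.val * p + z.2.val < z.1.val * p + p := by omega
      _ = (z.1.val + 1) * p := by ring
      _ ≤ p * p := Nat.mul_le_mul_right _ h1
  · intro j hj
    rw [Finset.mem_range] at hj
    have h1 : j / p < p := Nat.div_lt_of_lt_mul hj
    have h2 : j % p < p := Nat.mod_lt _ hp
    show ((j / p : ℕ) : ZMod p).val * p + ((j % p : ℕ) : ZMod p).val = j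
    rw [ZMod.val_natCast_of_lt h1, ZMod.val_natCast_of_lt h2]
    have := Nat.div_add_mod j p
    rw [Nat.mul_comm] at this
    exact this
  · intro z _
    have h1 := ZMod.val_lt z.1
    have h2 := ZMod.val_lt z.2
    have h3 : (z.1.val * p + z.2.val) / p = z.1.val := by
      rw [Nat.add_comm, Nat.add_mul_div_right _ _ hp, Nat.div_eq_of_lt h2, Nat.zero_add]
    have h4 : (z.1.val * p + z.2.val) % p = z.2.val := by
      rw [Nat.add_comm, Nat.add_mul_mod_self_right, Nat.mod_eq_of_lt h2]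
    show ((((z.1.val * p + z.2.val) / p : ℕ) : ZMod p), (((z.1.val * p + z.2.val) % p : ℕ) : ZMod p)) = z
    rw [h3, h4, ZMod.natCast_zmod_val, ZMod.natCast_zmod_val]
  · intro j _
    rfl

/-- the second moment of the loads -/
private theorem few_second {a : ℕ → Bool} {p t B T S : ℕ} (hp : p.Prime)
    (ha : ∀ i, a i = true → i < T)
    (hS : ((Finset.range T).filter fun i => a i = true).card = S) (hB : T ≤ p ^ t * B) :
    ∑ b ∈ Finset.range (p ^ t),
      (∑ j ∈ Finset.range (p * p), ((mem a (p ^ t) B (sh p t (j / p) (j % p) b)).length : ℝ)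
        - (S : ℝ) / (p : ℝ) ^ t * (p : ℝ) ^ 2) ^ 2 ≤ ((p : ℝ) * t) ^ 2 * ((B : ℝ) * S) := by
  have : Fact p.Prime := ⟨hp⟩
  have hM : 0 < p ^ t := pow_pos hp.pos t
  choose inv hinv1 hinv2 using fun v : Fin t → ZMod p => exists_vec (p := p) t v
  set f : (Fin t → ZMod p) → ℝ := fun v => ((mem a (p ^ t) B (inv v)).length : ℝ) with hf
  have hfv : ∀ c < p ^ t, f (vec p t c) = ((mem a (p ^ t) B c).length : ℝ) := by
    intro c hc
    have : inv (vec p t c) = c := vec_inj hp.pos (hinv1 _) hc (hinv2 _)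
    rw [hf]
    simp only
    rw [this]
  have hsum : ∑ v, f v = (S : ℝ) := by
    rw [← sum_vec t f, Finset.sum_congr rfl (fun c hc => hfv c (Finset.mem_range.1 hc)), ← hS,
      ← sum_length_mem hM ha hB]
    push_cast
    rfl
  have hg : ∀ b, ∑ j ∈ Finset.range (p * p), ((mem a (p ^ t) B (sh p t (j / p) (j % p) b)).length : ℝ)
      = ∑ x : ZMod p, ∑ y : ZMod p, f (vec p t b - dir p t x y) := by
    intro b
    rw [← few_reindex (fun x y => f (vec p t b - dir p t x y))]
    refine Finset.sum_congr rfl fun j _ => ?_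
    rw [← vec_sh hp.pos, hfv _ (sh_lt hp.pos _ _ _ _)]
  have h1 := mix t f
  rw [hsum, ← sum_vec t (fun v => (∑ x : ZMod p, ∑ y : ZMod p, f (v - dir p t x y)
    - (S : ℝ) / (p : ℝ) ^ t * (p : ℝ) ^ 2) ^ 2)] at h1
  simp only [hg]
  refine h1.trans (mul_le_mul_of_nonneg_left ?_ (by positivity))
  have h2 : ∀ v, f v ^ 2 ≤ (B : ℝ) * f v := by
    intro v
    have h3 : f v ≤ B := by
      show ((mem a (p ^ t) B (inv v)).length : ℝ) ≤ B
      exact_mod_cast length_mem_le a (p ^ t) B (inv v)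
    have h4 : 0 ≤ f v := by
      show (0 : ℝ) ≤ ((mem a (p ^ t) B (inv v)).length : ℝ)
      positivity
    nlinarith
  calc ∑ v, f v ^ 2 ≤ ∑ v, (B : ℝ) * f v := Finset.sum_le_sum fun v _ => h2 v
    _ = (B : ℝ) * S := by rw [← Finset.mul_sum, hsum]

/-- for `t = 0` there is no exception -/
theorem few_zero {a : ℕ → Bool} {p B T S i : ℕ} (hp : p.Prime) (ha : ∀ i, a i = true → i < T)
    (hS : ((Finset.range T).filter fun i => a i = true).card = S) (hB : T ≤ B) (hi : a i = true) :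
    place a p 0 (p ^ 0) B i < 4 * S := by
  have hB' : T ≤ p ^ 0 * B := by simpa using hB
  have hD : 0 < p * p := Nat.mul_pos hp.pos hp.pos
  have h1 := few_place_lt (t := 0) hp ha hB' hi
  have h2 : ∀ b, (arr a p 0 (p ^ 0) B b).length = S := by
    intro b
    unfold arr
    rw [List.length_flatMap]
    have h3 : ∀ x y, sh p 0 x y b = 0 := by
      intro x y
      simp [sh]
    simp only [h3]
    rw [sum_length_sel hD]
    have h4 := sum_length_mem (M := p ^ 0) (B := B) (by simp) ha hB'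
    rw [hS] at h4
    simpa using h4
  rw [h2, pow_zero, Nat.mul_one] at h1
  rw [pow_zero]
  omega

theorem few {a : ℕ → Bool} {p t B T S : ℕ} (hp : p.Prime) (ha : ∀ i, a i = true → i < T)
    (hS : ((Finset.range T).filter fun i => a i = true).card = S) (hB : T ≤ p ^ t * B) (hB2 : p ^ t * B ≤ 2 * T)
    (hM : t ≠ 0 → p ^ 2 * p ^ t ≤ S) :
    ((Finset.range T).filter fun i => a i = true ∧ 4 * S ≤ place a p t (p ^ t) B i).card * p ^ 2 ≤ 6 * t ^ 2 * T := by
  by_cases ht : t = 0
  · subst ht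
    have h0 : ((Finset.range T).filter fun i => a i = true ∧ 4 * S ≤ place a p 0 (p ^ 0) B i) = ∅ := by
      rw [Finset.filter_eq_empty_iff]
      rintro i _ ⟨h1, h2⟩
      have h3 := few_zero hp ha hS (by simpa using hB) h1
      omega
    rw [h0]
    simp
  have hMp : 0 < p ^ t := pow_pos hp.pos t
  have hS1 : p ^ 2 * p ^ t ≤ S := hM ht
  classical
  set len : ℕ → ℕ := fun b => (arr a p t (p ^ t) B b).length with hlen
  set O : Finset ℕ := (Finset.range (p ^ t)).filter fun b => 4 * S < len b * p ^ t with hO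
  set E : Finset ℕ := (Finset.range T).filter fun i => a i = true ∧ 4 * S ≤ place a p t (p ^ t) B i
    with hE
  -- the exceptions lie in the overloaded blocks
  have hcard : E.card ≤ ∑ b ∈ O, len b := by
    have hsub : E ⊆ O.biUnion fun b => (arr a p t (p ^ t) B b).toFinset := by
      intro i hi
      rw [hE, Finset.mem_filter] at hi
      obtain ⟨h1, h2⟩ := few_mem_arr hp ha hB hi.2.1
      have h3 := few_place_lt hp ha hB hi.2.1
      rw [Finset.mem_biUnion]
      refine ⟨dst a p t (p ^ t) B i, ?_, List.mem_toFinset.2 h2⟩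
      rw [hO, Finset.mem_filter, Finset.mem_range]
      exact ⟨h1, lt_of_le_of_lt hi.2.2 h3⟩
    refine (Finset.card_le_card hsub).trans (Finset.card_biUnion_le.trans ?_)
    exact Finset.sum_le_sum fun b _ => List.toFinset_card_le _
  -- real numbers
  set P : ℝ := (p : ℝ) ^ 2 with hP
  set M : ℝ := (p : ℝ) ^ t with hMdef
  have hPpos : 0 < P := by
    have : (0 : ℝ) < p := by exact_mod_cast hp.pos
    positivity
  have hMpos : 0 < M := by
    have : (0 : ℝ) < p := by exact_mod_cast hp.pos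
    positivity
  set μ : ℝ := (S : ℝ) / M with hμ
  have hPM : P * M ≤ S := by
    rw [hP, hMdef]
    exact_mod_cast hS1
  have hPμ : P ≤ μ := by
    rw [hμ, le_div_iff₀ hMpos]
    exact hPM
  have hμpos : 0 < μ := lt_of_lt_of_le hPpos hPμ
  set g : ℕ → ℝ := fun b =>
    ∑ j ∈ Finset.range (p * p), ((mem a (p ^ t) B (sh p t (j / p) (j % p) b)).length : ℝ) with hg
  have hpoint : ∀ b ∈ O, (len b : ℝ) ≤ (g b - μ * P) ^ 2 / (μ * P ^ 2) := by
    intro b hb
    rw [hO, Finset.mem_filter] at hb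
    have h1 : (4 : ℝ) * S < len b * M := by
      rw [hMdef]
      exact_mod_cast hb.2
    have h2 : 4 * μ < len b := by
      rw [hμ, ← mul_div_assoc, div_lt_iff₀ hMpos]
      exact h1
    have h3 : (len b : ℝ) ≤ g b / P + P := few_arr_len a hp t (p ^ t) B b
    set z : ℝ := g b / P - μ with hz
    have h4 : (len b : ℝ) ≤ z + 2 * μ := by
      rw [hz]
      linarith
    have h5 : 2 * μ < z := by linarith
    have h6 : (len b : ℝ) ≤ z ^ 2 / μ := by
      rw [le_div_iff₀ hμpos]
      nlinarith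
    refine h6.trans (le_of_eq ?_)
    have h7 : g b - μ * P = z * P := by
      rw [hz, sub_mul, div_mul_cancel₀ _ hPpos.ne']
    rw [h7]
    field_simp
  have hsecond := few_second hp ha hS hB
  have htotal : (∑ b ∈ O, (len b : ℝ)) ≤ ((p : ℝ) * t) ^ 2 * ((B : ℝ) * S) / (μ * P ^ 2) := by
    calc (∑ b ∈ O, (len b : ℝ)) ≤ ∑ b ∈ O, (g b - μ * P) ^ 2 / (μ * P ^ 2) :=
          Finset.sum_le_sum hpoint
      _ = (∑ b ∈ O, (g b - μ * P) ^ 2) / (μ * P ^ 2) := by rw [Finset.sum_div]
      _ ≤ (∑ b ∈ Finset.range (p ^ t), (g b - μ * P) ^ 2) / (μ * P ^ 2) := by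
          refine div_le_div_of_nonneg_right ?_ (by positivity)
          exact Finset.sum_le_sum_of_subset_of_nonneg (Finset.filter_subset _ _)
            fun b _ _ => sq_nonneg _
      _ ≤ _ := div_le_div_of_nonneg_right hsecond (by positivity)
  have hSpos : (0 : ℝ) < S := lt_of_lt_of_le (by positivity) hPM
  have hfinal : ((p : ℝ) * t) ^ 2 * ((B : ℝ) * S) / (μ * P ^ 2) = (t : ℝ) ^ 2 * (M * B) / P := by
    have e1 : μ * M = S := by
      rw [hμ, div_mul_cancel₀ _ hMpos.ne']
    have e2 : ((p : ℝ) * t) ^ 2 = P * (t : ℝ) ^ 2 := by rw [hP]; ring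
    rw [e2, ← e1]
    field_simp
  have hMB : M * B ≤ 2 * T := by
    rw [hMdef]
    exact_mod_cast hB2
  have hreal : (E.card : ℝ) * P ≤ 6 * (t : ℝ) ^ 2 * T := by
    have h1 : (E.card : ℝ) ≤ ∑ b ∈ O, (len b : ℝ) := by exact_mod_cast hcard
    have h2 : (E.card : ℝ) ≤ (t : ℝ) ^ 2 * (M * B) / P := by
      rw [← hfinal]
      exact h1.trans htotal
    have h3 : (E.card : ℝ) * P ≤ (t : ℝ) ^ 2 * (M * B) := by
      rwa [le_div_iff₀ hPpos] at h2
    have h4 : (t : ℝ) ^ 2 * (M * B) ≤ (t : ℝ) ^ 2 * (2 * T) :=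
      mul_le_mul_of_nonneg_left hMB (by positivity)
    have h5 : (0 : ℝ) ≤ (t : ℝ) ^ 2 * T := by positivity
    linarith
  have : ((E.card * p ^ 2 : ℕ) : ℝ) ≤ ((6 * t ^ 2 * T : ℕ) : ℝ) := by
    push_cast
    exact hreal
  exact_mod_cast this

end Pool.Agent.H83.DS
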