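import Pool.Agent.H83.DS.Gen
import Pool.Agent.H83.TK.Univ

/-!
# DS.Fin : the two results
-/

set_option autoImplicit false

namespace Pool.Agent.H83.DS

open Pool.Agent.H80.Poly Pool.Agent.H72.NP Pool.Agent.H83.TK Turing Computability

theorem poly_fs {α : Type} [BEnc α] {y : α → List Bool} (hy : PolyTime y) : PolyTime (fun a => fs (y a)) :=
  PolyTime.take (PolyTime.drop hy (PolyTime.succ (poly_lead hy))) (poly_lead hy)

theorem poly_sn {α : Type} [BEnc α] {y : α → List Bool} (hy : PolyTime y) : PolyTime (fun a => sn (y a)) :=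
  PolyTime.drop hy (PolyTime.succ (PolyTime.mul (PolyTime.const 2) (poly_lead hy)))

theorem kle_mono {U : BM} {t t' : ℕ → ℕ} {s y : List Bool} {r : ℝ} (h : KLE U t s y r)
    (ht : t s.length ≤ t' s.length) : KLE U t' s y r := by
  obtain ⟨q, hq, ho⟩ := h
  exact ⟨q, hq, ho.mono ht⟩

/-- the relation of a set -/
theorem inP_rel {A : Set (List Bool)} (hA : InP (id : List Bool → List Bool) A) :
    InP (pairEnc (id : List Bool → List Bool)) {z : List Bool × List Bool | z.2 ∈ A} := by
  obtain ⟨b, hb, hAb⟩ := inP_iff.1 hA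
  exact inP_pair_iff.2 ⟨fun z => b z.2, hb.comp PolyTime.snd', fun x => hAb x.2⟩

theorem fib_rel (A : Set (List Bool)) (x : List Bool) (n : ℕ) :
    fib {z : List Bool × List Bool | z.2 ∈ A} x n = slice A n := by
  ext t
  exact and_comm

/-- the identity as a name function -/
theorem u0_poly : PolyTimeFun (unEnc (pairEnc (id : List Bool → List Bool))) (id : List Bool → List Bool)
    (fun z : (List Bool × List Bool) × ℕ => z.1.1) := by
  refine polyTimeFun_id_of (D := fun l : List ((Bool ⊕ Bool) ⊕ Bool) => lefts (lefts l))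
    (poly_lefts (poly_lefts PolyTime.id)) fun z => ?_
  show z.1.1 = lefts (lefts (pairEnc (pairEnc id) (z.1, List.replicate z.2 true)))
  rw [lefts_pairEnc, lefts_pairEnc]
  rfl

theorem L0_poly : PolyTimeFun (unEnc (id : List Bool → List Bool)) (id : List Bool → List Bool)
    (fun z : List Bool × ℕ => List.replicate ((fun _ n => n : List Bool → ℕ → ℕ) z.1 z.2) true) := by
  refine polyTimeFun_id_of (D := fun l : List (Bool ⊕ Bool) => rights l) (poly_rights PolyTime.id) fun z => ?_
  show List.replicate z.2 true = rights (pairEnc id (z.1, List.replicate z.2 true))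
  rw [rights_pairEnc]

theorem names0 {A : Set (List Bool)} {n : ℕ} : ∀ s ∈ slice A n, ∃! q : List Bool, q.length = n ∧ q = s :=
  fun s hs => ⟨s, ⟨hs.2, rfl⟩, fun _ h => h.2⟩

private theorem ncard_slice_le (A : Set (List Bool)) (n : ℕ) : (slice A n).ncard ≤ 2 ^ n := by
  have h1 : {s : List Bool | s.length = n} =
      List.Vector.toList '' (Set.univ : Set (List.Vector Bool n)) := by
    ext s
    constructor
    · intro hs
      exact ⟨⟨s, hs⟩, Set.mem_univ _, rfl⟩
    · rintro ⟨v, _, rfl⟩
      exact v.toList_length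
  have h2 : ({s : List Bool | s.length = n}).ncard = 2 ^ n := by
    rw [h1, Set.ncard_image_of_injective _ List.Vector.toList_injective, Set.ncard_univ,
      Nat.card_eq_fintype_card, card_vector]
    simp
  rw [← h2]
  exact Set.ncard_le_ncard (fun s hs => hs.2) (List.finite_length_eq Bool n)

/-- the density hypothesis -/
theorem dens {n N S d : ℕ} (hN : N = 2 ^ n / S) (h : 2 ^ n ≤ d * S) : N ≤ d := by
  rcases Nat.eq_zero_or_pos S with h0 | h0
  · rw [hN, h0, Nat.div_zero]
    exact Nat.zero_le _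
  · rw [hN]
    exact Nat.div_le_of_le_mul (by rw [Nat.mul_comm]; exact h)

theorem most {U : BM} (hU : Universal U) :
    (∀ A : Set (List Bool), InP id A → ∀ C : ℕ, ∃ (c : ℕ) (p : Polynomial ℕ), ∀ n : ℕ,
      {s | s ∈ slice A n ∧ ¬ KLE U (fun _ => p.eval (n + 2 ^ n / (slice A n).ncard)) s (encodeNat n)
          (Real.logb 2 (slice A n).ncard + c)}.ncard * (n + 2 ^ n / (slice A n).ncard) ^ C ≤ (slice A n).ncard) ∧
    (∀ A : Set (List Bool), InP id A → ∀ (d : Polynomial ℕ) (C : ℕ), ∃ (c : ℕ) (p : Polynomial ℕ), ∀ n : ℕ,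
      2 ^ n ≤ d.eval n * (slice A n).ncard →
      {s | s ∈ slice A n ∧ ¬ KLE U (fun k => p.eval k) s (encodeNat n)
          (Real.logb 2 (slice A n).ncard + c)}.ncard * (n + 1) ^ C ≤ (slice A n).ncard) ∧
    (∀ B : Set (List Bool × List Bool), InP (pairEnc id) B →
      ∀ (u : (List Bool × List Bool) × ℕ → List Bool) (L : List Bool → ℕ → ℕ),
      PolyTimeFun (unEnc (pairEnc id)) id u →
      PolyTimeFun (unEnc id) id (fun z : List Bool × ℕ => List.replicate (L z.1 z.2) true) →
      ∀ C : ℕ, ∃ (c : ℕ) (p : Polynomial ℕ), ∀ (x : List Bool) (n : ℕ),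
        (∀ s ∈ fib B x n, ∃! q : List Bool, q.length = L x n ∧ u ((q, x), n) = s) →
        {s | s ∈ fib B x n ∧ ¬ KLE U (fun _ => p.eval (x.length + n + 2 ^ L x n / (fib B x n).ncard)) s
            (pk (encodeNat n) x) (Real.logb 2 (fib B x n).ncard + c)}.ncard *
          (x.length + n + 2 ^ L x n / (fib B x n).ncard) ^ C ≤ (fib B x n).ncard) := by
  have h1 : ∀ A : Set (List Bool), InP id A → ∀ C : ℕ, ∃ (c : ℕ) (p : Polynomial ℕ), ∀ n : ℕ,
      {s | s ∈ slice A n ∧ ¬ KLE U (fun _ => p.eval (n + 2 ^ n / (slice A n).ncard)) s (encodeNat n)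
          (Real.logb 2 (slice A n).ncard + c)}.ncard * (n + 2 ^ n / (slice A n).ncard) ^ C ≤ (slice A n).ncard := by
    intro A hA C
    obtain ⟨c, p, h⟩ := gen1 hU (inP_rel hA) u0_poly (L := fun _ n => n) L0_poly (nb := fun y => y)
      (xx := fun _ => []) PolyTime.id (PolyTime.const []) C
    refine ⟨c, p.comp (2 * Polynomial.X), fun n => ?_⟩
    have h2 := h (encodeNat n) n rfl (by rw [fib_rel]; exact names0)
    simp only [fib_rel, List.length_nil, Nat.zero_add] at h2
    refine (Nat.mul_le_mul_right _ (Set.ncard_le_ncard ?_ ((slice_finite A n).subset fun s hs => hs.1))).trans h2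
    rintro s ⟨hs, hK⟩
    refine ⟨hs, fun hK' => hK (kle_mono hK' ?_)⟩
    rw [Polynomial.eval_comp]
    refine eval_mono p ?_
    simp only [Polynomial.eval_mul, Polynomial.eval_X, Polynomial.eval_ofNat]
    have := encodeNat_le n
    generalize 2 ^ n / (slice A n).ncard = N
    omega
  refine ⟨h1, ?_, ?_⟩
  · intro A hA d C
    obtain ⟨c, p, h⟩ := h1 A hA C
    refine ⟨c, p.comp (Polynomial.X + d), fun n hd => ?_⟩
    rcases Nat.eq_zero_or_pos (slice A n).ncard with h0 | h0
    · have h2 : {s | s ∈ slice A n ∧ ¬ KLE U (fun k => (p.comp (Polynomial.X + d)).eval k) s (encodeNat n)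
          (Real.logb 2 (slice A n).ncard + c)}.ncard ≤ (slice A n).ncard :=
        Set.ncard_le_ncard (fun s hs => hs.1) (slice_finite A n)
      have h3 := Nat.le_zero.1 (h2.trans h0.le)
      rw [h3, Nat.zero_mul]
      exact Nat.zero_le _
    · refine le_trans (Nat.mul_le_mul (Set.ncard_le_ncard ?_ ((slice_finite A n).subset fun s hs => hs.1))
        (Nat.pow_le_pow_left ?_ C)) (h n)
      · rintro s ⟨hs, hK⟩
        refine ⟨hs, fun hK' => hK (kle_mono hK' ?_)⟩
        rw [Polynomial.eval_comp]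
        refine eval_mono p ?_
        rw [Polynomial.eval_add, Polynomial.eval_X, hs.2]
        exact Nat.add_le_add_left (dens rfl hd) n
      · refine Nat.add_le_add_left ?_ n
        rw [Nat.one_le_div_iff h0]
        exact ncard_slice_le A n
  · intro B hB u L hu hL C
    obtain ⟨c, p, h⟩ := gen1 hU hB hu hL (nb := fun y => fs y) (xx := fun y => sn y) (poly_fs PolyTime.id)
      (poly_sn PolyTime.id) C
    refine ⟨c, p.comp (3 * Polynomial.X + 1), fun x n hx => ?_⟩
    have h2 := h (pk (encodeNat n) x) n (fs_pk _ _) (by rw [sn_pk]; exact hx)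
    simp only [sn_pk] at h2
    refine (Nat.mul_le_mul_right _ (Set.ncard_le_ncard ?_ ((fib_finite B x n).subset fun s hs => hs.1))).trans h2
    rintro s ⟨hs, hK⟩
    refine ⟨hs, fun hK' => hK (kle_mono hK' ?_)⟩
    rw [Polynomial.eval_comp]
    refine eval_mono p ?_
    simp only [Polynomial.eval_mul, Polynomial.eval_X, Polynomial.eval_ofNat, Polynomial.eval_add,
      Polynomial.eval_one, length_pk]
    have := encodeNat_le n
    generalize 2 ^ L x n / (fib B x n).ncard = N
    omega

theorem allr {U : BM} (hU : Universal U) :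
    (∀ A : Set (List Bool), InP id A → ∀ e : Polynomial ℕ, ∃ (c : ℕ) (p r : Polynomial ℕ), ∀ n : ℕ,
      2 ^ e.eval n * {a : List Bool | a.length = r.eval n ∧ ¬ ∀ s ∈ slice A n,
        KLE U (fun _ => p.eval (n + 2 ^ n / (slice A n).ncard)) s (pk (encodeNat n) a)
          (Real.logb 2 (slice A n).ncard + c)}.ncard ≤ 2 ^ r.eval n) ∧
    (∀ A : Set (List Bool), InP id A → ∀ d e : Polynomial ℕ, ∃ (c : ℕ) (p r : Polynomial ℕ), ∀ n : ℕ,
      2 ^ n ≤ d.eval n * (slice A n).ncard →
      2 ^ e.eval n * {a : List Bool | a.length = r.eval n ∧ ¬ ∀ s ∈ slice A n,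
        KLE U (fun k => p.eval k) s (pk (encodeNat n) a)
          (Real.logb 2 (slice A n).ncard + c)}.ncard ≤ 2 ^ r.eval n) ∧
    (∀ B : Set (List Bool × List Bool), InP (pairEnc id) B →
      ∀ (u : (List Bool × List Bool) × ℕ → List Bool) (L : List Bool → ℕ → ℕ),
      PolyTimeFun (unEnc (pairEnc id)) id u →
      PolyTimeFun (unEnc id) id (fun z : List Bool × ℕ => List.replicate (L z.1 z.2) true) →
      ∀ e : Polynomial ℕ, ∃ (c : ℕ) (p r : Polynomial ℕ), ∀ (x : List Bool) (n : ℕ),
        (∀ s ∈ fib B x n, ∃! q : List Bool, q.length = L x n ∧ u ((q, x), n) = s) →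
        2 ^ e.eval (x.length + n) * {a : List Bool | a.length = r.eval (x.length + n) ∧ ¬ ∀ s ∈ fib B x n,
          KLE U (fun _ => p.eval (x.length + n + 2 ^ L x n / (fib B x n).ncard)) s
            (pk (encodeNat n) (pk x a)) (Real.logb 2 (fib B x n).ncard + c)}.ncard ≤ 2 ^ r.eval (x.length + n)) := by
  have h1 : ∀ A : Set (List Bool), InP id A → ∀ e : Polynomial ℕ, ∃ (c : ℕ) (p r : Polynomial ℕ), ∀ n : ℕ,
      2 ^ e.eval n * {a : List Bool | a.length = r.eval n ∧ ¬ ∀ s ∈ slice A n,
        KLE U (fun _ => p.eval (n + 2 ^ n / (slice A n).ncard)) s (pk (encodeNat n) a)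
          (Real.logb 2 (slice A n).ncard + c)}.ncard ≤ 2 ^ r.eval n := by
    intro A hA e
    obtain ⟨c, p, r, h⟩ := gen3 hU (inP_rel hA) u0_poly (L := fun _ n => n) L0_poly (nb := fun y => fs y)
      (xx := fun _ => []) (aa := fun y => sn y) (poly_fs PolyTime.id) (PolyTime.const []) (poly_sn PolyTime.id) e
    refine ⟨c, p.comp (3 * Polynomial.X + 1 + r), r, fun n => ?_⟩
    have h2 := h [] n (fun a => pk (encodeNat n) a) (2 * n + 1 + r.eval n) (fun a ha =>
      ⟨fs_pk _ _, rfl, sn_pk _ _, by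
        rw [List.length_nil, Nat.zero_add] at ha
        rw [length_pk, ha]
        have := encodeNat_le n
        omega⟩) (by rw [fib_rel]; exact names0)
    simp only [fib_rel, List.length_nil, Nat.zero_add] at h2
    refine (Nat.mul_le_mul_left _ (Set.ncard_le_ncard ?_ ((List.finite_length_eq Bool _).subset
      fun a ha => ha.1))).trans h2
    rintro a ⟨ha, hK⟩
    refine ⟨ha, fun hK' => hK fun s hs => kle_mono (hK' s hs) ?_⟩
    rw [Polynomial.eval_comp]
    refine eval_mono p ?_
    simp only [Polynomial.eval_mul, Polynomial.eval_X, Polynomial.eval_ofNat, Polynomial.eval_add,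
      Polynomial.eval_one]
    have := eval_mono r (Nat.le_add_right n (2 ^ n / (slice A n).ncard))
    generalize 2 ^ n / (slice A n).ncard = N at this ⊢
    omega
  refine ⟨h1, ?_, ?_⟩
  · intro A hA d e
    obtain ⟨c, p, r, h⟩ := h1 A hA e
    refine ⟨c, p.comp (Polynomial.X + d), r, fun n hd => ?_⟩
    refine (Nat.mul_le_mul_left _ (Set.ncard_le_ncard ?_ ((List.finite_length_eq Bool _).subset
      fun a ha => ha.1))).trans (h n)
    rintro a ⟨ha, hK⟩
    refine ⟨ha, fun hK' => hK fun s hs => kle_mono (hK' s hs) ?_⟩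
    rw [Polynomial.eval_comp]
    refine eval_mono p ?_
    rw [Polynomial.eval_add, Polynomial.eval_X, hs.2]
    exact Nat.add_le_add_left (dens rfl hd) n
  · intro B hB u L hu hL e
    obtain ⟨c, p, r, h⟩ := gen3 hU hB hu hL (nb := fun y => fs y) (xx := fun y => fs (sn y))
      (aa := fun y => sn (sn y)) (poly_fs PolyTime.id) (poly_fs (poly_sn PolyTime.id))
      (poly_sn (poly_sn PolyTime.id)) e
    refine ⟨c, p.comp (4 * Polynomial.X + 2 + r), r, fun x n hx => ?_⟩
    have h2 := h x n (fun a => pk (encodeNat n) (pk x a)) (2 * n + 1 + (2 * x.length + 1 + r.eval (x.length + n)))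
      (fun a ha => ⟨fs_pk _ _, by
          show fs (sn (pk (encodeNat n) (pk x a))) = x
          rw [sn_pk, fs_pk], by
          show sn (sn (pk (encodeNat n) (pk x a))) = a
          rw [sn_pk, sn_pk], by
          show (pk (encodeNat n) (pk x a)).length ≤ _
          rw [length_pk, length_pk, ha]
          have := encodeNat_le n
          omega⟩) hx
    refine (Nat.mul_le_mul_left _ (Set.ncard_le_ncard ?_ ((List.finite_length_eq Bool _).subset
      fun a ha => ha.1))).trans h2
    rintro a ⟨ha, hK⟩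
    refine ⟨ha, fun hK' => hK fun s hs => kle_mono (hK' s hs) ?_⟩
    rw [Polynomial.eval_comp]
    refine eval_mono p ?_
    simp only [Polynomial.eval_mul, Polynomial.eval_X, Polynomial.eval_ofNat, Polynomial.eval_add]
    have := eval_mono r (Nat.le_add_right (x.length + n) (2 ^ L x n / (fib B x n).ncard))
    generalize 2 ^ L x n / (fib B x n).ncard = N at this ⊢
    omega

end Pool.Agent.H83.DS
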