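import Pool.Agent.H83.DS.Idx

/-!
# DS.Idx2 : as DS.Idx, for a relation `B`, with a side input `x`
-/

set_option autoImplicit false

namespace Pool.Agent.H83.DS

open Pool.Agent.H80.Poly Pool.Agent.H72.NP Pool.Agent.H83.TK Turing Computability

/-- the enumerating function as a `PolyTime` function -/
theorem idx_u2 {u : (List Bool × List Bool) × ℕ → List Bool}
    (hu : PolyTimeFun (unEnc (pairEnc (id : List Bool → List Bool))) (id : List Bool → List Bool) u) :
    PolyTime (fun a : (List Bool × List Bool) × UNat => u (a.1, a.2.toNat)) := by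
  obtain ⟨g, hg, hgu⟩ := exists_poly_of_fun hu
  have h1 : PolyTime (fun a : (List Bool × List Bool) × UNat =>
      pairEnc (id : List (Bool ⊕ Bool) → List (Bool ⊕ Bool))
        (pairEnc (id : List Bool → List Bool) (a.1.1, a.1.2), List.replicate a.2.toNat true)) := by
    refine poly_pairEnc (poly_pairEnc PolyTime.fst'.fst PolyTime.fst'.snd) ?_
    exact PolyTime.replicate (PolyTime.unatToNat PolyTime.snd') (PolyTime.unat_bd PolyTime.snd') (PolyTime.const true)
  exact (hg.comp h1).congr fun a => hgu (a.1, a.2.toNat)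

/-- the length function as a `PolyTime` function -/
theorem idx_L2 {L : List Bool → ℕ → ℕ}
    (hL : PolyTimeFun (unEnc (id : List Bool → List Bool)) (id : List Bool → List Bool)
      (fun z : List Bool × ℕ => List.replicate (L z.1 z.2) true)) :
    PolyTime (fun z : List Bool × UNat => UNat.ofNat (L z.1 z.2.toNat)) := by
  refine (PolyTime.lengthU (idx_u hL)).congr fun z => ?_
  show UNat.ofNat (List.replicate (L z.1 z.2.toNat) true).length = _
  rw [List.length_replicate]

/-- the index `i` (length `L`) is the index of a member of length `n` of the fibre of `x` -/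
def isM2 (bB : List Bool × List Bool → Bool) (u : (List Bool × List Bool) × ℕ → List Bool) (x : List Bool)
    (n L i : ℕ) : Bool :=
  bB (x, u ((bitsOf L i, x), n)) && decide ((u ((bitsOf L i, x), n)).length = n)

theorem poly_isM2 {bB : List Bool × List Bool → Bool} (hb : PolyTime bB)
    {u : (List Bool × List Bool) × ℕ → List Bool}
    (hu : PolyTime (fun a : (List Bool × List Bool) × UNat => u (a.1, a.2.toNat))) {α : Type} [BEnc α]
    {x : α → List Bool} (hx : PolyTime x) {n L : α → UNat} (hn : PolyTime n) (hL : PolyTime L) :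
    PolyTime (fun c : α × ℕ => isM2 bB u (x c.1) (n c.1).toNat (L c.1).toNat c.2) := by
  have h1 : PolyTime (fun c : α × ℕ => bitsOf (L c.1).toNat c.2) := by
    refine poly_bitsOf (PolyTime.unatToNat (hL.comp PolyTime.fst')) ?_ PolyTime.snd'
    exact PolyTime.unat_bd (hL.comp PolyTime.fst')
  have hx' : PolyTime (fun c : α × ℕ => x c.1) := hx.comp PolyTime.fst'
  have h2 : PolyTime (fun c : α × ℕ => u ((bitsOf (L c.1).toNat c.2, x c.1), (n c.1).toNat)) :=
    hu.comp ((h1.pair hx').pair (hn.comp PolyTime.fst'))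
  exact (hb.comp (hx'.pair h2)).and (PolyTime.eq (PolyTime.length h2) (PolyTime.unatToNat (hn.comp PolyTime.fst')))

theorem fib_finite (B : Set (List Bool × List Bool)) (x : List Bool) (n : ℕ) : (fib B x n).Finite :=
  (List.finite_length_eq Bool n).subset fun _ hs => hs.1

/-- the number of indices of members -/
theorem card_isM2 {B : Set (List Bool × List Bool)} {bB : List Bool × List Bool → Bool}
    (hbB : ∀ z, z ∈ B ↔ bB z = true) {u : (List Bool × List Bool) × ℕ → List Bool} {x : List Bool} {n L : ℕ}
    (h : ∀ s ∈ fib B x n, ∃! q : List Bool, q.length = L ∧ u ((q, x), n) = s) :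
    ((Finset.range (2 ^ L)).filter fun i => isM2 bB u x n L i = true).card = (fib B x n).ncard := by
  classical
  rw [← Set.ncard_coe_finset]
  refine Set.ncard_congr (fun i _ => u ((bitsOf L i, x), n)) ?_ ?_ ?_
  · intro i hi
    simp only [Finset.coe_filter, Finset.mem_range, Set.mem_ofPred_eq, isM2, Bool.and_eq_true, decide_eq_true_eq] at hi
    exact ⟨hi.2.2, (hbB _).2 hi.2.1⟩
  · intro i j hi hj hij
    simp only [Finset.coe_filter, Finset.mem_range, Set.mem_ofPred_eq, isM2, Bool.and_eq_true, decide_eq_true_eq] at hi hj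
    obtain ⟨q, -, hq⟩ := h (u ((bitsOf L i, x), n)) ⟨hi.2.2, (hbB _).2 hi.2.1⟩
    have h1 := hq (bitsOf L i) ⟨length_bitsOf L i, rfl⟩
    have h2 := hq (bitsOf L j) ⟨length_bitsOf L j, hij.symm⟩
    rw [← val_bitsOf hi.1, ← val_bitsOf hj.1, h1, h2]
  · intro s hs
    obtain ⟨q, ⟨hq1, hq2⟩, -⟩ := h s hs
    have h3 : bitsOf L (Pool.Agent.H80.Poly.val q) = q := by
      rw [← hq1]
      exact bitsOf_val q
    have h4 : Pool.Agent.H80.Poly.val q < 2 ^ L := by
      rw [← hq1]
      exact val_lt q
    refine ⟨Pool.Agent.H80.Poly.val q, ?_, ?_⟩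
    · simp only [Finset.coe_filter, Finset.mem_range, Set.mem_ofPred_eq, isM2, Bool.and_eq_true, decide_eq_true_eq]
      rw [h3, hq2]
      exact ⟨h4, (hbB _).1 hs.2, hs.1⟩
    · show u ((bitsOf L (Pool.Agent.H80.Poly.val q), x), n) = s
      rw [h3, hq2]

end Pool.Agent.H83.DS
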