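import Pool.Agent.H83.DS.Num
import Pool.Agent.H83.TK.Pt

/-!
# DS.NumP : the parameters are computable in polynomial time (about 150 lines)

Tools of `Pool.Agent.H80.Poly`: `PolyTime.rangeFold`, `foldl_add` (`pow_bd`: `f^g` by `g` multiplications, sizes add: `size_mul_le`),
`PolyTime.range`, `filter`, `all`, `headD`, `length`, `div`, `mod`, `lt`, `le`, `eq`, `mul`, `min`, `natEval`, `natToUnat`.
`poly_two_pow` (TK.Pt) for `2 ^ i`.
-/

set_option autoImplicit false

namespace Pool.Agent.H83.DS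

open Pool.Agent.H80.Poly

variable {α : Type} [BEnc α]

private theorem nump_lift {γ : Type} [BEnc γ] {n : α → ℕ}
    (h : ∃ β, PB β ∧ ∀ a, n a ≤ β (size a)) :
    ∃ β, PB β ∧ ∀ z : α × γ, n z.1 ≤ β (size z) := by
  obtain ⟨β, ⟨p, hp⟩, h⟩ := h
  refine ⟨fun m => p.eval m, PB.eval p, fun z => ?_⟩
  refine (h z.1).trans ((hp _).trans (eval_mono p ?_))
  rw [size_prod]
  omega

private theorem nump_min {γ : Type} [BEnc γ] (f g : γ → ℕ)
    (h : ∃ β, PB β ∧ ∀ a, g a ≤ β (size a)) : ∃ β, PB β ∧ ∀ a, min (f a) (g a) ≤ β (size a) := by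
  obtain ⟨β, hβ, h⟩ := h
  exact ⟨β, hβ, fun a => (min_le_right _ _).trans (h a)⟩

private theorem nump_succ {γ : Type} [BEnc γ] {g : γ → ℕ}
    (h : ∃ β, PB β ∧ ∀ a, g a ≤ β (size a)) : ∃ β, PB β ∧ ∀ a, g a + 1 ≤ β (size a) := by
  obtain ⟨β, hβ, h⟩ := h
  exact ⟨fun m => β m + 1, hβ.add (PB.const 1), fun a => Nat.add_le_add_right (h a) 1⟩

theorem poly_pow {f g : α → ℕ} (hf : PolyTime f) (hg : PolyTime g) (hb : ∃ β, PB β ∧ ∀ a, g a ≤ β (size a)) :
    PolyTime (fun a => f a ^ g a) := by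
  obtain ⟨bf, hbf, hbfs⟩ := hf.size_le
  have hw : PolyTime (fun w : α × ℕ × ℕ => w) := PolyTime.id
  have h1 := PolyTime.foldl_add (σ := ℕ) (l := fun a => List.range (g a)) (f := fun _ => 1)
    (h := fun w : α × ℕ × ℕ => w.2.1 * f w.1) (PolyTime.range hg hb) (PolyTime.const _)
    (hw.snd.fst.mul (hf.comp hw.fst))
    ⟨bf, hbf, fun a s x _ => (size_mul_le _ _).trans (Nat.add_le_add_left (hbfs a) _)⟩
  refine h1.congr fun a => ?_
  have key : ∀ (l : List ℕ) (s : ℕ), l.foldl (fun s _ => s * f a) s = s * f a ^ l.length := by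
    intro l
    induction l with
    | nil => intro s; simp
    | cons x l ih =>
      intro s
      rw [List.foldl_cons, ih, List.length_cons, pow_succ', mul_assoc]
  simp only
  rw [key, List.length_range, one_mul]

theorem poly_prm {K : α → ℕ} (hK : PolyTime K) (hb : ∃ β, PB β ∧ ∀ a, K a ≤ β (size a)) :
    PolyTime (fun a => prm (K a)) := by
  have hKb : ∃ β, PB β ∧ ∀ a, 2 * K a + 1 ≤ β (size a) := by
    obtain ⟨β, hβ, h⟩ := hb
    refine ⟨fun m => 2 * β m + 1, ((PB.const 2).mul hβ).add (PB.const 1), fun a => ?_⟩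
    have := h a
    show 2 * K a + 1 ≤ 2 * β (size a) + 1
    omega
  have hK2 : PolyTime (fun a => 2 * K a + 1) := ((PolyTime.const 2).mul hK).add (PolyTime.const 1)
  have hr : PolyTime (fun a => List.range (2 * K a + 1)) := PolyTime.range hK2 hKb
  have fst : PolyTime (fun z : α × ℕ => z.1) := PolyTime.fst'
  have snd : PolyTime (fun z : α × ℕ => z.2) := PolyTime.snd'
  have hr2 : PolyTime (fun z : α × ℕ => List.range (min z.2 (2 * K z.1 + 1))) :=
    PolyTime.range (snd.min (hK2.comp fst)) (nump_min _ _ (nump_lift hKb))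
  have f2 : PolyTime (fun z : (α × ℕ) × ℕ => z.1.2) := (PolyTime.fst').snd
  have s2 : PolyTime (fun z : (α × ℕ) × ℕ => z.2) := PolyTime.snd'
  have hall : PolyTime (fun z : α × ℕ => (List.range (min z.2 (2 * K z.1 + 1))).all fun d =>
      decide (d < 2) || !(decide (z.2 % d = 0))) :=
    PolyTime.all (g := fun z : (α × ℕ) × ℕ => decide (z.2 < 2) || !(decide (z.1.2 % z.2 = 0))) hr2
      ((PolyTime.lt s2 (PolyTime.const 2)).or
        (PolyTime.eq (f2.mod s2) (PolyTime.const 0)).not)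
  have hg : PolyTime (fun z : α × ℕ => decide (K z.1 < z.2) && (decide (2 ≤ z.2) &&
      (List.range (min z.2 (2 * K z.1 + 1))).all fun d =>
        decide (d < 2) || !(decide (z.2 % d = 0)))) :=
    (PolyTime.lt (hK.comp fst) snd).and ((PolyTime.le (PolyTime.const 2) snd).and hall)
  refine (PolyTime.headD 2 (PolyTime.filter hr hg)).congr fun a => ?_
  unfold prm
  congr 1
  refine List.filter_congr fun m hm => ?_
  have h1 : min m (2 * K a + 1) = m := min_eq_left (List.mem_range.1 hm).le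
  simp only [h1]
  rfl

theorem poly_pp (C : ℕ) {n L W : α → UNat} (hn : PolyTime n) (hL : PolyTime L) (hW : PolyTime W) :
    PolyTime (fun a => pp C (n a).toNat (L a).toNat (W a).toNat) ∧
    ∃ β, PB β ∧ ∀ a, pp C (n a).toNat (L a).toNat (W a).toNat ≤ β (size a) := by
  obtain ⟨b1, hb1, h1⟩ := hn.unat_bd
  obtain ⟨b2, hb2, h2⟩ := hL.unat_bd
  obtain ⟨b3, hb3, h3⟩ := hW.unat_bd
  have hk : ∃ β, PB β ∧ ∀ a, kpar (n a).toNat (L a).toNat (W a).toNat ^ (C + 3) ≤ β (size a) := by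
    refine ⟨fun m => (b1 m + b2 m + b3 m + 3) ^ (C + 3),
      (((hb1.add hb2).add hb3).add (PB.const 3)).pow _, fun a => ?_⟩
    apply Nat.pow_le_pow_left
    have := h1 a
    have := h2 a
    have := h3 a
    show (n a).toNat + (L a).toNat + (W a).toNat + 3 ≤ b1 (size a) + b2 (size a) + b3 (size a) + 3
    omega
  have hp : PolyTime (fun a => kpar (n a).toNat (L a).toNat (W a).toNat ^ (C + 3)) :=
    PolyTime.pow (((hn.unatToNat.add hL.unatToNat).add hW.unatToNat).add (PolyTime.const 3)) _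
  refine ⟨poly_prm hp hk, ?_⟩
  obtain ⟨β, hβ, h⟩ := hk
  refine ⟨fun m => 2 * β m + 2, ((PB.const 2).mul hβ).add (PB.const 2), fun a => ?_⟩
  have h4 := prm_le (kpar (n a).toNat (L a).toNat (W a).toNat ^ (C + 3))
  have h5 := h a
  show prm (kpar (n a).toNat (L a).toNat (W a).toNat ^ (C + 3)) ≤ 2 * β (size a) + 2
  omega

theorem poly_tt {p l : α → ℕ} (hp : PolyTime p) (hl : PolyTime l) (hb : ∃ β, PB β ∧ ∀ a, l a ≤ β (size a)) :
    PolyTime (fun a => tt (p a) (l a)) := by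
  have fst : PolyTime (fun z : α × ℕ => z.1) := PolyTime.fst'
  have snd : PolyTime (fun z : α × ℕ => z.2) := PolyTime.snd'
  have hr : PolyTime (fun a => List.range (l a)) := PolyTime.range hl hb
  have h1 : PolyTime (fun z : α × ℕ => p z.1 ^ (min z.2 (l z.1) + 1)) :=
    poly_pow (hp.comp fst) ((snd.min (hl.comp fst)).succ)
      (nump_succ (nump_min _ _ (nump_lift hb)))
  have hlb : ∃ β, PB β ∧ ∀ a, l a - 2 ≤ β (size a) := by
    obtain ⟨β, hβ, h⟩ := hb
    exact ⟨β, hβ, fun a => (Nat.sub_le _ _).trans (h a)⟩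
  have h2 : PolyTime (fun a => 2 ^ (l a - 2) / (2 * p a ^ 2)) :=
    (Pool.Agent.H83.TK.poly_two_pow (hl.sub (PolyTime.const 2)) hlb).div
      ((PolyTime.const 2).mul (PolyTime.pow hp 2))
  have h3 : PolyTime (fun z : α × ℕ =>
      decide (p z.1 ^ (min z.2 (l z.1) + 1) ≤ 2 ^ (l z.1 - 2) / (2 * p z.1 ^ 2))) :=
    PolyTime.le h1 (h2.comp fst)
  refine (PolyTime.length (PolyTime.filter hr h3)).congr fun a => ?_
  unfold tt
  congr 1
  refine List.filter_congr fun i hi => ?_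
  have h4 : min i (l a) = i := min_eq_left (List.mem_range.1 hi).le
  simp only [h4]

theorem poly_bb {p t : α → ℕ} {L W : α → UNat} (hp : PolyTime p) (ht : PolyTime t)
    (hpb : ∃ β, PB β ∧ ∀ a, p a ≤ β (size a)) (htb : ∃ β, PB β ∧ ∀ a, t a ≤ β (size a))
    (hL : PolyTime L) (hW : PolyTime W) :
    PolyTime (fun a => bb (p a) (t a) (L a).toNat (W a).toNat) ∧
    ∃ β, PB β ∧ ∀ a, bb (p a) (t a) (L a).toNat (W a).toNat ≤ β (size a) := by
  constructor
  · exact (((Pool.Agent.H83.TK.poly_two_pow hL.unatToNat hL.unat_bd).div (poly_pow hp ht htb)).succ).min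
      ((((PolyTime.const 2).mul hW.unatToNat).mul (PolyTime.pow hp 3)).succ)
  · obtain ⟨b1, hb1, h1⟩ := hW.unat_bd
    obtain ⟨b2, hb2, h2⟩ := hpb
    refine ⟨fun m => 2 * b1 m * b2 m ^ 3 + 1,
      (((PB.const 2).mul hb1).mul (hb2.pow 3)).add (PB.const 1), fun a => ?_⟩
    refine (min_le_right _ _).trans (Nat.add_le_add_right ?_ 1)
    exact Nat.mul_le_mul (Nat.mul_le_mul_left 2 (h1 a)) (Nat.pow_le_pow_left (h2 a) 3)

theorem poly_bitsOf {L i : α → ℕ} (hL : PolyTime L) (hb : ∃ β, PB β ∧ ∀ a, L a ≤ β (size a)) (hi : PolyTime i) :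
    PolyTime (fun a => bitsOf (L a) (i a)) := by
  have fst : PolyTime (fun z : α × ℕ => z.1) := PolyTime.fst'
  have snd : PolyTime (fun z : α × ℕ => z.2) := PolyTime.snd'
  have hr : PolyTime (fun a => List.range (L a)) := PolyTime.range hL hb
  have h1 : PolyTime (fun z : α × ℕ => 2 ^ min z.2 (L z.1)) :=
    Pool.Agent.H83.TK.poly_two_pow (snd.min (hL.comp fst)) (nump_min _ _ (nump_lift hb))
  have h2 : PolyTime (fun z : α × ℕ => decide (i z.1 / 2 ^ min z.2 (L z.1) % 2 = 1)) :=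
    PolyTime.eq (((hi.comp fst).div h1).mod (PolyTime.const 2)) (PolyTime.const 1)
  refine (PolyTime.map hr h2).congr fun a => ?_
  unfold bitsOf
  refine List.map_congr_left fun j hj => ?_
  have h4 : min j (L a) = j := min_eq_left (List.mem_range.1 hj).le
  simp only [h4]
  rfl

end Pool.Agent.H83.DS
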