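import Pool.Agent.H83.DS.Slow
import Pool.Agent.H83.DS.NumP

/-!
# DS.Run2 : as DS.Run (proved by helper9), with a length `L (y, n)` that depends on the second input

Input `(q, y)`.  Steps: (1) `PolyTime`: `((q, y), |nb y|)`; (2) `slow_double`: `((q, y), 2^|nb y|)`; (3) `PolyTime`: `n = val (nb y)` in unary
(`n < 2^|nb y|`, `natToUnat` with this bound, in general `min (val (nb y)) (2^|nb y|)`), `λ = L (y, n)`, `e = λ + 3 + δ - |q|` in unary:
`(((q, y), (n, λ)), e)`; (4) `slow_double`; (5) `G`.  Times: `2^|nb y| ≤ 2 n + 1` if `nb y = encodeNat n` (`Nat.size`; `size_nat`),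
`λ` is bounded by a polynomial of `|y| + n` (`PolyTime.size_le`, `size_unat`).  So everything is polynomial in `|q| + |y| + n + 2^e`
on the inputs with `nb y = encodeNat n`; the general time function is `τ(q, y) = |q| + |y| + 2^|nb y| + .. + 2^e`.
-/

set_option autoImplicit false

namespace Pool.Agent.H83.DS

open Pool.Agent.H80.Poly Pool.Agent.H72.NP Pool.Agent.H83.TK Turing Computability

private def Rn2_f1 (nb : List Bool → List Bool) (a : Str × Str) : (List Bool × List Bool) × UNat :=
  ((strToList a.1, strToList a.2), UNat.ofNat (nb (strToList a.2)).length)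

private def Rn2_dbl {α : Type} (a : α × UNat) : α × UNat := (a.1, UNat.ofNat (2 ^ a.2.toNat))

private def Rn2_n (nb : List Bool → List Bool) (z : (List Bool × List Bool) × UNat) : UNat :=
  UNat.ofNat (min (val (nb z.1.2)) z.2.toNat)

private def Rn2_f3 (nb : List Bool → List Bool) (L : List Bool × UNat → UNat) (δ : ℕ)
    (z : (List Bool × List Bool) × UNat) : ((List Bool × List Bool) × (UNat × UNat)) × UNat :=
  ((z.1, (Rn2_n nb z, L (z.1.2, Rn2_n nb z))),
    UNat.ofNat ((L (z.1.2, Rn2_n nb z)).toNat + 3 + δ - z.1.1.length))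

private def Rn2_f5 (G : (List Bool × List Bool) × ((UNat × UNat) × UNat) → List Bool)
    (z : ((List Bool × List Bool) × (UNat × UNat)) × UNat) : Str :=
  listToStr (G (z.1.1, (z.1.2, z.2)))

private theorem Rn2_poly1 {nb : List Bool → List Bool} (hnb : PolyTime nb) :
    PolyTime (Rn2_f1 nb) := by
  have h1 : PolyTime (fun a : Str × Str => strToList a.1) :=
    PolyTime.strToList'.comp PolyTime.fst'
  have h2 : PolyTime (fun a : Str × Str => strToList a.2) :=
    PolyTime.strToList'.comp PolyTime.snd'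
  exact (h1.pair h2).pair (PolyTime.lengthU (hnb.comp h2))

private theorem Rn2_polyn {nb : List Bool → List Bool} (hnb : PolyTime nb) :
    PolyTime (Rn2_n nb) := by
  have h1 : PolyTime (fun z : (List Bool × List Bool) × UNat => z.2) := PolyTime.snd'
  have h2 : PolyTime (fun z : (List Bool × List Bool) × UNat => z.1.2) := PolyTime.fst'.snd
  refine PolyTime.natToUnat ((PolyTime.val (hnb.comp h2)).min h1.unatToNat) ?_
  obtain ⟨b, hb, h⟩ := h1.unat_bd
  exact ⟨b, hb, fun a => (min_le_right _ _).trans (h a)⟩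

private theorem Rn2_poly3 {nb : List Bool → List Bool} (hnb : PolyTime nb) {L : List Bool × UNat → UNat}
    (hL : PolyTime L) (δ : ℕ) : PolyTime (Rn2_f3 nb L δ) := by
  have hn := Rn2_polyn hnb
  have hl : PolyTime (fun z : (List Bool × List Bool) × UNat => L (z.1.2, Rn2_n nb z)) :=
    hL.comp (PolyTime.fst'.snd.pair hn)
  have h1 : PolyTime (fun z : (List Bool × List Bool) × UNat => z.1) := PolyTime.fst'
  have h2 : PolyTime (fun z : (List Bool × List Bool) × UNat => z.1.1) := PolyTime.fst'.fst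
  refine (h1.pair (hn.pair hl)).pair (PolyTime.natToUnat
    (((hl.unatToNat.add (PolyTime.const 3)).add (PolyTime.const δ)).sub (PolyTime.length h2)) ?_)
  obtain ⟨b, hb, h⟩ := hl.unat_bd
  refine ⟨fun m => b m + 3 + δ, (hb.add (PB.const 3)).add (PB.const δ), fun a => ?_⟩
  have := h a
  show (L (a.1.2, Rn2_n nb a)).toNat + 3 + δ - a.1.1.length ≤ b (size a) + 3 + δ
  omega

private theorem Rn2_poly5 {G : (List Bool × List Bool) × ((UNat × UNat) × UNat) → List Bool}
    (hG : PolyTime G) : PolyTime (Rn2_f5 G) := by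
  have h1 : PolyTime (fun z : ((List Bool × List Bool) × (UNat × UNat)) × UNat => z.1.1) :=
    PolyTime.fst'.fst
  have h2 : PolyTime (fun z : ((List Bool × List Bool) × (UNat × UNat)) × UNat => z.1.2) :=
    PolyTime.fst'.snd
  have h3 : PolyTime (fun z : ((List Bool × List Bool) × (UNat × UNat)) × UNat => z.2) :=
    PolyTime.snd'
  exact PolyTime.listToStr'.comp (hG.comp (h1.pair (h2.pair h3)))

private theorem Rn2_size_lb (l : List Bool) : size l = 3 * l.length := by
  induction l with
  | nil => rfl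
  | cons b l ih =>
    rw [size_cons, size_bool, ih, List.length_cons]
    omega

private theorem Rn2_two_pow_size (n : ℕ) : 2 ^ (encodeNat n).length ≤ 2 * n + 1 := by
  rw [show (encodeNat n).length = n.size from size_nat n]
  rcases Nat.eq_zero_or_pos n.size with h | h
  · rw [h]; omega
  · have h1 : n.size - 1 < n.size := by omega
    have h2 := Nat.lt_size.1 h1
    have h3 : 2 ^ n.size = 2 * 2 ^ (n.size - 1) := by
      rw [← pow_succ']
      congr 1
      omega
    omega

private theorem Rn2_eval {nb : List Bool → List Bool} {L : List Bool × UNat → UNat} {δ : ℕ} {q y : List Bool}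
    {n : ℕ} (hy : nb y = encodeNat n) :
    Rn2_f3 nb L δ (Rn2_dbl (Rn2_f1 nb (listToStr q, listToStr y))) =
      (((q, y), (UNat.ofNat n, L (y, UNat.ofNat n))),
        UNat.ofNat ((L (y, UNat.ofNat n)).toNat + 3 + δ - q.length)) := by
  have h1 : Rn2_n nb (Rn2_dbl (Rn2_f1 nb (listToStr q, listToStr y))) = UNat.ofNat n := by
    show UNat.ofNat (min (val (nb y)) (2 ^ (nb y).length)) = UNat.ofNat n
    rw [hy, val_encodeNat]
    congr 1
    exact min_eq_left (lt_two_pow_size n).le
  unfold Rn2_f3
  rw [h1]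
  rfl

theorem slow_run2 {U : BM} (hU : Universal U) {nb : List Bool → List Bool} (hnb : PolyTime nb) {L : List Bool × UNat → UNat}
    (hL : PolyTime L) (δ : ℕ) {G : (List Bool × List Bool) × ((UNat × UNat) × UNat) → List Bool} (hG : PolyTime G) :
    ∃ (w : List Bool) (P : Polynomial ℕ), ∀ (q y : List Bool) (n : ℕ), nb y = encodeNat n →
      U.Out (w ++ q) y
        (G ((q, y), ((UNat.ofNat n, L (y, UNat.ofNat n)), UNat.ofNat (2 ^ ((L (y, UNat.ofNat n)).toNat + 3 + δ - q.length)))))
        (P.eval (q.length + y.length + n + 2 ^ ((L (y, UNat.ofNat n)).toNat + 3 + δ - q.length))) := by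
  have s1 := slow_poly (Rn2_poly1 hnb)
  have s2 := slow_comp s1 (slow_double (α := List Bool × List Bool))
  have s3 := slow_comp s2 (slow_poly (Rn2_poly3 hnb hL δ))
  have s4 := slow_comp s3 (slow_double (α := (List Bool × List Bool) × (UNat × UNat)))
  have s5 := slow_comp s4 (slow_poly (Rn2_poly5 hG))
  let T : Str × Str → ℕ := fun a =>
    (((size a + (size (Rn2_f1 nb a).1 + 2 ^ (Rn2_f1 nb a).2.toNat)) +
      size (Rn2_dbl (Rn2_f1 nb a))) +
      (size (Rn2_f3 nb L δ (Rn2_dbl (Rn2_f1 nb a))).1 +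
        2 ^ (Rn2_f3 nb L δ (Rn2_dbl (Rn2_f1 nb a))).2.toNat)) +
      size (Rn2_dbl (Rn2_f3 nb L δ (Rn2_dbl (Rn2_f1 nb a))))
  let F : Str × Str → Str := fun a =>
    Rn2_f5 G (Rn2_dbl (Rn2_f3 nb L δ (Rn2_dbl (Rn2_f1 nb a))))
  have s6 : SlowTime T F := s5
  obtain ⟨w, P, hw⟩ := slow_universal hU
    (τ := fun z : List Bool × List Bool => T (listToStr z.1, listToStr z.2))
    (F := fun z : List Bool × List Bool => strToList (F (listToStr z.1, listToStr z.2))) s6
  obtain ⟨b, ⟨pL, hpL⟩, hbL⟩ := hL.size_le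
  obtain ⟨P', hP'⟩ : PB (fun k => P.eval (70 * k + 20 + 3 * pL.eval (6 * k + 1))) :=
    PB.evalComp P ((((PB.const 70).mul PB.id).add (PB.const 20)).add
      ((PB.const 3).mul (PB.evalComp pL (((PB.const 6).mul PB.id).add (PB.const 1)))))
  refine ⟨w, P', fun q y n hy => ?_⟩
  have hF : strToList (F (listToStr q, listToStr y)) =
      G ((q, y), ((UNat.ofNat n, L (y, UNat.ofNat n)),
        UNat.ofNat (2 ^ ((L (y, UNat.ofNat n)).toNat + 3 + δ - q.length)))) := by
    show strToList (Rn2_f5 G (Rn2_dbl (Rn2_f3 nb L δ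
      (Rn2_dbl (Rn2_f1 nb (listToStr q, listToStr y)))))) = _
    rw [Rn2_eval hy]
    rfl
  have h1 := hw q y
  simp only [hF] at h1
  refine h1.mono ((eval_mono P ?_).trans (hP' _))
  set e := (L (y, UNat.ofNat n)).toNat + 3 + δ - q.length with he
  have hnk : n ≤ q.length + y.length + n + 2 ^ e :=
    (Nat.le_add_left _ _).trans (Nat.le_add_right _ _)
  have hl : (L (y, UNat.ofNat n)).toNat ≤ pL.eval (6 * (q.length + y.length + n + 2 ^ e) + 1) := by
    have h2 := hbL (y, UNat.ofNat n)
    rw [size_unat] at h2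
    refine h2.trans ((hpL _).trans (eval_mono pL ?_))
    have h3 : size (y, UNat.ofNat n) = 2 * (3 * y.length) + 1 + n := by
      rw [size_pair, size_unat, Rn2_size_lb]
    rw [h3]
    generalize 2 ^ e = E
    omega
  have ha : size ((listToStr q, listToStr y) : Str × Str) = 2 * q.length + 1 + y.length := by
    rw [size_pair]; rfl
  have hqy : size ((q, y) : List Bool × List Bool) = 6 * q.length + 1 + 3 * y.length := by
    rw [size_pair, Rn2_size_lb, Rn2_size_lb]; ring
  have hN : 2 ^ (nb y).length ≤ 2 * n + 1 := by rw [hy]; exact Rn2_two_pow_size n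
  have hd1 : size (Rn2_dbl (Rn2_f1 nb (listToStr q, listToStr y))) =
      2 * size ((q, y) : List Bool × List Bool) + 1 + 2 ^ (nb y).length := by
    show size ((((q, y) : List Bool × List Bool), UNat.ofNat (2 ^ (nb y).length))) = _
    rw [size_pair, size_unat]
  have h3 : size ((((q, y), (UNat.ofNat n, L (y, UNat.ofNat n))) :
      (List Bool × List Bool) × (UNat × UNat))) =
      2 * size ((q, y) : List Bool × List Bool) + 1 + (2 * n + 1 + (L (y, UNat.ofNat n)).toNat) := by
    rw [size_pair, size_pair (UNat.ofNat n), size_unat, size_unat]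
  have hd3 : size (Rn2_dbl ((((q, y), (UNat.ofNat n, L (y, UNat.ofNat n))), UNat.ofNat e) :
      ((List Bool × List Bool) × (UNat × UNat)) × UNat)) =
      2 * size ((((q, y), (UNat.ofNat n, L (y, UNat.ofNat n))) :
        (List Bool × List Bool) × (UNat × UNat))) + 1 + 2 ^ e := by
    show size ((((q, y), (UNat.ofNat n, L (y, UNat.ofNat n))), UNat.ofNat (2 ^ e)) :
      ((List Bool × List Bool) × (UNat × UNat)) × UNat) = _
    rw [size_pair, size_unat]
  have hT : T (listToStr q, listToStr y) =
      (((size ((listToStr q, listToStr y) : Str × Str) +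
        (size ((q, y) : List Bool × List Bool) + 2 ^ (nb y).length)) +
      size (Rn2_dbl (Rn2_f1 nb (listToStr q, listToStr y)))) +
      (size ((((q, y), (UNat.ofNat n, L (y, UNat.ofNat n))) :
        (List Bool × List Bool) × (UNat × UNat))) + 2 ^ e)) +
      size (Rn2_dbl ((((q, y), (UNat.ofNat n, L (y, UNat.ofNat n))), UNat.ofNat e) :
      ((List Bool × List Bool) × (UNat × UNat)) × UNat)) := by
    show (((size ((listToStr q, listToStr y) : Str × Str) +
      (size (Rn2_f1 nb (listToStr q, listToStr y)).1 +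
        2 ^ (Rn2_f1 nb (listToStr q, listToStr y)).2.toNat)) +
      size (Rn2_dbl (Rn2_f1 nb (listToStr q, listToStr y)))) +
      (size (Rn2_f3 nb L δ (Rn2_dbl (Rn2_f1 nb (listToStr q, listToStr y)))).1 +
        2 ^ (Rn2_f3 nb L δ (Rn2_dbl (Rn2_f1 nb (listToStr q, listToStr y)))).2.toNat)) +
      size (Rn2_dbl (Rn2_f3 nb L δ (Rn2_dbl (Rn2_f1 nb (listToStr q, listToStr y))))) = _
    rw [Rn2_eval hy]
    rfl
  show q.length + y.length + T (listToStr q, listToStr y) ≤
    70 * (q.length + y.length + n + 2 ^ e) + 20 +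
      3 * pL.eval (6 * (q.length + y.length + n + 2 ^ e) + 1)
  rw [hT, hd3, h3, hd1, ha, hqy]
  generalize pL.eval (6 * (q.length + y.length + n + 2 ^ e) + 1) = A at hl ⊢
  generalize 2 ^ e = E at hl ⊢
  generalize 2 ^ (nb y).length = N at hN ⊢
  generalize (L (y, UNat.ofNat n)).toNat = l at hl ⊢
  omega

end Pool.Agent.H83.DS
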