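import Pool.Agent.H83.DS.Core
import Pool.Agent.H83.DS.Dec3
import Pool.Agent.H83.DS.Run2
import Pool.Agent.H83.DS.Idx2

/-!
# DS.Gen : short programs for the members of `B_x^n`

`y` is the second input of the universal machine; `nb y = encodeNat n`, `xx y = x` and `aa y` (the random string) are read from it.
-/

set_option autoImplicit false

namespace Pool.Agent.H83.DS

open Pool.Agent.H80.Poly Pool.Agent.H72.NP Pool.Agent.H83.TK Turing Computability

theorem encodeNat_le (n : ℕ) : (encodeNat n).length ≤ n := by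
  rw [show (encodeNat n).length = n.size from size_nat n]
  exact Nat.size_le.2 Nat.lt_two_pow_self

/-- the arithmetic of `W = 2^(L+3-l)` -/
theorem top_W {S L l : ℕ} (h1 : 1 ≤ S) (hl : 2 ≤ l) (hSl : S ≤ 2 ^ (l - 2)) (hlS : 2 ^ (l - 2) < 2 * S) (hSL : S ≤ 2 ^ L) :
    l ≤ L + 2 ∧ 2 ^ (L + 3 - l) ≤ 2 * (2 ^ L / S) ∧ 2 ^ L / S < 2 ^ (L + 3 - l) := by
  have e1 : l ≤ L + 2 := by
    have h2 : 2 ^ (l - 2) < 2 ^ (L + 1) := by
      rw [pow_succ]
      omega
    have h3 := (Nat.pow_lt_pow_iff_right (a := 2) (by norm_num)).1 h2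
    omega
  have e2 : 2 ^ (L + 3 - l) = 2 * 2 ^ (L + 2 - l) := by
    rw [← pow_succ']
    congr 1
    omega
  have e3 : 2 ^ (L + 2 - l) * 2 ^ (l - 2) = 2 ^ L := by
    rw [← pow_add]
    congr 1
    omega
  refine ⟨e1, ?_, ?_⟩
  · rw [e2]
    refine Nat.mul_le_mul_left 2 ((Nat.le_div_iff_mul_le h1).2 ?_)
    calc 2 ^ (L + 2 - l) * S ≤ 2 ^ (L + 2 - l) * 2 ^ (l - 2) := Nat.mul_le_mul_left _ hSl
      _ = 2 ^ L := e3
  · rw [Nat.div_lt_iff_lt_mul h1, e2, ← e3]
    have h4 : 0 < 2 ^ (L + 2 - l) := by positivity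
    calc 2 ^ (L + 2 - l) * 2 ^ (l - 2) < 2 ^ (L + 2 - l) * (2 * S) := Nat.mul_lt_mul_of_pos_left hlS h4
      _ = 2 * 2 ^ (L + 2 - l) * S := by ring

private theorem gen_size (l : List Bool) : size l = 3 * l.length := by
  induction l with
  | nil => rfl
  | cons b l ih =>
    rw [size_cons, size_bool, ih, List.length_cons]
    omega

/-- a polynomial bound for a length function -/
theorem gen_len {L' : List Bool × UNat → UNat} (hL : PolyTime L') :
    ∃ b : Polynomial ℕ, ∀ (y : List Bool) (n : ℕ), (L' (y, UNat.ofNat n)).toNat ≤ b.eval (y.length + n) := by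
  obtain ⟨β, ⟨b, hb⟩, hβ⟩ := hL.size_le
  refine ⟨b.comp (6 * Polynomial.X + 1), fun y n => ?_⟩
  have h2 := hβ (y, UNat.ofNat n)
  rw [size_unat] at h2
  have h3 : size (y, UNat.ofNat n) = 2 * (3 * y.length) + 1 + n := by
    rw [size_pair, size_unat, gen_size]
  rw [Polynomial.eval_comp]
  refine h2.trans ((hb _).trans (eval_mono b ?_))
  rw [h3]
  simp only [Polynomial.eval_add, Polynomial.eval_mul, Polynomial.eval_X, Polynomial.eval_ofNat,
    Polynomial.eval_one]
  omega

/-- a common polynomial bound for the time of the decoder -/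
theorem gen_bound {L' : List Bool × UNat → UNat} (hL : PolyTime L') (P : Polynomial ℕ) (k : ℕ) :
    ∃ p : Polynomial ℕ, ∀ (y : List Bool) (n q W N : ℕ), q ≤ (L' (y, UNat.ofNat n)).toNat + k → W ≤ 2 * N →
      P.eval (q + y.length + n + W) ≤ p.eval (y.length + n + N) := by
  obtain ⟨b, hb⟩ := gen_len hL
  refine ⟨P.comp (b + Polynomial.C k + 2 * Polynomial.X), fun y n q W N hq hW => ?_⟩
  have h1 : b.eval (y.length + n) ≤ b.eval (y.length + n + N) := eval_mono b (Nat.le_add_right _ _)
  have h2 := hb y n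
  rw [Polynomial.eval_comp]
  refine eval_mono P ?_
  simp only [Polynomial.eval_add, Polynomial.eval_C, Polynomial.eval_mul, Polynomial.eval_X, Polynomial.eval_ofNat]
  omega

/-- a polynomial is bounded by a power -/
theorem exists_pow (e : Polynomial ℕ) : ∃ C : ℕ, ∀ n, e.eval n ≤ (n + 3) ^ C := by
  induction e using Polynomial.induction_on' with
  | add p q hp hq =>
    obtain ⟨C, hC⟩ := hp
    obtain ⟨D, hD⟩ := hq
    refine ⟨C + D + 1, fun n => ?_⟩
    rw [Polynomial.eval_add]
    have h1 : (n + 3) ^ C ≤ (n + 3) ^ (C + D) := Nat.pow_le_pow_right (by omega) (by omega)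
    have h2 : (n + 3) ^ D ≤ (n + 3) ^ (C + D) := Nat.pow_le_pow_right (by omega) (by omega)
    have h3 : (n + 3) ^ (C + D) * 3 ≤ (n + 3) ^ (C + D) * (n + 3) := Nat.mul_le_mul_left _ (by omega)
    have h4 := hC n
    have h5 := hD n
    rw [pow_succ]
    omega
  | monomial k c =>
    refine ⟨c + k, fun n => ?_⟩
    rw [Polynomial.eval_monomial, pow_add]
    refine Nat.mul_le_mul ?_ (Nat.pow_le_pow_left (by omega) k)
    exact (Nat.lt_pow_self (by omega : 1 < n + 3)).le

/-- most members -/
theorem gen1 {U : BM} (hU : Universal U) {B : Set (List Bool × List Bool)}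
    (hB : InP (pairEnc (id : List Bool → List Bool)) B) {u : (List Bool × List Bool) × ℕ → List Bool}
    (hu : PolyTimeFun (unEnc (pairEnc (id : List Bool → List Bool))) (id : List Bool → List Bool) u)
    {L : List Bool → ℕ → ℕ}
    (hL : PolyTimeFun (unEnc (id : List Bool → List Bool)) (id : List Bool → List Bool)
      (fun z : List Bool × ℕ => List.replicate (L z.1 z.2) true))
    {nb xx : List Bool → List Bool} (hnb : PolyTime nb) (hxx : PolyTime xx) (C : ℕ) :
    ∃ (c : ℕ) (p : Polynomial ℕ), ∀ (y : List Bool) (n : ℕ), nb y = encodeNat n →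
      (∀ s ∈ fib B (xx y) n, ∃! q : List Bool, q.length = L (xx y) n ∧ u ((q, xx y), n) = s) →
      {s | s ∈ fib B (xx y) n ∧
        ¬ KLE U (fun _ => p.eval (y.length + n + 2 ^ L (xx y) n / (fib B (xx y) n).ncard)) s y
          (Real.logb 2 (fib B (xx y) n).ncard + c)}.ncard *
        ((xx y).length + n + 2 ^ L (xx y) n / (fib B (xx y) n).ncard) ^ C ≤ (fib B (xx y) n).ncard := by
  classical
  obtain ⟨bB, hbB, hbs⟩ := inP_pair_iff.1 hB
  have hu' := idx_u2 hu
  set LU : List Bool × UNat → UNat := fun z => UNat.ofNat (L (xx z.1) z.2.toNat) with hLU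
  have hL' : PolyTime LU := (idx_L2 hL).comp ((hxx.comp PolyTime.fst').pair PolyTime.snd')
  set G : (List Bool × List Bool) × ((UNat × UNat) × UNat) → List Bool := fun c =>
    u ((bitsOf c.2.1.2.toNat (dec1 (fun i => isM2 bB u (xx c.1.2) c.2.1.1.toNat c.2.1.2.toNat i) C
      (UNat.ofNat (c.2.1.1.toNat + (UNat.ofNat (xx c.1.2).length).toNat)).toNat c.2.1.2.toNat
      c.2.2.toNat c.1.1), xx c.1.2), c.2.1.1.toNat) with hG
  have hid : PolyTime (fun c : (List Bool × List Bool) × ((UNat × UNat) × UNat) => c) := PolyTime.id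
  have hn : PolyTime (fun c : (List Bool × List Bool) × ((UNat × UNat) × UNat) => c.2.1.1) := hid.snd.fst.fst
  have hl : PolyTime (fun c : (List Bool × List Bool) × ((UNat × UNat) × UNat) => c.2.1.2) := hid.snd.fst.snd
  have hw : PolyTime (fun c : (List Bool × List Bool) × ((UNat × UNat) × UNat) => c.2.2) := hid.snd.snd
  have hq : PolyTime (fun c : (List Bool × List Bool) × ((UNat × UNat) × UNat) => c.1.1) := hid.fst.fst
  have hx : PolyTime (fun c : (List Bool × List Bool) × ((UNat × UNat) × UNat) => xx c.1.2) :=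
    hxx.comp hid.fst.snd
  have hν := PolyTime.unatAdd hn (PolyTime.lengthU hx)
  have hGp : PolyTime G := by
    have h1 := poly_dec1 (poly_isM2 hbB hu' hx hn hl) C hν hl hw hq
    have h2 := poly_bitsOf (PolyTime.unatToNat hl) (PolyTime.unat_bd hl) h1
    exact hu'.comp ((h2.pair hx).pair hn)
  obtain ⟨w, P, hwP⟩ := slow_run2 hU hnb hL' 0 hGp
  obtain ⟨p, hp⟩ := gen_bound hL' P 2
  refine ⟨w.length + 3, p, fun y n hy huniq => ?_⟩
  set x := xx y with hxy
  set S := (fib B x n).ncard with hS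
  have hfin := fib_finite B x n
  have hsub : {s | s ∈ fib B x n ∧ ¬ KLE U (fun _ => p.eval (y.length + n + 2 ^ L x n / S)) s y
        (Real.logb 2 S + (w.length + 3 : ℕ))} ⊆ fib B x n := fun s hs => hs.1
  rcases Nat.eq_zero_or_pos S with h0 | h1
  · have h2 := Set.ncard_le_ncard hsub hfin
    rw [← hS, h0, Nat.le_zero] at h2
    rw [h0, h2, Nat.zero_mul]
  obtain ⟨l, hl2, hSl, hlS, hlog⟩ := exists_len h1
  have hcard := card_isM2 hbs huniq
  rw [← hS] at hcard
  have hSL : S ≤ 2 ^ L x n := by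
    rw [← hcard]
    exact (Finset.card_filter_le _ _).trans (by rw [Finset.card_range])
  obtain ⟨e1, e2, e3⟩ := top_W h1 hl2 hSl hlS hSL
  obtain ⟨c1, c2⟩ := core (b := fun i => isM2 bB u x n (L x n) i) (C := C) (n := n + x.length) hcard h1 hl2 hSl hlS rfl
  set W := 2 ^ (L x n + 3 - l) with hW
  -- the bad members have exceptional indices
  have hbad : {s | s ∈ fib B x n ∧ ¬ KLE U (fun _ => p.eval (y.length + n + 2 ^ L x n / S)) s y
        (Real.logb 2 S + (w.length + 3 : ℕ))} ⊆
      (fun i => u ((bitsOf (L x n) i, x), n)) '' ((((Finset.range (2 ^ L x n)).filter fun i =>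
        isM2 bB u x n (L x n) i = true ∧ 2 ^ l ≤ plc (fun i => isM2 bB u x n (L x n) i) C (n + x.length)
          (L x n) W l i) : Finset ℕ) : Set ℕ) := by
    rintro s ⟨hs, hK⟩
    obtain ⟨z, ⟨hz1, hz2⟩, -⟩ := huniq s hs
    have h3 : bitsOf (L x n) (Pool.Agent.H80.Poly.val z) = z := by
      rw [← hz1]
      exact bitsOf_val z
    have h4 : Pool.Agent.H80.Poly.val z < 2 ^ L x n := by
      rw [← hz1]
      exact val_lt z
    have h5 : isM2 bB u x n (L x n) (Pool.Agent.H80.Poly.val z) = true := by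
      unfold isM2
      rw [h3, hz2, Bool.and_eq_true, decide_eq_true_eq]
      exact ⟨(hbs _).1 hs.2, hs.1⟩
    refine ⟨Pool.Agent.H80.Poly.val z, ?_, ?_⟩
    · rw [Finset.coe_filter]
      refine ⟨Finset.mem_range.2 h4, h5, ?_⟩
      by_contra hlt
      rw [not_le] at hlt
      apply hK
      set v := plc (fun i => isM2 bB u x n (L x n) i) C (n + x.length) (L x n) W l (Pool.Agent.H80.Poly.val z) with hv
      have h6 := c1 _ h4 h5 (bitsOf l v) (length_bitsOf l v) (val_bitsOf hlt)
      refine ⟨w ++ bitsOf l v, ?_, ?_⟩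
      · rw [List.length_append, length_bitsOf]
        push_cast
        linarith
      · have h7 := hwP (bitsOf l v) y n hy
        rw [length_bitsOf] at h7
        have h8 : G ((bitsOf l v, y), ((UNat.ofNat n, LU (y, UNat.ofNat n)),
            UNat.ofNat (2 ^ ((LU (y, UNat.ofNat n)).toNat + 3 + 0 - l)))) = s := by
          show u ((bitsOf (L x n) (dec1 (fun i => isM2 bB u x n (L x n) i) C (n + x.length) (L x n)
            (2 ^ (L x n + 3 + 0 - l)) (bitsOf l v)), x), n) = s
          rw [Nat.add_zero, ← hW, h6, h3, hz2]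
        rw [h8] at h7
        refine h7.mono ?_
        show P.eval (l + y.length + n + 2 ^ (L x n + 3 + 0 - l)) ≤ p.eval (y.length + n + 2 ^ L x n / S)
        rw [Nat.add_zero]
        exact hp y n l _ _ e1 e2
    · show u ((bitsOf (L x n) (Pool.Agent.H80.Poly.val z), x), n) = s
      rw [h3, hz2]
  have h9 := (Set.ncard_le_ncard hbad (Set.toFinite _)).trans (Set.ncard_image_le (Set.toFinite _))
  rw [Set.ncard_coe_finset] at h9
  refine (Nat.mul_le_mul h9 (Nat.pow_le_pow_left ?_ C)).trans c2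
  unfold kpar
  omega

/-- all members, with random hash functions; the string `Y a` contains the random string `a` -/
theorem gen3 {U : BM} (hU : Universal U) {B : Set (List Bool × List Bool)}
    (hB : InP (pairEnc (id : List Bool → List Bool)) B) {u : (List Bool × List Bool) × ℕ → List Bool}
    (hu : PolyTimeFun (unEnc (pairEnc (id : List Bool → List Bool))) (id : List Bool → List Bool) u)
    {L : List Bool → ℕ → ℕ}
    (hL : PolyTimeFun (unEnc (id : List Bool → List Bool)) (id : List Bool → List Bool)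
      (fun z : List Bool × ℕ => List.replicate (L z.1 z.2) true))
    {nb xx aa : List Bool → List Bool} (hnb : PolyTime nb) (hxx : PolyTime xx) (haa : PolyTime aa)
    (e : Polynomial ℕ) :
    ∃ (c : ℕ) (p r : Polynomial ℕ), ∀ (x : List Bool) (n : ℕ) (Y : List Bool → List Bool) (t : ℕ),
      (∀ a, a.length = r.eval (x.length + n) → nb (Y a) = encodeNat n ∧ xx (Y a) = x ∧ aa (Y a) = a ∧
        (Y a).length ≤ t) →
      (∀ s ∈ fib B x n, ∃! q : List Bool, q.length = L x n ∧ u ((q, x), n) = s) →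
      2 ^ e.eval (x.length + n) * {a : List Bool | a.length = r.eval (x.length + n) ∧ ¬ ∀ s ∈ fib B x n,
        KLE U (fun _ => p.eval (t + n + 2 ^ L x n / (fib B x n).ncard)) s (Y a)
          (Real.logb 2 (fib B x n).ncard + c)}.ncard ≤ 2 ^ r.eval (x.length + n) := by
  classical
  obtain ⟨bB, hbB, hbs⟩ := inP_pair_iff.1 hB
  obtain ⟨C₀, hC₀⟩ := exists_pow e
  have hu' := idx_u2 hu
  have hL0 := idx_L2 hL
  set LU : List Bool × UNat → UNat := fun z => UNat.ofNat (L (xx z.1) z.2.toNat) with hLU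
  have hL' : PolyTime LU := hL0.comp ((hxx.comp PolyTime.fst').pair PolyTime.snd')
  set C := C₀ + 2 with hC
  set G : (List Bool × List Bool) × ((UNat × UNat) × UNat) → List Bool := fun c =>
    bif c.1.1.headD false then
      u ((dec2 (fun i => isM2 bB u (xx c.1.2) c.2.1.1.toNat c.2.1.2.toNat i) C
        (UNat.ofNat (c.2.1.1.toNat + (UNat.ofNat (xx c.1.2).length).toNat)).toNat c.2.1.2.toNat c.2.2.toNat
        (UNat.ofNat (c.2.1.2.toNat + (UNat.ofNat (e.eval
          (UNat.ofNat (c.2.1.1.toNat + (UNat.ofNat (xx c.1.2).length).toNat)).toNat)).toNat)).toNat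
        (aa c.1.2) c.1.1.tail, xx c.1.2), c.2.1.1.toNat)
    else
      u ((bitsOf c.2.1.2.toNat (dec1 (fun i => isM2 bB u (xx c.1.2) c.2.1.1.toNat c.2.1.2.toNat i) C
        (UNat.ofNat (c.2.1.1.toNat + (UNat.ofNat (xx c.1.2).length).toNat)).toNat c.2.1.2.toNat
        c.2.2.toNat c.1.1.tail), xx c.1.2), c.2.1.1.toNat) with hG
  have hid : PolyTime (fun c : (List Bool × List Bool) × ((UNat × UNat) × UNat) => c) := PolyTime.id
  have hn : PolyTime (fun c : (List Bool × List Bool) × ((UNat × UNat) × UNat) => c.2.1.1) := hid.snd.fst.fst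
  have hl : PolyTime (fun c : (List Bool × List Bool) × ((UNat × UNat) × UNat) => c.2.1.2) := hid.snd.fst.snd
  have hw : PolyTime (fun c : (List Bool × List Bool) × ((UNat × UNat) × UNat) => c.2.2) := hid.snd.snd
  have hq : PolyTime (fun c : (List Bool × List Bool) × ((UNat × UNat) × UNat) => c.1.1) := hid.fst.fst
  have hx : PolyTime (fun c : (List Bool × List Bool) × ((UNat × UNat) × UNat) => xx c.1.2) :=
    hxx.comp hid.fst.snd
  have ha : PolyTime (fun c : (List Bool × List Bool) × ((UNat × UNat) × UNat) => aa c.1.2) :=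
    haa.comp hid.fst.snd
  have hν := PolyTime.unatAdd hn (PolyTime.lengthU hx)
  have hJ := PolyTime.unatAdd hl (PolyTime.unatEval e hν)
  have hGp : PolyTime G := by
    have h1 := poly_dec1 (poly_isM2 hbB hu' hx hn hl) C hν hl hw (PolyTime.tail hq)
    have h2 := poly_bitsOf (PolyTime.unatToNat hl) (PolyTime.unat_bd hl) h1
    have h3 := poly_dec2 (poly_isM2 hbB hu' hx hn hl) C hν hl hw hJ ha (PolyTime.tail hq)
    exact PolyTime.cond (PolyTime.headD false hq) (hu'.comp ((h3.pair hx).pair hn))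
      (hu'.comp ((h2.pair hx).pair hn))
  obtain ⟨w, P, hwP⟩ := slow_run2 hU hnb hL' 1 hGp
  obtain ⟨bL, hLle⟩ := gen_len hL0
  set r : Polynomial ℕ := (bL + e) * bL * bL with hr
  obtain ⟨p, hp⟩ := gen_bound hL' P 3
  refine ⟨w.length + 4, p, r, fun x n Y t hY huniq => ?_⟩
  have hrL : (L x n + e.eval (x.length + n)) * L x n * L x n ≤ r.eval (x.length + n) := by
    rw [hr]
    simp only [Polynomial.eval_mul, Polynomial.eval_add]
    have h1 : L x n ≤ bL.eval (x.length + n) := hLle x n
    gcongr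
  set S := (fib B x n).ncard with hS
  have hfin := fib_finite B x n
  have hfa : {a : List Bool | a.length = r.eval (x.length + n)}.Finite := List.finite_length_eq Bool _
  rcases Nat.eq_zero_or_pos S with h0 | h1
  · have h2 : fib B x n = ∅ := by
      rw [← Set.ncard_eq_zero hfin, ← hS, h0]
    have h3 : {a : List Bool | a.length = r.eval (x.length + n) ∧ ¬ ∀ s ∈ fib B x n,
        KLE U (fun _ => p.eval (t + n + 2 ^ L x n / S)) s (Y a) (Real.logb 2 S + (w.length + 4 : ℕ))} = ∅ := by
      ext a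
      simp only [Set.mem_ofPred_eq, Set.mem_empty_iff_false, iff_false, not_and, not_not]
      intro _ s hs
      rw [h2] at hs
      exact absurd hs (Set.notMem_empty s)
    rw [h3, Set.ncard_empty, Nat.mul_zero]
    exact Nat.zero_le _
  obtain ⟨l, hl2, hSl, hlS, hlog⟩ := exists_len h1
  have hcard := card_isM2 hbs huniq
  rw [← hS] at hcard
  have hSL : S ≤ 2 ^ L x n := by
    rw [← hcard]
    exact (Finset.card_filter_le _ _).trans (by rw [Finset.card_range])
  obtain ⟨e1, e2, e3⟩ := top_W h1 hl2 hSl hlS hSL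
  obtain ⟨c1, c2⟩ := core (b := fun i => isM2 bB u x n (L x n) i) (C := C) (n := n + x.length) hcard h1 hl2 hSl hlS rfl
  set W := 2 ^ (L x n + 3 - l) with hW
  set X := (Finset.range (2 ^ L x n)).filter fun i =>
    isM2 bB u x n (L x n) i = true ∧ 2 ^ l ≤ plc (fun i => isM2 bB u x n (L x n) i) C (n + x.length) (L x n) W l i
    with hX
  have h4S : 4 * S ≤ 2 ^ l := by
    obtain ⟨k, hk⟩ : ∃ k, l = k + 2 := ⟨l - 2, by omega⟩
    rw [hk] at hSl ⊢
    rw [pow_succ, pow_succ]
    rw [Nat.add_sub_cancel] at hSl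
    omega
  set J := L x n + e.eval (x.length + n) with hJdef
  have hK3 : 3 ≤ kpar (n + x.length) (L x n) W := by unfold kpar; omega
  have hK : J + 1 ≤ kpar (n + x.length) (L x n) W ^ C ∧ 2 ≤ kpar (n + x.length) (L x n) W ^ C := by
    have h5 : e.eval (x.length + n) ≤ kpar (n + x.length) (L x n) W ^ C₀ :=
      (hC₀ _).trans (Nat.pow_le_pow_left (by unfold kpar; omega) C₀)
    have h6 : L x n + 1 ≤ kpar (n + x.length) (L x n) W := by unfold kpar; omega
    generalize kpar (n + x.length) (L x n) W = K at hK3 h5 h6 ⊢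
    have h7 : 1 ≤ K ^ C₀ := Nat.one_le_pow _ _ (by omega)
    have h8 : K * 1 ≤ K * K ^ C₀ := Nat.mul_le_mul_left _ h7
    have h9 : 3 * K ^ C₀ ≤ K * K ^ C₀ := Nat.mul_le_mul_right _ hK3
    have h10 : 3 * (K * K ^ C₀) ≤ K * (K * K ^ C₀) := Nat.mul_le_mul_right _ hK3
    have h11 : K ^ C = K * (K * K ^ C₀) := by
      rw [hC, pow_succ, pow_succ]
      ring
    rw [h11]
    constructor <;> omega
  obtain ⟨d1, d2, d3⟩ := dec2_arith (L := L x n) c2 hK.1 hK.2 h4S hSL hW
  set E : Finset (List Bool) := X.image (bitsOf (L x n)) with hE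
  have hEc : E.card ≤ X.card := Finset.card_image_le
  have hEl : ∀ z ∈ E, z.length = L x n := by
    intro z hz
    rw [hE, Finset.mem_image] at hz
    obtain ⟨i, -, rfl⟩ := hz
    exact length_bitsOf _ _
  have hEx : ∀ z : List Bool, z.length = L x n →
      exL (fun i => isM2 bB u x n (L x n) i) C (n + x.length) (L x n) W l z = true → z ∈ E := by
    intro z hz h
    unfold exL at h
    rw [Bool.and_eq_true, decide_eq_true_eq] at h
    rw [hE, Finset.mem_image]
    refine ⟨Pool.Agent.H80.Poly.val z, ?_, ?_⟩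
    · rw [hX, Finset.mem_filter, Finset.mem_range]
      exact ⟨by rw [← hz]; exact val_lt z, h⟩
    · rw [← hz]
      exact bitsOf_val z
  have hmL : mm J (L x n) l ≤ L x n := min_le_right _ _
  refine (Nat.mul_le_mul_left _ (Set.ncard_le_ncard ?_ (hfa.subset fun a ha => ha.1))).trans
    (rnd2 (r := r.eval (x.length + n)) (J := J) (e := e.eval (x.length + n)) E hEl hmL (le_trans (by omega) d1)
      hJdef hrL)
  rintro a ⟨ha1, ha2⟩
  refine ⟨ha1, fun ha3 => ha2 fun s hsm => ?_⟩
  obtain ⟨y1, y2, y3, y4⟩ := hY a ha1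
  obtain ⟨z, ⟨hz1, hz2⟩, -⟩ := huniq s hsm
  have h3 : bitsOf (L x n) (Pool.Agent.H80.Poly.val z) = z := by
    rw [← hz1]
    exact bitsOf_val z
  have h4 : Pool.Agent.H80.Poly.val z < 2 ^ L x n := by
    rw [← hz1]
    exact val_lt z
  have h5 : isM2 bB u x n (L x n) (Pool.Agent.H80.Poly.val z) = true := by
    unfold isM2
    rw [h3, hz2, Bool.and_eq_true, decide_eq_true_eq]
    exact ⟨(hbs _).1 hsm.2, hsm.1⟩
  -- the program for a code `q` of length `l + 1`
  have key : ∀ q : List Bool, q.length = l + 1 →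
      G ((q, Y a), ((UNat.ofNat n, LU (Y a, UNat.ofNat n)), UNat.ofNat W)) = s →
      KLE U (fun _ => p.eval (t + n + 2 ^ L x n / S)) s (Y a) (Real.logb 2 S + (w.length + 4 : ℕ)) := by
    intro q hql hGq
    refine ⟨w ++ q, ?_, ?_⟩
    · rw [List.length_append, hql]
      push_cast
      linarith
    · have h7 := hwP q (Y a) n y1
      rw [hql] at h7
      have h10 : (LU (Y a, UNat.ofNat n)).toNat = L x n := by
        show L (xx (Y a)) n = L x n
        rw [y2]
      have h9 : (LU (Y a, UNat.ofNat n)).toNat + 3 + 1 - (l + 1) = L x n + 3 - l := by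
        rw [h10]
        omega
      rw [h9, ← hW, hGq] at h7
      refine h7.mono ((hp (Y a) n (l + 1) _ _ (by rw [h10]; omega) e2).trans (eval_mono p ?_))
      omega
  have hLx : LU (Y a, UNat.ofNat n) = UNat.ofNat (L x n) := by
    show UNat.ofNat (L (xx (Y a)) n) = UNat.ofNat (L x n)
    rw [y2]
  rcases Nat.lt_or_ge (plc (fun i => isM2 bB u x n (L x n) i) C (n + x.length) (L x n) W l
    (Pool.Agent.H80.Poly.val z)) (2 ^ l) with hlt | hge
  · set v := plc (fun i => isM2 bB u x n (L x n) i) C (n + x.length) (L x n) W l (Pool.Agent.H80.Poly.val z) with hv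
    have h6 := c1 _ h4 h5 (bitsOf l v) (length_bitsOf l v) (val_bitsOf hlt)
    refine key (false :: bitsOf l v) (by rw [List.length_cons, length_bitsOf]) ?_
    rw [hLx]
    show u ((bitsOf (L x n) (dec1 (fun i => isM2 bB u (xx (Y a)) n (L x n) i) C (n + (xx (Y a)).length) (L x n) W
      (bitsOf l v)), xx (Y a)), n) = s
    rw [y2, h6, h3, hz2]
  · have hexz : exL (fun i => isM2 bB u x n (L x n) i) C (n + x.length) (L x n) W l z = true := by
      unfold exL
      rw [Bool.and_eq_true, decide_eq_true_eq]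
      exact ⟨h5, hge⟩
    have hzE := hEx z hz1 hexz
    obtain ⟨j, hj, hiso⟩ := ha3 z hzE
    have hXpos : 1 ≤ X.card := by
      have h8 : 0 < E.card := Finset.card_pos.2 ⟨z, hzE⟩
      omega
    have hml := d2 hXpos
    have h6 := dec2_spec (b := fun i => isM2 bB u x n (L x n) i) (C := C) (n := n + x.length) (a := a) hz1 hexz hj
      hml d3 (fun z' hz' hex' heq => hiso z' (hEx z' hz' hex') heq)
    refine key (true :: (bitsOf (rho J) j ++ (hs (L x n) (mm J (L x n) l) j a z ++
      List.replicate (l - rho J - mm J (L x n) l) false))) ?_ ?_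
    · rw [List.length_cons, List.length_append, List.length_append, length_bitsOf, length_hs hz1 hmL,
        List.length_replicate]
      omega
    · rw [hLx]
      show u ((dec2 (fun i => isM2 bB u (xx (Y a)) n (L x n) i) C (n + (xx (Y a)).length) (L x n) W
        (L x n + e.eval (n + (xx (Y a)).length)) (aa (Y a)) (bitsOf (rho J) j ++
        (hs (L x n) (mm J (L x n) l) j a z ++ List.replicate (l - rho J - mm J (L x n) l) false)), xx (Y a)), n) = s
      rw [y2, y3, Nat.add_comm n x.length, ← hJdef, Nat.add_comm x.length n, h6, hz2]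

end Pool.Agent.H83.DS
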