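import Pool.Agent.H83.DS.NumP
import Pool.Agent.H83.TK.Dec

/-!
# DS.Idx : the hypotheses in terms of `PolyTime`, and the indices of the members of a slice
-/

set_option autoImplicit false

namespace Pool.Agent.H83.DS

open Pool.Agent.H80.Poly Pool.Agent.H72.NP Pool.Agent.H83.TK Turing Computability

/-- the enumerating function as a `PolyTime` function -/
theorem idx_u {u : List Bool × ℕ → List Bool}
    (hu : PolyTimeFun (unEnc (id : List Bool → List Bool)) (id : List Bool → List Bool) u) :
    PolyTime (fun a : List Bool × UNat => u (a.1, a.2.toNat)) := by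
  obtain ⟨g, hg, hgu⟩ := exists_poly_of_fun hu
  have h1 : PolyTime (fun a : List Bool × UNat => pairEnc (id : List Bool → List Bool)
      (a.1, List.replicate a.2.toNat true)) := by
    refine poly_pairEnc PolyTime.fst' ?_
    exact PolyTime.replicate (PolyTime.unatToNat PolyTime.snd') (PolyTime.unat_bd PolyTime.snd') (PolyTime.const true)
  exact (hg.comp h1).congr fun a => hgu (a.1, a.2.toNat)

/-- the length function as a `PolyTime` function -/
theorem idx_L {L : ℕ → ℕ}
    (hL : PolyTimeFun (id : List Bool → List Bool) (id : List Bool → List Bool)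
      (fun x => List.replicate (L x.length) true)) :
    PolyTime (fun n : UNat => UNat.ofNat (L n.toNat)) := by
  obtain ⟨g, hg, hgL⟩ := exists_poly_of_fun hL
  have h1 : PolyTime (fun n : UNat => List.replicate n.toNat true) :=
    PolyTime.replicate (PolyTime.unatToNat PolyTime.id) (PolyTime.unat_bd PolyTime.id) (PolyTime.const true)
  refine (PolyTime.lengthU (hg.comp h1)).congr fun n => ?_
  have h2 := hgL (List.replicate n.toNat true)
  simp only [id, List.length_replicate] at h2
  show UNat.ofNat (g (List.replicate n.toNat true)).length = _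
  rw [h2, List.length_replicate]

/-- the index `i` (length `L`) is the index of a member of length `n` -/
def isM (bA : List Bool → Bool) (u : List Bool × ℕ → List Bool) (n L i : ℕ) : Bool :=
  bA (u (bitsOf L i, n)) && decide ((u (bitsOf L i, n)).length = n)

theorem poly_isM {bA : List Bool → Bool} (hb : PolyTime bA) {u : List Bool × ℕ → List Bool}
    (hu : PolyTime (fun a : List Bool × UNat => u (a.1, a.2.toNat))) {α : Type} [BEnc α] {n L : α → UNat}
    (hn : PolyTime n) (hL : PolyTime L) :
    PolyTime (fun c : α × ℕ => isM bA u (n c.1).toNat (L c.1).toNat c.2) := by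
  have h1 : PolyTime (fun c : α × ℕ => bitsOf (L c.1).toNat c.2) := by
    refine poly_bitsOf (PolyTime.unatToNat (hL.comp PolyTime.fst')) ?_ PolyTime.snd'
    exact PolyTime.unat_bd (hL.comp PolyTime.fst')
  have h2 : PolyTime (fun c : α × ℕ => u (bitsOf (L c.1).toNat c.2, (n c.1).toNat)) :=
    hu.comp (h1.pair (hn.comp PolyTime.fst'))
  exact (hb.comp h2).and (PolyTime.eq (PolyTime.length h2) (PolyTime.unatToNat (hn.comp PolyTime.fst')))

theorem slice_finite (A : Set (List Bool)) (n : ℕ) : (slice A n).Finite :=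
  (List.finite_length_eq Bool n).subset fun _ hs => hs.2

/-- the number of indices of members -/
theorem card_isM {A : Set (List Bool)} {bA : List Bool → Bool} (hbA : ∀ s, s ∈ A ↔ bA s = true)
    {u : List Bool × ℕ → List Bool} {n L : ℕ} (h : ∀ s ∈ slice A n, ∃! q : List Bool, q.length = L ∧ u (q, n) = s) :
    ((Finset.range (2 ^ L)).filter fun i => isM bA u n L i = true).card = (slice A n).ncard := by
  classical
  rw [← Set.ncard_coe_finset]
  refine Set.ncard_congr (fun i _ => u (bitsOf L i, n)) ?_ ?_ ?_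
  · intro i hi
    simp only [Finset.coe_filter, Finset.mem_range, Set.mem_setOf_eq, isM, Bool.and_eq_true, decide_eq_true_eq] at hi
    exact ⟨(hbA _).2 hi.2.1, hi.2.2⟩
  · intro i j hi hj hij
    simp only [Finset.coe_filter, Finset.mem_range, Set.mem_setOf_eq, isM, Bool.and_eq_true, decide_eq_true_eq] at hi hj
    obtain ⟨q, -, hq⟩ := h (u (bitsOf L i, n)) ⟨(hbA _).2 hi.2.1, hi.2.2⟩
    have h1 := hq (bitsOf L i) ⟨length_bitsOf L i, rfl⟩
    have h2 := hq (bitsOf L j) ⟨length_bitsOf L j, hij.symm⟩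
    rw [← val_bitsOf hi.1, ← val_bitsOf hj.1, h1, h2]
  · intro s hs
    obtain ⟨q, ⟨hq1, hq2⟩, -⟩ := h s hs
    have h3 : bitsOf L (Pool.Agent.H80.Poly.val q) = q := by
      rw [← hq1]
      exact bitsOf_val q
    have h4 : Pool.Agent.H80.Poly.val q < 2 ^ L := by
      rw [← hq1]
      exact val_lt q
    refine ⟨Pool.Agent.H80.Poly.val q, ?_, ?_⟩
    · simp only [Finset.coe_filter, Finset.mem_range, Set.mem_setOf_eq, isM, Bool.and_eq_true, decide_eq_true_eq]
      rw [h3, hq2]
      exact ⟨h4, (hbA _).1 hs.1, hs.2⟩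
    · show u (bitsOf L (Pool.Agent.H80.Poly.val q), n) = s
      rw [h3, hq2]

/-- the length of the codes: `S ≤ 2^(l-2) < 2 S`, `l ≥ 2`, `l ≤ log S + 3` -/
theorem exists_len {S : ℕ} (h1 : 1 ≤ S) : ∃ l : ℕ, 2 ≤ l ∧ S ≤ 2 ^ (l - 2) ∧ 2 ^ (l - 2) < 2 * S ∧
    (l : ℝ) ≤ Real.logb 2 S + 3 := by
  refine ⟨Nat.clog 2 S + 2, by omega, ?_, ?_, ?_⟩
  · rw [Nat.add_sub_cancel]
    exact Nat.le_pow_clog (by norm_num) S
  · rw [Nat.add_sub_cancel]
    rcases Nat.lt_or_ge 1 S with h | h
    · have h2 := Nat.pow_pred_clog_lt_self (b := 2) (by norm_num) h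
      have h3 : 0 < Nat.clog 2 S := Nat.clog_pos (by norm_num) h
      obtain ⟨k, hk⟩ : ∃ k, Nat.clog 2 S = k + 1 := ⟨Nat.clog 2 S - 1, by omega⟩
      rw [hk] at h2 ⊢
      rw [pow_succ]
      simp only [Nat.pred_succ, Nat.add_sub_cancel] at h2
      omega
    · have h2 : S = 1 := by omega
      rw [h2, Nat.clog_one_right]
      norm_num
  · have hS : (0 : ℝ) < S := by exact_mod_cast h1
    have h2 : 2 ^ Nat.clog 2 S ≤ 2 * S := by
      rcases Nat.lt_or_ge 1 S with h | h
      · have h2 := Nat.pow_pred_clog_lt_self (b := 2) (by norm_num) h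
        have h3 : 0 < Nat.clog 2 S := Nat.clog_pos (by norm_num) h
        obtain ⟨k, hk⟩ : ∃ k, Nat.clog 2 S = k + 1 := ⟨Nat.clog 2 S - 1, by omega⟩
        rw [hk] at h2 ⊢
        rw [pow_succ]
        simp only [Nat.pred_succ, Nat.add_sub_cancel] at h2
        omega
      · have h2 : S = 1 := by omega
        rw [h2, Nat.clog_one_right]
        norm_num
    have h3 : (2 : ℝ) ^ (Nat.clog 2 S : ℝ) ≤ 2 * S := by
      rw [Real.rpow_natCast]
      exact_mod_cast h2
    have h4 : (Nat.clog 2 S : ℝ) ≤ Real.logb 2 (2 * S) := by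
      rw [Real.le_logb_iff_rpow_le (by norm_num) (by positivity)]
      exact h3
    rw [Real.logb_mul (by norm_num) hS.ne', Real.logb_self_eq_one (by norm_num)] at h4
    push_cast
    linarith

end Pool.Agent.H83.DS
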