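import Pool.Agent.H83.DS.Def

/-!
# DS.Sel : elementary facts on `sel` and `mem` (lists; about 120 lines)

`sel D j l` = the elements of `l` whose position is `j` modulo `D`; induct on `l` with `zipIdx` starting at an arbitrary number
(generalise: `l.zipIdx k`), or through `List.range`.  `mem a M B c` = the `i = c + M m`, `m < B`, with `a i`.
-/

set_option autoImplicit false

namespace Pool.Agent.H83.DS

private theorem Sel_concat (D j : ℕ) (l : List ℕ) (a : ℕ) :
    sel D j (l ++ [a]) = sel D j l ++ if l.length % D = j then [a] else [] := by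
  unfold sel
  rw [List.zipIdx_append]
  simp only [List.zipIdx_cons, List.zipIdx_nil, List.filter_append, List.map_append, zero_add]
  congr 1
  by_cases h : l.length % D = j
  · simp [h]
  · simp [h]

private theorem Sel_length (D j : ℕ) (l : List ℕ) :
    (sel D j l).length = Nat.count (fun i => i % D = j) l.length := by
  induction l using List.reverseRecOn with
  | nil => simp [sel]
  | append_singleton l a ih =>
    rw [Sel_concat, List.length_append, ih, List.length_append, List.length_singleton,
      Nat.count_succ]
    by_cases h : l.length % D = j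
    · simp [h]
    · simp [h]

theorem length_sel_le {D : ℕ} (hD : 0 < D) (j : ℕ) (l : List ℕ) : (sel D j l).length ≤ l.length / D + 1 := by
  rw [Sel_length]
  by_cases hj : j < D
  · have h := Nat.count_modEq_card l.length hD j
    have e : Nat.count (fun i => i % D = j) l.length = Nat.count (fun i => i ≡ j [MOD D]) l.length := by
      rw [Nat.count_eq_card_filter_range, Nat.count_eq_card_filter_range]
      congr 1
      apply Finset.filter_congr
      intro i _
      unfold Nat.ModEq
      rw [Nat.mod_eq_of_lt hj]
    rw [e, h]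
    split_ifs <;> omega
  · have e : Nat.count (fun i => i % D = j) l.length = 0 := by
      rw [Nat.count_eq_card_filter_range, Finset.card_eq_zero, Finset.filter_eq_empty_iff]
      intro i _ h
      have := Nat.mod_lt i hD
      omega
    rw [e]
    exact Nat.zero_le _

theorem mem_sel {D r i : ℕ} {l : List ℕ} (h : l[r]? = some i) : i ∈ sel D (r % D) l := by
  unfold sel
  rw [List.mem_map]
  refine ⟨(i, r), ?_, rfl⟩
  rw [List.mem_filter]
  refine ⟨?_, by simp⟩
  rw [List.mk_mem_zipIdx_iff_getElem?]
  exact h

theorem mem_of_mem_sel {D j i : ℕ} {l : List ℕ} (h : i ∈ sel D j l) : i ∈ l := by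
  unfold sel at h
  rw [List.mem_map] at h
  obtain ⟨⟨a, r⟩, h1, h2⟩ := h
  rw [List.mem_filter] at h1
  have h3 := List.mk_mem_zipIdx_iff_getElem?.1 h1.1
  have h4 : a = i := h2
  rw [← h4]
  exact List.mem_of_getElem? h3

theorem sum_length_sel {D : ℕ} (hD : 0 < D) (l : List ℕ) :
    ((List.range D).map fun j => (sel D j l).length).sum = l.length := by
  induction l using List.reverseRecOn with
  | nil => simp [sel]
  | append_singleton l a ih =>
    have e : (fun j => (sel D j (l ++ [a])).length)
        = fun j => (sel D j l).length + if l.length % D = j then 1 else 0 := by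
      funext j
      rw [Sel_concat, List.length_append]
      by_cases h : l.length % D = j
      · simp [h]
      · simp [h]
    rw [e, List.sum_map_add, ih, List.length_append, List.length_singleton]
    congr 1
    have : ((List.range D).map fun j => if l.length % D = j then 1 else 0).sum
        = ∑ j ∈ Finset.range D, if l.length % D = j then 1 else 0 := rfl
    rw [this, Finset.sum_ite_eq, if_pos]
    rw [Finset.mem_range]
    exact Nat.mod_lt _ hD

theorem mem_mem {a : ℕ → Bool} {M B c i : ℕ} :
    i ∈ mem a M B c ↔ a i = true ∧ ∃ m < B, i = c + M * m := by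
  unfold mem
  rw [List.mem_filter, List.mem_map]
  constructor
  · rintro ⟨⟨m, hm, rfl⟩, h⟩
    exact ⟨h, m, List.mem_range.1 hm, rfl⟩
  · rintro ⟨h, m, hm, rfl⟩
    exact ⟨⟨m, List.mem_range.2 hm, rfl⟩, h⟩

theorem length_mem_le (a : ℕ → Bool) (M B c : ℕ) : (mem a M B c).length ≤ B := by
  unfold mem
  refine (List.length_filter_le _ _).trans ?_
  simp

theorem mem_self {a : ℕ → Bool} {M B T i : ℕ} (hM : 0 < M) (ha : ∀ i, a i = true → i < T) (hB : T ≤ M * B)
    (hi : a i = true) : i ∈ mem a M B (i % M) := by
  rw [mem_mem]
  refine ⟨hi, i / M, ?_, (Nat.mod_add_div i M).symm⟩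
  exact Nat.div_lt_of_lt_mul ((ha i hi).trans_le hB)

private theorem Sel_nodup (a : ℕ → Bool) {M : ℕ} (hM : 0 < M) (B c : ℕ) : (mem a M B c).Nodup := by
  unfold mem
  apply List.Nodup.filter
  apply List.Nodup.map _ List.nodup_range
  intro m m' h
  have h' : c + M * m = c + M * m' := h
  exact Nat.eq_of_mul_eq_mul_left hM (by omega)

theorem sum_length_mem {a : ℕ → Bool} {M B T : ℕ} (hM : 0 < M) (ha : ∀ i, a i = true → i < T) (hB : T ≤ M * B) :
    ∑ c ∈ Finset.range M, (mem a M B c).length = ((Finset.range T).filter fun i => a i = true).card := by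
  rw [Finset.card_eq_sum_card_fiberwise (f := fun i => i % M) (t := Finset.range M)]
  · apply Finset.sum_congr rfl
    intro c hc
    rw [← List.toFinset_card_of_nodup (Sel_nodup a hM B c)]
    congr 1
    ext i
    rw [List.mem_toFinset, mem_mem, Finset.mem_filter, Finset.mem_filter, Finset.mem_range]
    constructor
    · rintro ⟨h1, m, hm, rfl⟩
      refine ⟨⟨ha _ h1, h1⟩, ?_⟩
      rw [Nat.add_mul_mod_self_left, Nat.mod_eq_of_lt (Finset.mem_range.1 hc)]
    · rintro ⟨⟨h1, h2⟩, rfl⟩
      refine ⟨h2, i / M, ?_, (Nat.mod_add_div i M).symm⟩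
      exact Nat.div_lt_of_lt_mul (h1.trans_le hB)
  · intro i _
    exact Finset.mem_coe.2 (Finset.mem_range.2 (Nat.mod_lt i hM))

end Pool.Agent.H83.DS
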