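import Mathlib

/-!
# DS.Sharp : black-box methods need time about `2^n / |A|`, also for most members

Decision trees with membership queries (`QTree`). If there are fewer than `2^(l+1) ≤ 2^(c+1) S` codes `v`, each with a tree of depth `q`, and
`2^(c+2) (q+1) S ≤ 2^n`, then some `A` of size `S` is such that at most half of its members are outputs: take a random translate of a fixed set of
size `S`; the output of the tree `T v` on `A` can be in `A` only if `A` contains one of the `≤ q + 1` strings on its path with all answers no.

Second part: if every tree has at most `r` different outputs (for example if the queries are fixed in advance and the output is one of the queried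
strings or a fixed string, `r = q + 1`), then for every size `S > r q` some `A` of size `S` has a member that is not reached by codes of length
`≤ n - 2`: in the world of all strings of length `n` less than half of the strings are reached; some `s` that is not reached is a possible output
of at most `r` trees only, and `A` contains `s` and the strings of length `n` queried by these trees in that world. -/

set_option autoImplicit false

namespace Pool.Agent.H83.DS

/-- A query algorithm: an output, or a membership query with two continuations. -/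
inductive QTree : Type
  /-- output -/
  | out : List Bool → QTree
  /-- query, continuation for the answer yes, continuation for the answer no -/
  | ask : List Bool → QTree → QTree → QTree

open Classical in
/-- the output of the query algorithm on the set `A` -/
noncomputable def QTree.run (A : Set (List Bool)) : QTree → List Bool
  | QTree.out s => s
  | QTree.ask s y n => if s ∈ A then QTree.run A y else QTree.run A n

/-- the maximal number of queries -/
def QTree.depth : QTree → ℕ
  | QTree.out _ => 0
  | QTree.ask _ y n => max (QTree.depth y) (QTree.depth n) + 1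

/-- the strings on the path with all answers no, and the output there -/
private def QTree.path : QTree → List (List Bool)
  | QTree.out s => [s]
  | QTree.ask s _ n => s :: QTree.path n

private theorem QTree.length_path (t : QTree) : (QTree.path t).length ≤ t.depth + 1 := by
  induction t with
  | out s => simp [QTree.path]
  | ask s y n _ ih =>
    show (QTree.path n).length + 1 ≤ max y.depth n.depth + 1 + 1
    have := le_max_right y.depth n.depth
    omega

private theorem QTree.run_mem {A : Set (List Bool)} {t : QTree} (h : t.run A ∈ A) : ∃ z ∈ t.path, z ∈ A := by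
  induction t with
  | out s => exact ⟨s, List.mem_singleton.2 rfl, h⟩
  | ask s y n _ ih =>
    by_cases hs : s ∈ A
    · exact ⟨s, List.mem_cons_self, hs⟩
    · have h1 : n.run A ∈ A := by
        have h2 : (QTree.ask s y n).run A = n.run A := if_neg hs
        rw [← h2]
        exact h
      obtain ⟨z, hz, hzA⟩ := ih h1
      exact ⟨z, List.mem_cons_of_mem _ hz, hzA⟩

private theorem sharp_codes (l : ℕ) : ∃ F : Finset (List Bool), (∀ v : List Bool, v.length ≤ l → v ∈ F) ∧ F.card ≤ 2 ^ (l + 1) := by
  classical
  induction l with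
  | zero =>
    refine ⟨{[]}, fun v hv => ?_, by simp⟩
    rw [Finset.mem_singleton]
    exact List.length_eq_zero_iff.1 (Nat.le_zero.1 hv)
  | succ l ih =>
    obtain ⟨F, hF, hc⟩ := ih
    refine ⟨F ∪ (Finset.univ : Finset (List.Vector Bool (l + 1))).image (fun v => v.toList), fun v hv => ?_, ?_⟩
    · rw [Finset.mem_union]
      rcases Nat.lt_or_ge v.length (l + 1) with h | h
      · exact Or.inl (hF v (by omega))
      · right
        rw [Finset.mem_image]
        exact ⟨⟨v, by omega⟩, Finset.mem_univ _, rfl⟩
    · refine (Finset.card_union_le _ _).trans ?_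
      have h1 : ((Finset.univ : Finset (List.Vector Bool (l + 1))).image (fun v => v.toList)).card ≤ 2 ^ (l + 1) := by
        refine Finset.card_image_le.trans ?_
        rw [Finset.card_univ, card_vector]
        simp
      rw [pow_succ 2 (l + 1)]
      omega

/-- Fewer than `2^n / (2^(c+2) S)` queries reach at most half of the members of some set of size `S`. -/
theorem sharp (n S l q c : ℕ) (hl : 2 ^ l ≤ 2 ^ c * S) (hq : 2 ^ (c + 2) * ((q + 1) * S) ≤ 2 ^ n)
    (T : List Bool → QTree) (hT : ∀ v, (T v).depth ≤ q) :
    ∃ A : Set (List Bool), (∀ s ∈ A, s.length = n) ∧ A.ncard = S ∧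
      2 * {s | s ∈ A ∧ ∃ v : List Bool, v.length ≤ l ∧ (T v).run A = s}.ncard ≤ S := by
  classical
  have hS2 : S ≤ 2 ^ n := by
    refine le_trans ?_ hq
    calc S = 1 * (1 * S) := by ring
      _ ≤ 2 ^ (c + 2) * ((q + 1) * S) :=
        Nat.mul_le_mul (Nat.one_le_two_pow) (Nat.mul_le_mul_right _ (by omega))
  obtain ⟨F, hF, hFc⟩ := sharp_codes l
  have : NeZero (2 ^ n) := ⟨by positivity⟩
  -- the strings of length `n` as a group
  have hcard : Fintype.card (List.Vector Bool n) = Fintype.card (ZMod (2 ^ n)) := by
    rw [card_vector, ZMod.card]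
    simp
  let φ : List.Vector Bool n ≃ ZMod (2 ^ n) := Fintype.equivOfCardEq hcard
  obtain ⟨A₀, -, hA₀⟩ : ∃ A₀ ⊆ (Finset.univ : Finset (ZMod (2 ^ n))), A₀.card = S :=
    Finset.exists_subset_card_eq (by rw [Finset.card_univ, ZMod.card]; exact hS2)
  let A : ZMod (2 ^ n) → Set (List Bool) := fun g => {s | ∃ v : List.Vector Bool n, v.toList = s ∧ φ v - g ∈ A₀}
  have hAc : ∀ g, (A g).ncard = S := by
    intro g
    have h1 : A g = (fun x : ZMod (2 ^ n) => (φ.symm (x + g)).toList) '' (A₀ : Set (ZMod (2 ^ n))) := by
      ext s
      constructor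
      · rintro ⟨v, rfl, hv⟩
        exact ⟨φ v - g, hv, by simp⟩
      · rintro ⟨x, hx, rfl⟩
        exact ⟨φ.symm (x + g), rfl, by simpa using hx⟩
    rw [h1, Set.ncard_image_of_injective, Set.ncard_coe_finset, hA₀]
    intro x y h
    have h2 := φ.symm.injective (List.Vector.toList_injective h)
    exact add_right_cancel h2
  have hAl : ∀ g, ∀ s ∈ A g, s.length = n := by
    rintro g s ⟨v, rfl, -⟩
    exact v.2
  -- a string is in at most `S` of the sets
  have hz : ∀ z : List Bool, ((Finset.univ : Finset (ZMod (2 ^ n))).filter fun g => z ∈ A g).card ≤ S := by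
    intro z
    by_cases hzl : z.length = n
    · have h1 : ((Finset.univ : Finset (ZMod (2 ^ n))).filter fun g => z ∈ A g) ⊆ A₀.image fun x => φ ⟨z, hzl⟩ - x := by
        intro g hg
        rw [Finset.mem_filter] at hg
        obtain ⟨v, hv, hg2⟩ := hg.2
        rw [Finset.mem_image]
        refine ⟨φ v - g, hg2, ?_⟩
        have h2 : v = ⟨z, hzl⟩ := by
          apply List.Vector.toList_injective
          exact hv
        rw [h2]
        ring
      exact (Finset.card_le_card h1).trans (Finset.card_image_le.trans hA₀.le)
    · rw [Finset.filter_false_of_mem]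
      · simp
      · intro g _ hg
        exact hzl (hAl g z hg)
  -- double counting
  let f : ZMod (2 ^ n) → ℕ := fun g => (F.filter fun v => (T v).run (A g) ∈ A g).card
  have hsum : ∑ g, f g ≤ 2 ^ (l + 1) * ((q + 1) * S) := by
    have h1 : ∑ g, f g = ∑ v ∈ F, ((Finset.univ : Finset (ZMod (2 ^ n))).filter fun g => (T v).run (A g) ∈ A g).card := by
      simp only [f, Finset.card_filter]
      exact Finset.sum_comm
    rw [h1]
    refine (Finset.sum_le_card_nsmul _ _ ((q + 1) * S) fun v _ => ?_).trans ?_
    · have h2 : ((Finset.univ : Finset (ZMod (2 ^ n))).filter fun g => (T v).run (A g) ∈ A g) ⊆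
          (T v).path.toFinset.biUnion fun z => (Finset.univ : Finset (ZMod (2 ^ n))).filter fun g => z ∈ A g := by
        intro g hg
        rw [Finset.mem_filter] at hg
        obtain ⟨z, hz1, hz2⟩ := QTree.run_mem hg.2
        rw [Finset.mem_biUnion]
        exact ⟨z, List.mem_toFinset.2 hz1, Finset.mem_filter.2 ⟨Finset.mem_univ _, hz2⟩⟩
      refine (Finset.card_le_card h2).trans (Finset.card_biUnion_le.trans ?_)
      refine (Finset.sum_le_card_nsmul _ _ S fun z _ => hz z).trans ?_
      rw [smul_eq_mul]
      refine Nat.mul_le_mul_right _ ((List.toFinset_card_le _).trans ((QTree.length_path _).trans ?_))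
      have := hT v
      omega
    · rw [smul_eq_mul]
      exact Nat.mul_le_mul_right _ hFc
  -- a good translate
  obtain ⟨g, -, hg⟩ : ∃ g ∈ (Finset.univ : Finset (ZMod (2 ^ n))), 2 * f g ≤ S := by
    by_contra hcon
    push Not at hcon
    have h1 : ∑ g : ZMod (2 ^ n), (S + 1) ≤ ∑ g : ZMod (2 ^ n), 2 * f g :=
      Finset.sum_le_sum fun g hg => hcon g hg
    rw [Finset.sum_const, Finset.card_univ, ZMod.card, smul_eq_mul, ← Finset.mul_sum] at h1
    have h2 : 2 * ∑ g, f g ≤ 2 ^ n * S := by
      calc 2 * ∑ g, f g ≤ 2 * (2 ^ (l + 1) * ((q + 1) * S)) := Nat.mul_le_mul_left _ hsum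
        _ = 4 * 2 ^ l * ((q + 1) * S) := by rw [pow_succ]; ring
        _ ≤ 4 * (2 ^ c * S) * ((q + 1) * S) := Nat.mul_le_mul_right _ (Nat.mul_le_mul_left _ hl)
        _ = (2 ^ (c + 2) * ((q + 1) * S)) * S := by rw [pow_add]; ring
        _ ≤ 2 ^ n * S := Nat.mul_le_mul_right _ hq
    have h3 : 0 < 2 ^ n := by positivity
    nlinarith
  refine ⟨A g, hAl g, hAc g, ?_⟩
  refine le_trans (Nat.mul_le_mul_left 2 ?_) hg
  have h1 : {s | s ∈ A g ∧ ∃ v : List Bool, v.length ≤ l ∧ (T v).run (A g) = s} ⊆
      ((((F.filter fun v => (T v).run (A g) ∈ A g).image fun v => (T v).run (A g)) : Finset (List Bool)) :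
        Set (List Bool)) := by
    rintro s ⟨hs, v, hv, rfl⟩
    rw [Finset.mem_coe, Finset.mem_image]
    exact ⟨v, Finset.mem_filter.2 ⟨hF v hv, hs⟩, rfl⟩
  refine (Set.ncard_le_ncard h1 (Set.toFinite _)).trans ?_
  rw [Set.ncard_coe_finset]
  exact Finset.card_image_le

open Classical in
/-- the queries with answer yes -/
private noncomputable def QTree.ypath (A : Set (List Bool)) : QTree → List (List Bool)
  | QTree.out _ => []
  | QTree.ask s y n => if s ∈ A then s :: QTree.ypath A y else QTree.ypath A n

private theorem QTree.length_ypath (A : Set (List Bool)) (t : QTree) : (QTree.ypath A t).length ≤ t.depth := by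
  induction t with
  | out s => simp [QTree.ypath]
  | ask s y n ih1 ih2 =>
    have h1 := le_max_left y.depth n.depth
    have h2 := le_max_right y.depth n.depth
    show (QTree.ypath A (QTree.ask s y n)).length ≤ max y.depth n.depth + 1
    by_cases hs : s ∈ A
    · rw [QTree.ypath, if_pos hs, List.length_cons]
      omega
    · rw [QTree.ypath, if_neg hs]
      omega

private theorem QTree.run_eq {A F : Set (List Bool)} (hAF : A ⊆ F) {t : QTree} (h : ∀ z ∈ QTree.ypath F t, z ∈ A) :
    t.run A = t.run F := by
  induction t with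
  | out s => rfl
  | ask s y n ih1 ih2 =>
    by_cases hs : s ∈ F
    · rw [QTree.ypath, if_pos hs] at h
      have h1 : s ∈ A := h s List.mem_cons_self
      rw [QTree.run, QTree.run, if_pos hs, if_pos h1]
      exact ih1 fun z hz => h z (List.mem_cons_of_mem _ hz)
    · rw [QTree.ypath, if_neg hs] at h
      have h1 : s ∉ A := fun h1 => hs (hAF h1)
      rw [QTree.run, QTree.run, if_neg hs, if_neg h1]
      exact ih2 h

private theorem QTree.outs_finite (t : QTree) : {s | ∃ B : Set (List Bool), t.run B = s}.Finite := by
  induction t with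
  | out s =>
    refine (Set.finite_singleton s).subset ?_
    rintro z ⟨B, hB⟩
    exact hB.symm
  | ask s y n ih1 ih2 =>
    refine (ih1.union ih2).subset ?_
    rintro z ⟨B, hB⟩
    by_cases hs : s ∈ B
    · rw [QTree.run, if_pos hs] at hB
      exact Or.inl ⟨B, hB⟩
    · rw [QTree.run, if_neg hs] at hB
      exact Or.inr ⟨B, hB⟩

/-- Trees with at most `r` possible outputs each do not reach all members of all sets of size `S`, if `r q < S`. -/
theorem sharp_all (n S l q r : ℕ) (hl : l + 2 ≤ n) (hS : r * q + 1 ≤ S) (hS2 : S ≤ 2 ^ n)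
    (T : List Bool → QTree) (hT : ∀ v, (T v).depth ≤ q)
    (hr : ∀ v, {s | ∃ B : Set (List Bool), (T v).run B = s}.ncard ≤ r) :
    ∃ A : Set (List Bool), (∀ s ∈ A, s.length = n) ∧ A.ncard = S ∧
      ∃ s ∈ A, ∀ v : List Bool, v.length ≤ l → (T v).run A ≠ s := by
  classical
  obtain ⟨F, hF, hFc⟩ := sharp_codes l
  set V : Finset (List Bool) := (Finset.univ : Finset (List.Vector Bool n)).image fun v => v.toList with hV
  have hVm : ∀ s : List Bool, s ∈ V ↔ s.length = n := by
    intro s
    rw [hV, Finset.mem_image]
    constructor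
    · rintro ⟨v, -, rfl⟩
      exact v.2
    · intro h
      exact ⟨⟨s, h⟩, Finset.mem_univ _, rfl⟩
  have hVc : V.card = 2 ^ n := by
    rw [hV, Finset.card_image_of_injective _ List.Vector.toList_injective, Finset.card_univ, card_vector]
    simp
  -- the world of all strings of length `n`
  set Un := V \ F.image fun v => (T v).run (V : Set (List Bool)) with hUn
  have hn : 2 ^ n = 2 ^ (n - 1) + 2 ^ (n - 1) := by
    obtain ⟨k, hk⟩ : ∃ k, n = k + 1 := ⟨n - 1, by omega⟩
    rw [hk, Nat.add_sub_cancel, pow_succ]
    ring
  have hF2 : F.card ≤ 2 ^ (n - 1) := hFc.trans (Nat.pow_le_pow_right (by norm_num) (by omega))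
  have hUc : 2 ^ (n - 1) ≤ Un.card := by
    have h1 := Finset.le_card_sdiff (F.image fun v => (T v).run (V : Set (List Bool))) V
    have h2 : (F.image fun v => (T v).run (V : Set (List Bool))).card ≤ F.card := Finset.card_image_le
    rw [hVc] at h1
    rw [hUn]
    omega
  have hpos : 0 < 2 ^ (n - 1) := by positivity
  have hOut : ∀ v, ((QTree.outs_finite (T v)).toFinset).card ≤ r := by
    intro v
    rw [← Set.ncard_eq_toFinset_card _ (QTree.outs_finite (T v))]
    exact hr v
  obtain ⟨s₀, hs₀, hsl⟩ : ∃ s₀ ∈ Un, (F.filter fun v => s₀ ∈ (QTree.outs_finite (T v)).toFinset).card ≤ r := by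
    by_contra hcon
    push Not at hcon
    have h1 : ∑ s ∈ Un, (r + 1) ≤ ∑ s ∈ Un, (F.filter fun v => s ∈ (QTree.outs_finite (T v)).toFinset).card :=
      Finset.sum_le_sum fun s hs => hcon s hs
    have h2 : ∑ s ∈ Un, (F.filter fun v => s ∈ (QTree.outs_finite (T v)).toFinset).card =
        ∑ v ∈ F, (Un.filter fun s => s ∈ (QTree.outs_finite (T v)).toFinset).card := by
      simp only [Finset.card_filter]
      exact Finset.sum_comm
    have h3 : ∑ v ∈ F, (Un.filter fun s => s ∈ (QTree.outs_finite (T v)).toFinset).card ≤ F.card * r := by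
      rw [← smul_eq_mul]
      refine Finset.sum_le_card_nsmul _ _ r fun v _ => ?_
      refine (Finset.card_le_card ?_).trans (hOut v)
      intro s hs
      exact (Finset.mem_filter.1 hs).2
    rw [h2, Finset.sum_const, smul_eq_mul] at h1
    have h4 : 2 ^ (n - 1) * (r + 1) ≤ 2 ^ (n - 1) * r :=
      (Nat.mul_le_mul_right _ hUc).trans (h1.trans (h3.trans (Nat.mul_le_mul_right _ hF2)))
    have h5 := Nat.le_of_mul_le_mul_left h4 hpos
    omega
  set Fr := F.filter fun v => s₀ ∈ (QTree.outs_finite (T v)).toFinset with hFr
  set Y : Finset (List Bool) := insert s₀ (Fr.biUnion fun v => (QTree.ypath (V : Set (List Bool)) (T v)).toFinset.filter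
    fun z => z ∈ V) with hY
  have hYc : Y.card ≤ S := by
    refine (Finset.card_insert_le _ _).trans (le_trans (Nat.add_le_add_right ?_ 1) hS)
    refine Finset.card_biUnion_le.trans ?_
    refine (Finset.sum_le_card_nsmul _ _ q fun v _ => ?_).trans ?_
    · exact (Finset.card_filter_le _ _).trans ((List.toFinset_card_le _).trans ((QTree.length_ypath _ _).trans (hT v)))
    · rw [smul_eq_mul]
      exact Nat.mul_le_mul_right _ hsl
  have hYV : Y ⊆ V := by
    intro z hz
    rw [hY, Finset.mem_insert] at hz
    rcases hz with rfl | hz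
    · exact (Finset.mem_sdiff.1 hs₀).1
    · rw [Finset.mem_biUnion] at hz
      obtain ⟨v, -, hz⟩ := hz
      exact (Finset.mem_filter.1 hz).2
  obtain ⟨A, hYA, hAV, hAc⟩ := Finset.exists_subsuperset_card_eq hYV hYc (by rw [hVc]; exact hS2)
  refine ⟨(A : Set (List Bool)), fun s hs => (hVm s).1 (hAV hs), ?_, s₀, ?_, ?_⟩
  · rw [Set.ncard_coe_finset, hAc]
  · exact hYA (Finset.mem_insert_self _ _)
  · intro v hv heq
    have h1 : v ∈ Fr := by
      rw [hFr, Finset.mem_filter]
      refine ⟨hF v hv, ?_⟩
      rw [Set.Finite.mem_toFinset]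
      exact ⟨_, heq⟩
    have h2 : (T v).run (A : Set (List Bool)) = (T v).run (V : Set (List Bool)) := by
      refine QTree.run_eq (fun z hz => hAV hz) fun z hz => ?_
      refine hYA (Finset.mem_insert_of_mem (Finset.mem_biUnion.2 ⟨v, h1, Finset.mem_filter.2
        ⟨List.mem_toFinset.2 hz, ?_⟩⟩))
      have h3 : ∀ (t : QTree), ∀ z ∈ QTree.ypath (V : Set (List Bool)) t, z ∈ (V : Set (List Bool)) := by
        intro t
        induction t with
        | out s =>
          intro z hz
          simp [QTree.ypath] at hz
        | ask s y n ih1 ih2 =>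
          intro z hz
          by_cases hs : s ∈ (V : Set (List Bool))
          · rw [QTree.ypath, if_pos hs, List.mem_cons] at hz
            rcases hz with rfl | hz
            · exact hs
            · exact ih1 z hz
          · rw [QTree.ypath, if_neg hs] at hz
            exact ih2 z hz
      exact h3 (T v) z hz
    apply (Finset.mem_sdiff.1 hs₀).2
    rw [Finset.mem_image]
    exact ⟨v, hF v hv, by rw [← h2]; exact heq⟩

end Pool.Agent.H83.DS
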