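import Pool.Agent.H83.TK.Dec

/-!
# DS.Slow : computations whose time is polynomial in an exponential parameter (about 150 lines)

`SlowTime τ f`: a stack program computes `f a` in time polynomial in `τ a`.  `slow_poly`: `PolyTime.poly`.  `slow_comp`: as `PolyTime.comp`
(the two polynomials are monotone: `eval_mono`).  `slow_double`: as `PolyTime.iterate` (Poly/Comb.lean): the iteration loop `iter_loop` with
`h (x, m) = (x, m + m)` (`PolyTime`), started at `(x, 1)`, number of iterations `e` (unary, `enc = 1^e`); the sizes of the iterates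
are `2 size x + 1 + 2^i ≤ 2 (size x + 2^e) + 1`, the cost of a step is polynomial in this, so the total is polynomial in `size x + 2^e`
(`e ≤ 2^e`).  `slow_universal`: as `exists_decoder` in TK/Dec.lean (`exists_mach`, `lefts`, `rights`, `hU`, time bound). -/

set_option autoImplicit false

namespace Pool.Agent.H83.DS

open Pool.Agent.H80.Poly Pool.Agent.H72.NP Pool.Agent.H83.TK Turing Computability

/-- `f` is computable in time polynomial in `τ` -/
def SlowTime {α β : Type} [BEnc α] [BEnc β] (τ : α → ℕ) (f : α → β) : Prop :=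
  ∃ (p : Prog) (P : Polynomial ℕ), ∀ a, ∃ n ≤ P.eval (τ a), Ex p (ini (enc a)) (ini (enc (f a))) n

theorem slow_poly {α β : Type} [BEnc α] [BEnc β] {f : α → β} (h : PolyTime f) : SlowTime (fun a => size a) f := by
  obtain ⟨p, t, hp⟩ := h.poly
  exact ⟨p, t, hp⟩

theorem slow_mono {α β : Type} [BEnc α] [BEnc β] {f : α → β} {τ σ : α → ℕ} (h : SlowTime τ f)
    (P : Polynomial ℕ) (hP : ∀ a, τ a ≤ P.eval (σ a)) : SlowTime σ f := by
  obtain ⟨p, Q, hp⟩ := h
  refine ⟨p, Q.comp P, fun a => ?_⟩
  obtain ⟨n, hn, h1⟩ := hp a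
  refine ⟨n, hn.trans ?_, h1⟩
  rw [Polynomial.eval_comp]
  exact eval_mono Q (hP a)

theorem slow_comp {α β γ : Type} [BEnc α] [BEnc β] [BEnc γ] {f : α → β} {g : β → γ} {τ : α → ℕ} {σ : β → ℕ}
    (hf : SlowTime τ f) (hg : SlowTime σ g) : SlowTime (fun a => τ a + σ (f a)) (fun a => g (f a)) := by
  obtain ⟨p, P, hp⟩ := hf
  obtain ⟨q, Q, hq⟩ := hg
  refine ⟨Prog.seq p q, P + Q, fun a => ?_⟩
  obtain ⟨n, hn, h1⟩ := hp a
  obtain ⟨m, hm, h2⟩ := hq (f a)
  refine ⟨n + m, ?_, Ex.seq h1 h2⟩
  rw [Polynomial.eval_add]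
  exact Nat.add_le_add (hn.trans (eval_mono P (Nat.le_add_right _ _)))
    (hm.trans (eval_mono Q (Nat.le_add_left _ _)))

private theorem slow_iter {α : Type} (x : α) (i : ℕ) :
    (fun a : α × UNat => ((a.1, UNat.ofNat (a.2.toNat + a.2.toNat)) : α × UNat))^[i] (x, UNat.ofNat 1) =
      (x, UNat.ofNat (2 ^ i)) := by
  induction i with
  | zero => rfl
  | succ i ih =>
    rw [Function.iterate_succ_apply', ih]
    show ((x, UNat.ofNat (2 ^ i + 2 ^ i)) : α × UNat) = _
    rw [pow_succ, mul_two]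

private theorem slow_enc_len (l : List (Bool ⊕ Bool)) : (enc l).length = 5 * l.length := by
  induction l with
  | nil => rfl
  | cons a l ih =>
    rw [enc_cons, length_pr, ih]
    cases a <;> simp <;> ring

theorem slow_double {α : Type} [BEnc α] :
    SlowTime (fun a : α × UNat => size a.1 + 2 ^ a.2.toNat) (fun a : α × UNat => (a.1, UNat.ofNat (2 ^ a.2.toNat))) := by
  have hc : PolyTime (fun a : α × UNat => toStr a.2) := PolyTime.toStr'.comp PolyTime.snd'
  have hf : PolyTime (fun a : α × UNat => ((a.1, UNat.ofNat 1) : α × UNat)) :=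
    PolyTime.fst'.pair (PolyTime.const _)
  set h : α × UNat → α × UNat := fun a => (a.1, UNat.ofNat (a.2.toNat + a.2.toNat)) with hdef
  have hh : PolyTime h := PolyTime.fst'.pair (PolyTime.snd'.unatAdd PolyTime.snd')
  obtain ⟨p, t, hp⟩ := hh.poly
  obtain ⟨q, u, hq⟩ := (hc.pair hf).poly
  set m := max (bnd p) 1 with hm
  have hm0 : 0 < m := by omega
  have hpm : bnd p ≤ m := by omega
  have hPB : PB (fun N => u.eval (2 * N + 1) + ((5 * N + 1) + (1 + (N * (t.eval (2 * N + 1) + 2) + 1)))) := by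
    have h2 : PB (fun N => 2 * N + 1) := ((PB.const 2).mul PB.id).add (PB.const 1)
    exact (PB.evalComp u h2).add ((((PB.const 5).mul PB.id).add (PB.const 1)).add
      ((PB.const 1).add ((PB.id.mul ((PB.evalComp t h2).add (PB.const 2))).add (PB.const 1))))
  obtain ⟨P, hP⟩ := hPB
  refine ⟨Prog.seq q (Prog.seq (unEsc 0 m) (Prog.seq (Prog.pop 0)
    (Prog.loop m ne (Prog.seq (Prog.pop m) p)))), P, fun a => ?_⟩
  obtain ⟨y, e⟩ := a
  set N := size y + 2 ^ e.toNat with hN
  have heN : e.toNat ≤ N := (Nat.lt_two_pow_self.le).trans (Nat.le_add_left _ _)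
  have hyN : size y ≤ N := Nat.le_add_right _ _
  obtain ⟨n1, hn1, h1⟩ := hq (y, e)
  have hn1' : n1 ≤ u.eval (2 * N + 1) := hn1.trans (eval_mono u (by
    have hsz : (enc ((y, e) : α × UNat)).length = 2 * size y + 1 + e.toNat := by
      rw [enc_prod, length_pr, enc_unat, List.length_replicate]
    have h3 : e.toNat ≤ 2 ^ e.toNat := Nat.lt_two_pow_self.le
    rw [hsz]
    omega))
  set x := enc (toStr e) with hx
  have hxl : x.length = e.toNat := by
    rw [hx]
    show (enc e).length = _
    rw [enc_unat, List.length_replicate]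
  have s2 : Ex (unEsc 0 m) (ini (pr x (enc ((y, UNat.ofNat 1) : α × UNat))))
      (hi m (false :: enc ((y, UNat.ofNat 1) : α × UNat)) x.reverse [] []) (5 * x.length + 1) := by
    have := unEsc_spec (i := 0) (j := m) (by omega) (enc ((y, UNat.ofNat 1) : α × UNat)) x
      (hi m (pr x (enc ((y, UNat.ofNat 1) : α × UNat))) [] [] []) (hi_0 _ _ _ _ _)
    rw [hi_u0, hi_m hm0, hi_um hm0, List.append_nil] at this
    rwa [hi_ini] at this
  have s3 : Ex (Prog.pop 0) (hi m (false :: enc ((y, UNat.ofNat 1) : α × UNat)) x.reverse [] [])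
      (hi m (enc ((y, UNat.ofNat 1) : α × UNat)) x.reverse [] []) 1 := by
    have := Ex.pop 0 (hi m (false :: enc ((y, UNat.ofNat 1) : α × UNat)) x.reverse [] [])
    rwa [hi_0, hi_u0, List.tail_cons] at this
  obtain ⟨n4, hn4, h4⟩ := iter_loop (h := h) (t := fun n => t.eval n) hpm hm0 hp
    (t.eval (2 * N + 1)) x.reverse (y, UNat.ofNat 1) (by
    intro i hi
    rw [List.length_reverse, hxl] at hi
    refine eval_mono t ?_
    rw [slow_iter, enc_prod, length_pr, enc_unat, List.length_replicate]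
    have h5 : 2 ^ i ≤ 2 ^ e.toNat := Nat.pow_le_pow_right (by norm_num) hi
    show 2 * size y + 1 + 2 ^ i ≤ _
    omega)
  rw [List.length_reverse, hi_ini, hxl, slow_iter] at h4
  rw [List.length_reverse, hxl] at hn4
  refine ⟨_, ?_, Ex.seq h1 (Ex.seq s2 (Ex.seq s3 h4))⟩
  refine le_trans ?_ (hP N)
  have h5 : e.toNat * (t.eval (2 * N + 1) + 2) ≤ N * (t.eval (2 * N + 1) + 2) :=
    Nat.mul_le_mul_right _ heN
  rw [hxl]
  simp only
  omega

theorem slow_universal {U : BM} (hU : Universal U) {τ : List Bool × List Bool → ℕ} {F : List Bool × List Bool → List Bool}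
    (h : SlowTime (fun a : Str × Str => τ (strToList a.1, strToList a.2))
      (fun a : Str × Str => listToStr (F (strToList a.1, strToList a.2)))) :
    ∃ (w : List Bool) (P : Polynomial ℕ), ∀ q y : List Bool,
      U.Out (w ++ q) y (F (q, y)) (P.eval (q.length + y.length + τ (q, y))) := by
  have hf1 : PolyTime (fun l : List (Bool ⊕ Bool) =>
      ((listToStr (lefts l), listToStr (rights l)) : Str × Str)) :=
    (PolyTime.listToStr'.comp (poly_lefts PolyTime.id)).pair
      (PolyTime.listToStr'.comp (poly_rights PolyTime.id))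
  obtain ⟨p1, t1, h1⟩ := hf1.poly
  obtain ⟨p2, t2, h2⟩ := h
  obtain ⟨tm, ia, oa, C, hM⟩ := exists_mach (Bool ⊕ Bool) (Prog.seq p1 p2)
  obtain ⟨w, p, hw⟩ := hU ⟨tm, ia, oa⟩
  have hPB : PB (fun k => p.eval (k + (t1.eval (5 * k) + t2.eval k + C * k + C))) := by
    refine PB.evalComp p (PB.add PB.id (PB.add (PB.add (PB.add
      (PB.evalComp t1 ((PB.const 5).mul PB.id)) (PB.eval t2)) ((PB.const C).mul PB.id)) (PB.const C)))
  obtain ⟨P, hP⟩ := hPB
  refine ⟨w, P, fun q y => ?_⟩
  set k := q.length + y.length + τ (q, y) with hk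
  set l := pairEnc (id : List Bool → List Bool) (q, y) with hl
  have hll : l.length = q.length + y.length := by
    rw [hl]
    unfold pairEnc
    rw [List.length_append, List.length_map, List.length_map]
    rfl
  obtain ⟨m1, hm1, e1⟩ := h1 l
  obtain ⟨m2, hm2, e2⟩ := h2 ((q, y) : Str × Str)
  have hL : lefts l = q := lefts_pairEnc _ _
  have hR : rights l = y := rights_pairEnc _ _
  have e1' : Ex p1 (ini (enc l)) (ini (enc ((q, y) : Str × Str))) m1 := by
    have : ((listToStr (lefts l), listToStr (rights l)) : Str × Str) = ((q, y) : Str × Str) := by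
      rw [hL, hR]; rfl
    rw [← this]; exact e1
  have hex := Ex.seq e1' e2
  have hout : (⟨tm, ia, oa⟩ : BM).Out q y (F (q, y)) (m1 + m2 + C * l.length + C) :=
    hM l (F (q, y)) _ hex
  refine (hw q y (F (q, y)) _ hout).mono ((eval_mono p ?_).trans (hP k))
  have hm1' : m1 ≤ t1.eval (5 * k) := hm1.trans (eval_mono t1 (by
    rw [slow_enc_len]; omega))
  have hm2' : m2 ≤ t2.eval k := hm2.trans (eval_mono t2 (by
    show τ (q, y) ≤ k
    omega))
  have hCl : C * l.length ≤ C * k := Nat.mul_le_mul_left _ (by omega)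
  omega

end Pool.Agent.H83.DS
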